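import Mathlib

/-!
# MP_4be4c6_an : the notions of the problem
-/

namespace Pool.Agent.Lib.MP_4be4c6_an

/-- `Λ ⊂ ℝ^d` has bounded density: the number of points of `Λ` in an open ball of radius `1`
is bounded, uniformly in the center of the ball. -/
def BoundedDensity {d : ℕ} (Λ : Set (EuclideanSpace ℝ (Fin d))) : Prop :=
  ∃ M : ℕ, ∀ x : EuclideanSpace ℝ (Fin d), (Λ ∩ Metric.ball x 1).encard ≤ M

/-- `f + Λ` is a tiling at level `w`: for almost every `x`, the series `∑_{l ∈ Λ} f (x - l)`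
converges absolutely, to `w`. -/
def TilesAt {d : ℕ} (f : EuclideanSpace ℝ (Fin d) → ℂ) (Λ : Set (EuclideanSpace ℝ (Fin d)))
    (w : ℂ) : Prop :=
  ∀ᵐ x : EuclideanSpace ℝ (Fin d), HasSum (fun l : Λ => f (x - l)) w

/-- the set `A ℤ^d` (a lattice when `det A ≠ 0`) -/
def latticeOf {d : ℕ} (A : Matrix (Fin d) (Fin d) ℝ) : Set (EuclideanSpace ℝ (Fin d)) :=
  Set.range fun n : Fin d → ℤ => WithLp.toLp 2 (A.mulVec fun i => (n i : ℝ))

end Pool.Agent.Lib.MP_4be4c6_an
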