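import Mathlib
import Pool.Agent.Lib.Topology38.Brouwer

section

set_option autoImplicit false

/-!
An abstract perturbation lemma: a nondegenerate finite system of equations in many real unknowns
can be solved together with one additional equation on the mean of `exp(-2πi l φ_n)` for large `l`.
-/

namespace Pool.Agent.Lib.MP_4be4c6_an

open Filter Topology Set Module

/-- `e(t) = exp(2πit)`. -/
noncomputable def ee (t : ℝ) : ℂ := Complex.exp ((2 * Real.pi * t : ℝ) * Complex.I)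

lemma ee_continuous : Continuous ee := by
  unfold ee
  fun_prop

lemma norm_ee (t : ℝ) : ‖ee t‖ = 1 := Complex.norm_exp_ofReal_mul_I _

lemma ee_zero : ee 0 = 1 := by simp [ee]

lemma ee_add (s t : ℝ) : ee (s + t) = ee s * ee t := by
  unfold ee
  rw [← Complex.exp_add]
  congr 1
  push_cast
  ring

lemma ee_int (n : ℤ) : ee n = 1 := by
  unfold ee
  rw [Complex.exp_eq_one_iff]
  refine ⟨n, ?_⟩
  push_cast
  ring

lemma ee_nat (n : ℕ) : ee n = 1 := by
  have := ee_int n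
  simpa using this

lemma ee_ne_zero (t : ℝ) : ee t ≠ 0 := Complex.exp_ne_zero _

lemma conj_ee (t : ℝ) : (starRingEnd ℂ) (ee t) = ee (-t) := by
  unfold ee
  rw [← Complex.exp_conj]
  congr 1
  rw [map_mul, Complex.conj_I, Complex.conj_ofReal]
  push_cast
  ring

lemma ee_re (t : ℝ) : (ee t).re = Real.cos (2 * Real.pi * t) := by
  unfold ee
  rw [Complex.exp_ofReal_mul_I_re]

lemma ee_im (t : ℝ) : (ee t).im = Real.sin (2 * Real.pi * t) := by
  unfold ee
  rw [Complex.exp_ofReal_mul_I_im]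

lemma ee_add_ee_neg (t : ℝ) : ee t + ee (-t) = ((2 * Real.cos (2 * Real.pi * t) : ℝ) : ℂ) := by
  apply Complex.ext
  · rw [Complex.add_re, ee_re, ee_re, Complex.ofReal_re, mul_neg, Real.cos_neg]
    ring
  · rw [Complex.add_im, ee_im, ee_im, Complex.ofReal_im, mul_neg, Real.sin_neg]
    ring

lemma ee_half : ee (1 / 2) = -1 := by
  have : 2 * Real.pi * (1 / 2) = Real.pi := by ring
  apply Complex.ext
  · rw [ee_re, this]; simp
  · rw [ee_im, this]; simp

lemma ee_quarter : ee (1 / 4) = Complex.I := by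
  apply Complex.ext
  · rw [ee_re]
    have : 2 * Real.pi * (1 / 4) = Real.pi / 2 := by ring
    rw [this]; simp
  · rw [ee_im]
    have : 2 * Real.pi * (1 / 4) = Real.pi / 2 := by ring
    rw [this]; simp

section LinearAlgebra

variable {ι : Type} [Fintype ι] [DecidableEq ι] {W : Type} [AddCommGroup W] [Module ℝ W]
  [FiniteDimensional ℝ W]

omit [FiniteDimensional ℝ W] in
/-- A surjective linear map has a linear right inverse supported on few coordinates. -/
lemma exists_right_inverse (T : (ι → ℝ) →ₗ[ℝ] W) (hT : Function.Surjective T) :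
    ∃ (D : Finset ι) (S : W →ₗ[ℝ] (ι → ℝ)), D.card = finrank ℝ W ∧ (∀ w, T (S w) = w) ∧
      ∀ w, ∀ n ∉ D, S w n = 0 := by
  obtain ⟨κ, a, ha, hsp, hli⟩ := exists_linearIndependent' ℝ
    (fun n : ι => T (Pi.single n (1 : ℝ)))
  have : Finite κ := Finite.of_injective a ha
  have : Fintype κ := Fintype.ofFinite κ
  have htop : ⊤ ≤ Submodule.span ℝ (Set.range ((fun n : ι => T (Pi.single n (1 : ℝ))) ∘ a)) := by
    rw [hsp]
    intro w _
    obtain ⟨ψ, rfl⟩ := hT w
    have : ψ = ∑ n, ψ n • (Pi.single n (1 : ℝ) : ι → ℝ) := by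
      ext m
      simp [Finset.sum_apply, Pi.single_apply]
    rw [this, map_sum]
    refine Submodule.sum_mem _ fun n _ => ?_
    rw [map_smul]
    exact Submodule.smul_mem _ _ (Submodule.subset_span ⟨n, rfl⟩)
  let b := Basis.mk hli htop
  refine ⟨Finset.univ.image a, b.constr ℝ fun k => (Pi.single (a k) (1 : ℝ) : ι → ℝ), ?_, ?_, ?_⟩
  · rw [Finset.card_image_of_injective _ ha, Finset.card_univ, finrank_eq_card_basis b]
  · intro w
    have : T ∘ₗ (b.constr ℝ fun k => (Pi.single (a k) (1 : ℝ) : ι → ℝ)) = LinearMap.id := by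
      refine b.ext fun k => ?_
      rw [LinearMap.comp_apply, Basis.constr_basis]
      simp [b]
    exact LinearMap.congr_fun this w
  · intro w n hn
    rw [Basis.constr_apply_fintype, Finset.sum_apply]
    refine Finset.sum_eq_zero fun k _ => ?_
    have : n ≠ a k := fun h => hn (h ▸ Finset.mem_image_of_mem _ (Finset.mem_univ _))
    simp [this]

/-- A kernel vector supported on a given large set of coordinates. -/
lemma exists_ker_vector (T : (ι → ℝ) →ₗ[ℝ] W) (E : Finset ι) (hE : finrank ℝ W < E.card) :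
    ∃ Φ : ι → ℝ, Φ ≠ 0 ∧ T Φ = 0 ∧ ∀ n ∉ E, Φ n = 0 := by
  let J : (E → ℝ) →ₗ[ℝ] (ι → ℝ) :=
    { toFun := fun f n => if h : n ∈ E then f ⟨n, h⟩ else 0
      map_add' := fun f g => by
        ext n
        by_cases h : n ∈ E <;> simp [h]
      map_smul' := fun c f => by
        ext n
        by_cases h : n ∈ E <;> simp [h] }
  have hker : LinearMap.ker (T ∘ₗ J) ≠ ⊥ := by
    apply LinearMap.ker_ne_bot_of_finrank_lt
    rw [Module.finrank_pi, Fintype.card_coe]
    exact hE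
  obtain ⟨f, hf, hf0⟩ := Submodule.exists_mem_ne_zero_of_ne_bot hker
  refine ⟨J f, ?_, hf, ?_⟩
  · intro h
    apply hf0
    ext ⟨n, hn⟩
    have := congrFun h n
    simpa [J, hn] using this
  · intro n hn
    simp [J, hn]

end LinearAlgebra

/-- The angle with cosine `x/2`. -/
noncomputable def tt (x : ℝ) : ℝ := Real.arccos (x / 2) / (2 * Real.pi)

lemma tt_continuous : Continuous tt := by
  unfold tt
  exact (Real.continuous_arccos.comp (by fun_prop)).div_const _

lemma tt_nonneg (x : ℝ) : 0 ≤ tt x := div_nonneg (Real.arccos_nonneg _) (by positivity)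

lemma tt_le (x : ℝ) : tt x ≤ 1 / 2 := by
  unfold tt
  rw [div_le_iff₀ (by positivity)]
  have := Real.arccos_le_pi (x / 2)
  linarith

lemma cos_tt {x : ℝ} (hx : |x| ≤ 2) : 2 * Real.cos (2 * Real.pi * tt x) = x := by
  unfold tt
  rw [mul_div_cancel₀ _ (by positivity), Real.cos_arccos]
  · ring
  · have := (abs_le.1 hx).1; linarith
  · have := (abs_le.1 hx).2; linarith

/-- Phases of a quadruple. -/
noncomputable def qd (j : Fin 4) (z : ℂ) : ℝ :=
  match j with
  | 0 => tt z.re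
  | 1 => -tt z.re
  | 2 => -(1 / 4) + tt z.im
  | 3 => -(1 / 4) - tt z.im

lemma qd_continuous (j : Fin 4) : Continuous (qd j) := by
  have h1 : Continuous fun z : ℂ => tt z.re := tt_continuous.comp Complex.continuous_re
  have h2 : Continuous fun z : ℂ => tt z.im := tt_continuous.comp Complex.continuous_im
  fin_cases j
  · exact h1
  · exact h1.neg
  · exact continuous_const.add h2
  · exact continuous_const.sub h2

lemma abs_qd_le (j : Fin 4) (z : ℂ) : |qd j z| ≤ 1 := by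
  have h1 := tt_nonneg z.re
  have h2 := tt_le z.re
  have h3 := tt_nonneg z.im
  have h4 := tt_le z.im
  fin_cases j <;> simp only [qd] <;> rw [abs_le] <;> constructor <;> linarith

lemma sum_qd {z : ℂ} (h1 : |z.re| ≤ 2) (h2 : |z.im| ≤ 2) : ∑ j, ee (-(qd j z)) = z := by
  rw [Fin.sum_univ_four]
  simp only [qd]
  have e1 : ee (-tt z.re) + ee (- -tt z.re) = (z.re : ℂ) := by
    rw [neg_neg, add_comm, ee_add_ee_neg, cos_tt h1]
  have e2 : ee (-(-(1 / 4) + tt z.im)) = Complex.I * ee (-tt z.im) := by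
    rw [← ee_quarter, ← ee_add]
    congr 1; ring
  have e3 : ee (-(-(1 / 4) - tt z.im)) = Complex.I * ee (tt z.im) := by
    rw [← ee_quarter, ← ee_add]
    congr 1; ring
  have e4 : ee (tt z.im) + ee (-tt z.im) = (z.im : ℂ) := by
    rw [ee_add_ee_neg, cos_tt h2]
  calc ee (-tt z.re) + ee (- -tt z.re) + ee (-(-(1 / 4) + tt z.im)) + ee (-(-(1 / 4) - tt z.im))
      = (z.re : ℂ) + (z.im : ℂ) * Complex.I := by
        rw [e1, e2, e3, ← e4]
        ring
    _ = z := Complex.re_add_im z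

lemma exists_quad {ι : Type} [DecidableEq ι] (R : Finset ι) (r : ℕ) (hR : R.card = r * 4) :
    ∃ τ : ι → ℂ → ℝ, (∀ n, Continuous (τ n)) ∧ (∀ n z, |τ n z| ≤ 1) ∧
      ∀ z : ℂ, |z.re| ≤ 2 → |z.im| ≤ 2 → ∑ n ∈ R, ee (-(τ n z)) = r * z := by
  let e : R ≃ Fin r × Fin 4 := (R.equivFin.trans (finCongr hR)).trans finProdFinEquiv.symm
  refine ⟨fun n z => if h : n ∈ R then qd (e ⟨n, h⟩).2 z else 0, ?_, ?_, ?_⟩
  · intro n
    by_cases h : n ∈ R
    · simp only [h, dif_pos]
      exact qd_continuous _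
    · simp only [h, dif_neg, not_false_eq_true]
      exact continuous_const
  · intro n z
    by_cases h : n ∈ R
    · simp only [h, dif_pos]
      exact abs_qd_le _ _
    · simp [h]
  · intro z h1 h2
    rw [← Finset.sum_coe_sort]
    have h3 : ∀ n : R, ee (-(if h : (n : ι) ∈ R then qd (e ⟨n, h⟩).2 z else 0)) =
        ee (-(qd (e n).2 z)) := fun n => by simp [n.2]
    rw [Finset.sum_congr rfl fun n _ => h3 n]
    rw [e.sum_comp (fun x : Fin r × Fin 4 => ee (-(qd x.2 z))), Fintype.sum_prod_type]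
    simp only
    rw [Finset.sum_const, sum_qd h1 h2]
    simp

section Step

variable {ι : Type} [Fintype ι] [DecidableEq ι] {W : Type} [NormedAddCommGroup W]
  [InnerProductSpace ℝ W] [FiniteDimensional ℝ W]

lemma ee_neg_mul_add (l x τ : ℝ) (hl : l ≠ 0) :
    ee (-(l * (x + 1 / l * (τ - Int.fract (l * x))))) = ee (-τ) := by
  have h1 : -(l * (x + 1 / l * (τ - Int.fract (l * x)))) = -τ + ((-⌊l * x⌋ : ℤ) : ℝ) := by
    have : l * (x + 1 / l * (τ - Int.fract (l * x))) = l * x + (τ - Int.fract (l * x)) := by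
      field_simp
    rw [this, Int.fract]
    push_cast
    ring
  rw [h1, ee_add, ee_int, mul_one]

omit [DecidableEq ι] in
/-- Surjectivity of a small perturbation of `T` together with an extra complex functional. -/
lemma nondeg {T T' : (ι → ℝ) →L[ℝ] W} (S : W →L[ℝ] (ι → ℝ)) (hTS : ∀ w, T (S w) = w)
    {Φ1 Φ2 : ι → ℝ} (hT1 : T Φ1 = 0) (hT2 : T Φ2 = 0) (E : ι → ℂ) (hE : ∀ n, ‖E n‖ = 1)
    {a1 a2 : ℝ} (ha1 : 0 < a1) (ha2 : 0 < a2) (h1 : ∑ n, E n * (Φ1 n : ℂ) = (a1 : ℝ))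
    (h2 : ∑ n, E n * (Φ2 n : ℂ) = Complex.I * (a2 : ℝ))
    (hTT : ‖T' - T‖ ≤ 1 / (2 * (‖S‖ + Fintype.card ι * ‖S‖ / a1 * ‖Φ1‖ +
      Fintype.card ι * ‖S‖ / a2 * ‖Φ2‖ + 1))) :
    Function.Surjective fun ψ : ι → ℝ => ((T' ψ, ∑ n, E n * ψ n) : W × ℂ) := by
  set N : ℝ := (Fintype.card ι : ℝ) with hN
  have hN0 : 0 ≤ N := Nat.cast_nonneg _
  set s : ℝ := ‖S‖ with hs
  have hs0 : 0 ≤ s := norm_nonneg _
  set κ0 : ℝ := s + N * s / a1 * ‖Φ1‖ + N * s / a2 * ‖Φ2‖ + 1 with hκ0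
  have hκ0' : 0 < κ0 := by positivity
  let Mm : (ι → ℝ) →ₗ[ℝ] ℂ :=
    { toFun := fun ψ => ∑ n, E n * ψ n
      map_add' := fun x y => by
        rw [← Finset.sum_add_distrib]
        refine Finset.sum_congr rfl fun n _ => ?_
        rw [Pi.add_apply]
        push_cast
        ring
      map_smul' := fun a x => by
        rw [Finset.smul_sum]
        refine Finset.sum_congr rfl fun n _ => ?_
        rw [Pi.smul_apply, smul_eq_mul, RingHom.id_apply, Complex.real_smul]
        push_cast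
        ring }
  let Lm : (ι → ℝ) →ₗ[ℝ] W × ℂ := LinearMap.prod (T' : (ι → ℝ) →ₗ[ℝ] W) Mm
  let J : W × (ℝ × ℝ) →ₗ[ℝ] (ι → ℝ) :=
    { toFun := fun v => S v.1 + v.2.1 • Φ1 + v.2.2 • Φ2
      map_add' := fun x y => by
        simp only [Prod.fst_add, Prod.snd_add, map_add, add_smul]
        abel
      map_smul' := fun a x => by
        simp only [Prod.smul_fst, Prod.smul_snd, map_smul, smul_eq_mul, RingHom.id_apply,
          smul_add, mul_smul] }
  have hinj : Function.Injective (Lm ∘ₗ J) := by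
    rw [← LinearMap.ker_eq_bot, LinearMap.ker_eq_bot']
    rintro ⟨w, α1, α2⟩ hv
    set ψ : ι → ℝ := J (w, α1, α2) with hψ
    have hψ' : ψ = S w + α1 • Φ1 + α2 • Φ2 := rfl
    have hv1 : T' ψ = 0 := congrArg Prod.fst hv
    have hv2 : ∑ n, E n * (ψ n : ℂ) = 0 := congrArg Prod.snd hv
    have hTψ : T ψ = w := by
      rw [hψ', map_add, map_add, map_smul, map_smul, hT1, hT2, hTS]
      simp
    have hw1 : ‖w‖ ≤ 1 / (2 * κ0) * ‖ψ‖ := by
      have h3 : (T' - T) ψ = -w := by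
        rw [sub_apply, hv1, hTψ, zero_sub]
      have h4 := (T' - T).le_opNorm ψ
      rw [h3, norm_neg] at h4
      exact h4.trans (by gcongr)
    have hψn : ‖ψ‖ ≤ s * ‖w‖ + |α1| * ‖Φ1‖ + |α2| * ‖Φ2‖ := by
      rw [hψ']
      refine (norm_add_le _ _).trans ?_
      refine add_le_add ((norm_add_le _ _).trans (add_le_add (S.le_opNorm w) ?_)) ?_
      · rw [norm_smul, Real.norm_eq_abs]
      · rw [norm_smul, Real.norm_eq_abs]
    set b : ℂ := ∑ n, E n * (S w n : ℂ) with hb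
    have hbn : ‖b‖ ≤ N * s * ‖w‖ := by
      rw [hb]
      refine (norm_sum_le _ _).trans ?_
      calc ∑ n, ‖E n * (S w n : ℂ)‖ ≤ ∑ _n : ι, s * ‖w‖ := by
            refine Finset.sum_le_sum fun n _ => ?_
            rw [norm_mul, hE, one_mul, Complex.norm_real]
            exact (norm_le_pi_norm _ n).trans (S.le_opNorm w)
        _ = N * s * ‖w‖ := by
            rw [Finset.sum_const, Finset.card_univ, nsmul_eq_mul]; ring
    have hsum : b + (α1 * a1 : ℝ) + Complex.I * (α2 * a2 : ℝ) = 0 := by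
      have e1 : ∑ n, E n * (ψ n : ℂ) = b + α1 * ∑ n, E n * (Φ1 n : ℂ) +
          α2 * ∑ n, E n * (Φ2 n : ℂ) := by
        rw [hb, hψ', Finset.mul_sum, Finset.mul_sum, ← Finset.sum_add_distrib,
          ← Finset.sum_add_distrib]
        refine Finset.sum_congr rfl fun n _ => ?_
        simp only [Pi.add_apply, Pi.smul_apply, smul_eq_mul]
        push_cast
        ring
      rw [hv2, h1, h2] at e1
      rw [e1]
      push_cast
      ring
    have hα1 : |α1| * a1 ≤ N * s * ‖w‖ := by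
      have h3 := congrArg Complex.re hsum
      simp at h3
      have h4 : |α1 * a1| = |b.re| := by
        rw [show α1 * a1 = -b.re by linarith, abs_neg]
      rw [abs_mul, abs_of_pos ha1] at h4
      rw [h4]
      exact (Complex.abs_re_le_norm _).trans hbn
    have hα2 : |α2| * a2 ≤ N * s * ‖w‖ := by
      have h3 := congrArg Complex.im hsum
      simp at h3
      have h4 : |α2 * a2| = |b.im| := by
        rw [show α2 * a2 = -b.im by linarith, abs_neg]
      rw [abs_mul, abs_of_pos ha2] at h4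
      rw [h4]
      exact (Complex.abs_im_le_norm _).trans hbn
    have hα1' : |α1| ≤ N * s / a1 * ‖w‖ := by
      rw [div_mul_eq_mul_div, le_div_iff₀ ha1]; exact hα1
    have hα2' : |α2| ≤ N * s / a2 * ‖w‖ := by
      rw [div_mul_eq_mul_div, le_div_iff₀ ha2]; exact hα2
    have hw2 : ‖w‖ ≤ 1 / 2 * ‖w‖ := by
      calc ‖w‖ ≤ 1 / (2 * κ0) * ‖ψ‖ := hw1
        _ ≤ 1 / (2 * κ0) * (s * ‖w‖ + N * s / a1 * ‖w‖ * ‖Φ1‖ + N * s / a2 * ‖w‖ * ‖Φ2‖) := by
            gcongr
            exact hψn.trans (by gcongr)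
        _ ≤ 1 / (2 * κ0) * (κ0 * ‖w‖) := by
            gcongr
            rw [hκ0]
            have := norm_nonneg w
            linarith
        _ = 1 / 2 * ‖w‖ := by field_simp
    have hw0 : ‖w‖ = 0 := by
      have := norm_nonneg w
      linarith
    have hwz : w = 0 := norm_eq_zero.1 hw0
    rw [hw0, mul_zero] at hα1' hα2'
    have h5 : α1 = 0 := abs_eq_zero.1 (le_antisymm hα1' (abs_nonneg _))
    have h6 : α2 = 0 := abs_eq_zero.1 (le_antisymm hα2' (abs_nonneg _))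
    rw [hwz, h5, h6]
    rfl
  have hfin : finrank ℝ (W × (ℝ × ℝ)) = finrank ℝ (W × ℂ) := by
    rw [Module.finrank_prod, Module.finrank_prod, Module.finrank_prod,
      Complex.finrank_real_complex]
    simp
  have hsurj := (LinearMap.injective_iff_surjective_of_finrank_eq_finrank hfin).1 hinj
  intro y
  obtain ⟨v, hv⟩ := hsurj y
  exact ⟨J v, hv⟩

set_option maxHeartbeats 1000000 in
/-- **Abstract perturbation step** (values in a Euclidean space). -/
theorem abstract_step_inner (G : (ι → ℝ) → W) (hG : ContDiff ℝ 1 G) (φ : ι → ℝ) (h0 : G φ = 0)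
    (hT : Function.Surjective (fderiv ℝ G φ))
    (hK : 12 * finrank ℝ W + 20 ≤ Fintype.card ι) {η : ℝ} (hη : 0 < η) :
    ∃ l₀ : ℝ, ∀ l : ℝ, l₀ ≤ l → ∀ ε : ℂ, ‖ε‖ ≤ 1 / 8 → ∃ φ' : ι → ℝ, ‖φ' - φ‖ ≤ η ∧ G φ' = 0 ∧
      ∑ n, ee (-(l * φ' n)) = -((Fintype.card ι : ℂ) * ε) ∧
      Function.Surjective fun ψ : ι → ℝ =>
        ((fderiv ℝ G φ' ψ, ∑ n, ee (-(l * φ' n)) * ψ n) : W × ℂ) := by
  classical
  set N := Fintype.card ι with hN
  set K := finrank ℝ W with hKdef
  set T := fderiv ℝ G φ with hTdef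
  obtain ⟨D, S₀, hD, hTS, hSD⟩ := exists_right_inverse (T : (ι → ℝ) →ₗ[ℝ] W) hT
  set S : W →L[ℝ] (ι → ℝ) := LinearMap.toContinuousLinearMap S₀ with hS
  have hTS' : ∀ w, T (S w) = w := hTS
  have hSD' : ∀ w, ∀ n ∉ D, S w n = 0 := hSD
  -- the sets
  obtain ⟨E1, hE1s, hE1⟩ := Finset.exists_subset_card_eq (s := Dᶜ) (n := K + 1) (by
    rw [Finset.card_compl, hD]; omega)
  obtain ⟨E2, hE2s, hE2⟩ := Finset.exists_subset_card_eq (s := (D ∪ E1)ᶜ) (n := K + 1) (by
    rw [Finset.card_compl]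
    have := Finset.card_union_le D E1
    omega)
  set r : ℕ := (N - 3 * K - 2) / 4 with hr
  obtain ⟨R, hRs, hR⟩ := Finset.exists_subset_card_eq (s := (D ∪ E1 ∪ E2)ᶜ) (n := r * 4) (by
    rw [Finset.card_compl]
    have h1 := Finset.card_union_le (D ∪ E1) E2
    have h2 := Finset.card_union_le D E1
    omega)
  have hE1D : ∀ n ∈ E1, n ∉ D := fun n hn => by
    have := hE1s hn
    simpa using this
  have hE2D : ∀ n ∈ E2, n ∉ D ∧ n ∉ E1 := fun n hn => by
    have := hE2s hn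
    simpa [not_or] using this
  have hRD : ∀ n ∈ R, n ∉ D ∧ n ∉ E1 ∧ n ∉ E2 := fun n hn => by
    have := hRs hn
    simp only [Finset.mem_compl, Finset.mem_union, not_or] at this
    exact ⟨this.1.1, this.1.2, this.2⟩
  obtain ⟨τ, hτc, hτ1, hτs⟩ := exists_quad R r hR
  obtain ⟨Φ1, hΦ1, hTΦ1, hΦ1E⟩ := exists_ker_vector (T : (ι → ℝ) →ₗ[ℝ] W) E1 (by omega)
  obtain ⟨Φ2, hΦ2, hTΦ2, hΦ2E⟩ := exists_ker_vector (T : (ι → ℝ) →ₗ[ℝ] W) E2 (by omega)
  have hTΦ1' : T Φ1 = 0 := hTΦ1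
  have hTΦ2' : T Φ2 = 0 := hTΦ2
  have hNr : 3 * N ≤ 16 * r := by omega
  have hr0 : 0 < r := by omega
  have hr0' : (0 : ℝ) < r := by exact_mod_cast hr0
  -- constants
  set s : ℝ := ‖S‖ with hs
  have hs0 : 0 ≤ s := norm_nonneg _
  set t : ℝ := ‖T‖ with ht
  have ht0 : 0 ≤ t := norm_nonneg _
  set C : ℝ := 2 * t + 1 with hC
  have hC0 : 0 < C := by positivity
  set a1 : ℝ := ∑ n, |Φ1 n| with ha1
  set a2 : ℝ := ∑ n, |Φ2 n| with ha2
  have ha1' : 0 < a1 := by
    obtain ⟨n, hn⟩ := Function.ne_iff.1 hΦ1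
    exact Finset.sum_pos' (fun _ _ => abs_nonneg _) ⟨n, Finset.mem_univ _, abs_pos.2 hn⟩
  have ha2' : 0 < a2 := by
    obtain ⟨n, hn⟩ := Function.ne_iff.1 hΦ2
    exact Finset.sum_pos' (fun _ _ => abs_nonneg _) ⟨n, Finset.mem_univ _, abs_pos.2 hn⟩
  set κ0 : ℝ := s + N * s / a1 * ‖Φ1‖ + N * s / a2 * ‖Φ2‖ + 1 with hκ0
  have hκ0' : 0 < κ0 := by positivity
  -- neighbourhoods
  obtain ⟨δ1, hδ1, hG1⟩ : ∃ δ1 > 0, ∀ p : ι → ℝ, ‖p‖ < δ1 →
      ‖G (φ + p) - T p‖ ≤ 1 / (s * C + 2) * ‖p‖ := by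
    have h1 : HasFDerivAt G T φ := (hG.differentiable one_ne_zero φ).hasFDerivAt
    rw [hasFDerivAt_iff_isLittleO_nhds_zero] at h1
    have h2 := h1.def (c := 1 / (s * C + 2)) (by positivity)
    rw [Metric.eventually_nhds_iff] at h2
    obtain ⟨δ, hδ, h3⟩ := h2
    refine ⟨δ, hδ, fun p hp => ?_⟩
    have h4 := @h3 p (by simpa using hp)
    rwa [h0, sub_zero] at h4
  obtain ⟨δ2, hδ2, hG2⟩ : ∃ δ2 > 0, ∀ p : ι → ℝ, ‖p‖ < δ2 →
      ‖fderiv ℝ G (φ + p) - T‖ ≤ 1 / (2 * κ0) := by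
    have h1 : Continuous (fderiv ℝ G) := hG.continuous_fderiv one_ne_zero
    obtain ⟨δ, hδ, h2⟩ := Metric.continuous_iff.1 h1 φ (1 / (2 * κ0)) (by positivity)
    refine ⟨δ, hδ, fun p hp => ?_⟩
    have h3 := h2 (φ + p) (by simpa [dist_eq_norm] using hp)
    rw [dist_eq_norm] at h3
    exact h3.le
  set m : ℝ := min δ1 (min δ2 η) with hm
  have hm0 : 0 < m := lt_min hδ1 (lt_min hδ2 hη)
  refine ⟨max 1 (2 * (s * C + 2) / m), fun l hl ε hε => ?_⟩
  have hl1 : 1 ≤ l := (le_max_left _ _).trans hl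
  have hl0 : 0 < l := by linarith
  have hlm : (s * C + 2) / l < m := by
    have h1 : 2 * (s * C + 2) / m ≤ l := (le_max_right _ _).trans hl
    rw [div_le_iff₀ hm0] at h1
    rw [div_lt_iff₀ hl0]
    have : 0 < s * C + 2 := by positivity
    linarith
  -- the perturbation
  set u : ι → ℝ := fun n => if n ∈ E1 then (if 0 ≤ Φ1 n then 0 else 1 / 2) - Int.fract (l * φ n)
    else if n ∈ E2 then (if 0 ≤ Φ2 n then -(1 / 4) else 1 / 4) - Int.fract (l * φ n) else 0 with hu
  set zz : W → ℂ := fun c => (-(N * ε) - ∑ n ∈ Rᶜ, ee (-(l * (φ n + (S c n + 1 / l * u n))))) / r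
    with hzz
  set sf : W → ι → ℝ := fun c n => if n ∈ R then τ n (zz c) - Int.fract (l * φ n) else u n with hsf
  set p : W → ι → ℝ := fun c => S c + (1 / l) • sf c with hp
  have hSc : ∀ n, Continuous fun c => S c n := fun n => (continuous_apply n).comp S.continuous
  have hzzc : Continuous zz := by
    simp only [hzz]
    refine Continuous.div_const (continuous_const.sub (continuous_finsetSum _ fun n _ => ?_)) _
    exact ee_continuous.comp ((continuous_const.mul (continuous_const.add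
      ((hSc n).add continuous_const))).neg)
  have hsfc : Continuous sf := by
    refine continuous_pi fun n => ?_
    simp only [hsf]
    by_cases h : n ∈ R
    · simp only [h, if_true]
      exact ((hτc n).comp hzzc).sub continuous_const
    · simp only [h, if_false]
      exact continuous_const
  have hpc : Continuous p := S.continuous.add ((continuous_const_smul (1 / l)).comp hsfc)
  have hsf2 : ∀ c, ‖sf c‖ ≤ 2 := by
    intro c
    rw [pi_norm_le_iff_of_nonneg (by norm_num)]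
    intro n
    have hf0 := Int.fract_nonneg (l * φ n)
    have hf1 := (Int.fract_lt_one (l * φ n)).le
    rw [Real.norm_eq_abs]
    simp only [hsf]
    by_cases h : n ∈ R
    · simp only [h, if_true]
      have := hτ1 n (zz c)
      rw [abs_le] at this ⊢
      constructor <;> linarith
    · simp only [h, if_false, hu]
      split_ifs <;> rw [abs_le] <;> constructor <;> linarith
  have hzzb : ∀ c, ‖zz c‖ ≤ 2 := by
    intro c
    simp only [hzz]
    rw [norm_div, Complex.norm_natCast, div_le_iff₀ hr0']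
    have h1 : ‖∑ n ∈ Rᶜ, ee (-(l * (φ n + (S c n + 1 / l * u n))))‖ ≤ (Rᶜ.card : ℝ) := by
      refine (norm_sum_le _ _).trans ?_
      simp [norm_ee]
    have h2 : (Rᶜ.card : ℝ) = N - 4 * r := by
      have : Rᶜ.card + r * 4 = N := by
        rw [Finset.card_compl, hR]
        have : r * 4 ≤ N := by omega
        omega
      have h3 : ((Rᶜ.card + r * 4 : ℕ) : ℝ) = N := by rw [this]
      push_cast at h3
      linarith
    have h3 : ‖-((N : ℂ) * ε)‖ ≤ N * (1 / 8) := by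
      rw [norm_neg, norm_mul, Complex.norm_natCast]
      gcongr
    have h4 : (3 : ℝ) * N ≤ 16 * r := by exact_mod_cast hNr
    calc ‖-((N : ℂ) * ε) - ∑ n ∈ Rᶜ, ee (-(l * (φ n + (S c n + 1 / l * u n))))‖
        ≤ N * (1 / 8) + (N - 4 * r) := by
          refine (norm_sub_le _ _).trans ?_
          linarith
      _ ≤ 2 * r := by linarith
  have hpR : ∀ c, ∀ n ∉ R, p c n = S c n + 1 / l * u n := by
    intro c n hn
    simp [hp, hsf, hn]
  have hpR' : ∀ c, ∀ n ∈ R, p c n = 1 / l * (τ n (zz c) - Int.fract (l * φ n)) := by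
    intro c n hn
    simp [hp, hsf, hn, hSD' c n (hRD n hn).1]
  have hmean : ∀ c, ∑ n, ee (-(l * (φ + p c) n)) = -((N : ℂ) * ε) := by
    intro c
    rw [← Finset.sum_add_sum_compl R]
    have h1 : ∑ n ∈ R, ee (-(l * (φ + p c) n)) = r * zz c := by
      rw [← hτs (zz c) ((Complex.abs_re_le_norm _).trans (hzzb c))
        ((Complex.abs_im_le_norm _).trans (hzzb c))]
      refine Finset.sum_congr rfl fun n hn => ?_
      rw [Pi.add_apply, hpR' c n hn, ee_neg_mul_add _ _ _ hl0.ne']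
    have h2 : ∑ n ∈ Rᶜ, ee (-(l * (φ + p c) n)) =
        ∑ n ∈ Rᶜ, ee (-(l * (φ n + (S c n + 1 / l * u n)))) := by
      refine Finset.sum_congr rfl fun n hn => ?_
      rw [Pi.add_apply, hpR c n (by simpa using hn)]
    have h3 : (r : ℂ) ≠ 0 := by exact_mod_cast hr0.ne'
    rw [h1, h2]
    simp only [hzz]
    rw [mul_div_cancel₀ _ h3]
    ring
  have hpnorm : ∀ c, ‖c‖ ≤ C / l → ‖p c‖ ≤ (s * C + 2) / l := by
    intro c hc
    calc ‖p c‖ ≤ ‖S c‖ + ‖(1 / l) • sf c‖ := norm_add_le _ _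
      _ ≤ s * (C / l) + 1 / l * 2 := by
          gcongr
          · exact (S.le_opNorm c).trans (by gcongr)
          · rw [norm_smul, Real.norm_of_nonneg (by positivity)]
            gcongr
            exact hsf2 c
      _ = _ := by ring
  have hkey : ∀ c, ‖c‖ ≤ C / l → ‖c - G (φ + p c)‖ ≤ C / l := by
    intro c hc
    have h1 := hpnorm c hc
    have h2 : ‖p c‖ < δ1 := lt_of_le_of_lt h1 (hlm.trans_le (min_le_left _ _))
    have h3 := hG1 (p c) h2
    have h4 : T (p c) = c + (1 / l) • T (sf c) := by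
      simp only [hp]
      rw [map_add, map_smul, hTS']
    have h5 : c - G (φ + p c) = -((1 / l) • T (sf c)) - (G (φ + p c) - T (p c)) := by
      rw [h4]; abel
    rw [h5]
    calc ‖-((1 / l) • T (sf c)) - (G (φ + p c) - T (p c))‖
        ≤ ‖(1 / l) • T (sf c)‖ + ‖G (φ + p c) - T (p c)‖ := by
          refine (norm_sub_le _ _).trans ?_
          rw [norm_neg]
      _ ≤ 1 / l * (t * 2) + 1 / (s * C + 2) * ((s * C + 2) / l) := by
          gcongr
          · rw [norm_smul, Real.norm_of_nonneg (by positivity)]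
            gcongr
            exact (T.le_opNorm _).trans (by gcongr; exact hsf2 c)
          · exact h3.trans (by gcongr)
      _ = C / l := by
          rw [hC]
          field_simp
  -- Brouwer
  obtain ⟨x, hx, hfx⟩ := Pool.Agent.Lib.Topology38.brouwer
    (f := fun x : W => x - (l / C) • G (φ + p ((C / l) • x))) (by
      refine Continuous.continuousOn ?_
      exact continuous_id.sub ((hG.continuous.comp (continuous_const.add
        (hpc.comp (continuous_const_smul _)))).const_smul _)) (by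
      intro x hx
      rw [mem_closedBall_zero_iff] at hx ⊢
      have h1 : ‖(C / l) • x‖ ≤ C / l := by
        rw [norm_smul, Real.norm_of_nonneg (by positivity)]
        calc C / l * ‖x‖ ≤ C / l * 1 := by gcongr
          _ = C / l := mul_one _
      have h2 := hkey _ h1
      have h3 : x - (l / C) • G (φ + p ((C / l) • x)) =
          (l / C) • ((C / l) • x - G (φ + p ((C / l) • x))) := by
        rw [smul_sub, smul_smul, div_mul_div_cancel₀ hC0.ne', div_self hl0.ne', one_smul]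
      change ‖x - (l / C) • G (φ + p ((C / l) • x))‖ ≤ 1
      rw [h3, norm_smul, Real.norm_of_nonneg (by positivity)]
      calc l / C * ‖(C / l) • x - G (φ + p ((C / l) • x))‖ ≤ l / C * (C / l) := by gcongr
        _ = 1 := by field_simp)
  rw [mem_closedBall_zero_iff] at hx
  set c : W := (C / l) • x with hc
  have hcn : ‖c‖ ≤ C / l := by
    rw [hc, norm_smul, Real.norm_of_nonneg (by positivity)]
    calc C / l * ‖x‖ ≤ C / l * 1 := by gcongr
      _ = C / l := mul_one _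
  have hGc : G (φ + p c) = 0 := by
    simp only [sub_eq_self, smul_eq_zero] at hfx
    rcases hfx with h | h
    · exact absurd h (by positivity)
    · exact h
  have hpc1 := hpnorm c hcn
  refine ⟨φ + p c, ?_, hGc, hmean c, ?_⟩
  · rw [add_sub_cancel_left]
    exact (hpc1.trans hlm.le).trans ((min_le_right _ _).trans (min_le_right _ _))
  -- nondegeneracy
  set φ' : ι → ℝ := φ + p c with hφ'
  set T' := fderiv ℝ G φ' with hT'
  have hTT : ‖T' - T‖ ≤ 1 / (2 * κ0) :=
    hG2 (p c) (lt_of_le_of_lt hpc1 (hlm.trans_le ((min_le_right _ _).trans (min_le_left _ _))))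
  have hφ'n : ∀ n ∉ R, φ' n = φ n + (S c n + 1 / l * u n) := by
    intro n hn
    rw [hφ', Pi.add_apply, hpR c n hn]
  have hE1v : ∀ n, ee (-(l * φ' n)) * (Φ1 n : ℂ) = ((|Φ1 n| : ℝ) : ℂ) := by
    intro n
    by_cases hn : n ∈ E1
    · have hnR : n ∉ R := fun h => (hRD n h).2.1 hn
      rw [hφ'n n hnR, hSD' c n (hE1D n hn), zero_add]
      simp only [hu, hn, if_true]
      rw [ee_neg_mul_add _ _ _ hl0.ne']
      by_cases h : 0 ≤ Φ1 n
      · simp only [h, if_true, neg_zero, ee_zero, one_mul]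
        rw [abs_of_nonneg h]
      · simp only [h, if_false]
        push Not at h
        have h1 : ee (-(1 / 2)) = -1 := by
          rw [← conj_ee, ee_half]; simp
        rw [h1, abs_of_neg h]
        push_cast
        ring
    · rw [hΦ1E n hn]
      simp
  have hE2v : ∀ n, ee (-(l * φ' n)) * (Φ2 n : ℂ) = Complex.I * ((|Φ2 n| : ℝ) : ℂ) := by
    intro n
    by_cases hn : n ∈ E2
    · have hnR : n ∉ R := fun h => (hRD n h).2.2 hn
      rw [hφ'n n hnR, hSD' c n (hE2D n hn).1, zero_add]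
      simp only [hu, hn, (hE2D n hn).2, if_true, if_false]
      rw [ee_neg_mul_add _ _ _ hl0.ne']
      by_cases h : 0 ≤ Φ2 n
      · simp only [h, if_true, neg_neg, ee_quarter]
        rw [abs_of_nonneg h]
      · simp only [h, if_false]
        push Not at h
        have h1 : ee (-(1 / 4)) = -Complex.I := by
          rw [← conj_ee, ee_quarter]; simp
        rw [h1, abs_of_neg h]
        push_cast
        ring
    · rw [hΦ2E n hn]
      simp
  refine nondeg S hTS' hTΦ1' hTΦ2' (fun n => ee (-(l * φ' n))) (fun n => norm_ee _) ha1' ha2' ?_ ?_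
    hTT
  · rw [ha1]
    push_cast
    exact Finset.sum_congr rfl fun n _ => hE1v n
  · rw [ha2]
    push_cast
    rw [Finset.mul_sum]
    exact Finset.sum_congr rfl fun n _ => hE2v n

end Step

/-- **Abstract perturbation step.** -/
theorem abstract_step {ι : Type} [Fintype ι] [DecidableEq ι] {W : Type} [NormedAddCommGroup W]
    [NormedSpace ℝ W] [FiniteDimensional ℝ W] (G : (ι → ℝ) → W) (hG : ContDiff ℝ 1 G)
    (φ : ι → ℝ) (h0 : G φ = 0) (hT : Function.Surjective (fderiv ℝ G φ))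
    (hK : 12 * finrank ℝ W + 20 ≤ Fintype.card ι) {η : ℝ} (hη : 0 < η) :
    ∃ l₀ : ℝ, ∀ l : ℝ, l₀ ≤ l → ∀ ε : ℂ, ‖ε‖ ≤ 1 / 8 → ∃ φ' : ι → ℝ, ‖φ' - φ‖ ≤ η ∧ G φ' = 0 ∧
      ∑ n, ee (-(l * φ' n)) = -((Fintype.card ι : ℂ) * ε) ∧
      Function.Surjective fun ψ : ι → ℝ =>
        ((fderiv ℝ G φ' ψ, ∑ n, ee (-(l * φ' n)) * ψ n) : W × ℂ) := by
  set e := toEuclidean (E := W) with he
  have hfd : ∀ x, fderiv ℝ (fun y => e (G y)) x =
      (e : W →L[ℝ] EuclideanSpace ℝ (Fin (finrank ℝ W))).comp (fderiv ℝ G x) := by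
    intro x
    have h1 : DifferentiableAt ℝ G x := hG.differentiable one_ne_zero x
    exact ((e : W →L[ℝ] EuclideanSpace ℝ (Fin (finrank ℝ W))).hasFDerivAt.comp x
      h1.hasFDerivAt).fderiv
  obtain ⟨l₀, hl₀⟩ := abstract_step_inner (fun y => e (G y)) (e.contDiff.comp hG) φ
    (by simp [h0]) (by
      rw [hfd]
      exact e.surjective.comp hT) (by simpa using hK) hη
  refine ⟨l₀, fun l hl ε hε => ?_⟩
  obtain ⟨φ', h1, h2, h3, h4⟩ := hl₀ l hl ε hε
  refine ⟨φ', h1, by simpa using h2, h3, ?_⟩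
  rintro ⟨w, ζ⟩
  obtain ⟨ψ, hψ⟩ := h4 (e w, ζ)
  refine ⟨ψ, ?_⟩
  rw [Prod.mk.injEq] at hψ ⊢
  refine ⟨?_, hψ.2⟩
  have h5 := hψ.1
  rw [hfd] at h5
  exact e.injective h5

end Pool.Agent.Lib.MP_4be4c6_an
end

section

/-!
# MP_4be4c6_an : periodic phases, windows of frequencies, change of period
-/

namespace Pool.Agent.Lib.MP_4be4c6_an

open Finset Module

lemma ee_eq_one_iff (t : ℝ) : ee t = 1 ↔ ∃ n : ℤ, t = n := by
  constructor
  · intro h
    unfold ee at h
    rw [Complex.exp_eq_one_iff] at h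
    obtain ⟨n, hn⟩ := h
    refine ⟨n, ?_⟩
    have h1 : ((2 * Real.pi * t : ℝ) : ℂ) = ((n * (2 * Real.pi) : ℝ) : ℂ) := by
      have := mul_right_cancel₀ Complex.I_ne_zero (hn.trans (by ring :
        (n : ℂ) * (2 * Real.pi * Complex.I) = (n * (2 * Real.pi)) * Complex.I))
      rw [this]; push_cast; ring
    have h2 : 2 * Real.pi * t = n * (2 * Real.pi) := by exact_mod_cast h1
    have hpi : (2 * Real.pi) ≠ 0 := by positivity
    apply mul_left_cancel₀ hpi
    rw [h2]; ring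
  · rintro ⟨n, rfl⟩
    exact ee_int n

lemma ee_mul_nat (t : ℝ) (n : ℕ) : ee (t * n) = ee t ^ n := by
  induction n with
  | zero => simp [ee_zero]
  | succ n ih =>
    rw [pow_succ, ← ih, ← ee_add]
    congr 1
    push_cast
    ring

lemma geom_ee (m : ℤ) {q : ℕ} (hq : 0 < q) :
    ∑ t ∈ range q, ee (m * t / q) = if (q : ℤ) ∣ m then (q : ℂ) else 0 := by
  have hq' : (q : ℝ) ≠ 0 := by positivity
  split_ifs with h
  · obtain ⟨μ, rfl⟩ := h
    have : ∀ t ∈ range q, ee (((q : ℤ) * μ : ℤ) * t / q) = 1 := by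
      intro t _
      rw [ee_eq_one_iff]
      refine ⟨μ * t, ?_⟩
      push_cast
      field_simp
    rw [sum_congr rfl this]
    simp
  · have h1 : ∀ t ∈ range q, ee (m * t / q) = ee (m / q) ^ t := by
      intro t _
      rw [← ee_mul_nat]
      congr 1
      ring
    rw [sum_congr rfl h1]
    have h2 : ee (m / q) ≠ 1 := by
      intro h3
      rw [ee_eq_one_iff] at h3
      obtain ⟨n, hn⟩ := h3
      apply h
      refine ⟨n, ?_⟩
      rw [div_eq_iff hq'] at hn
      have : (m : ℝ) = ((q * n : ℤ) : ℝ) := by rw [hn]; push_cast; ring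
      exact_mod_cast this
    have h3 := geom_sum_mul (ee (m / q)) q
    have h4 : ee (m / q) ^ q = 1 := by
      rw [← ee_mul_nat, div_mul_cancel₀ _ hq', ee_int]
    rw [h4, sub_self] at h3
    rcases mul_eq_zero.1 h3 with h5 | h5
    · exact h5
    · exact absurd (sub_eq_zero.1 h5) h2

lemma sum_range_mul_eq {M : Type*} [AddCommMonoid M] (F : ℕ → M) (N q : ℕ) :
    ∑ n ∈ range (N * q), F n = ∑ t ∈ range q, ∑ n ∈ range N, F (n + N * t) := by
  induction q with
  | zero => simp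
  | succ q ih =>
    rw [Nat.mul_succ, sum_range_add, ih, sum_range_succ]
    congr 1
    exact sum_congr rfl fun n _ => by rw [add_comm]

/-- periodicity of a function on the integers -/
def Per {α : Type*} (N : ℕ) (h : ℤ → α) : Prop := ∀ n : ℤ, h (n + N) = h n

lemma Per.add_mul {α : Type*} {N : ℕ} {h : ℤ → α} (hp : Per N h) (n : ℤ) (t : ℤ) :
    h (n + N * t) = h n := by
  induction t using Int.induction_on with
  | zero => simp
  | succ t ih =>
    rw [← ih, ← hp (n + N * t)]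
    congr 1
    ring
  | pred t ih =>
    rw [← ih, ← hp (n + N * (-t - 1))]
    congr 1
    ring

lemma Per.mul {α : Type*} {N : ℕ} {h : ℤ → α} (hp : Per N h) (q : ℕ) : Per (N * q) h := by
  intro n
  have := hp.add_mul n q
  rw [← this]
  congr 1

lemma sum_lift {N q : ℕ} (hN : 0 < N) (hq : 0 < q) {h : ℤ → ℂ} (hp : Per N h) (m : ℤ) :
    ∑ n ∈ range (N * q), h n * ee (m * n / (N * q : ℕ)) =
      (∑ n ∈ range N, h n * ee (m * n / (N * q : ℕ))) * ∑ t ∈ range q, ee (m * t / q) := by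
  have hN' : (N : ℝ) ≠ 0 := by positivity
  have hq' : (q : ℝ) ≠ 0 := by positivity
  rw [sum_range_mul_eq, sum_mul_sum, sum_comm]
  refine sum_congr rfl fun n _ => sum_congr rfl fun t _ => ?_
  have h1 : h ((n + N * t : ℕ) : ℤ) = h n := by
    have := hp.add_mul n t
    push_cast
    exact this
  rw [h1, mul_assoc, ← ee_add]
  congr 2
  push_cast
  field_simp

lemma sum_lift_of_dvd {N q : ℕ} (hN : 0 < N) (hq : 0 < q) {h : ℤ → ℂ} (hp : Per N h) (μ : ℤ) :
    ∑ n ∈ range (N * q), h n * ee (((q * μ : ℤ) : ℝ) * n / (N * q : ℕ)) =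
      q * ∑ n ∈ range N, h n * ee (μ * n / N) := by
  have hN' : (N : ℝ) ≠ 0 := by positivity
  have hq' : (q : ℝ) ≠ 0 := by positivity
  rw [sum_lift hN hq hp, geom_ee _ hq, if_pos (dvd_mul_right _ _), mul_comm]
  congr 1
  refine sum_congr rfl fun n _ => ?_
  congr 2
  push_cast
  field_simp

lemma sum_lift_of_not_dvd {N q : ℕ} (hN : 0 < N) (hq : 0 < q) {h : ℤ → ℂ} (hp : Per N h) {m : ℤ}
    (hm : ¬ (q : ℤ) ∣ m) :
    ∑ n ∈ range (N * q), h n * ee (m * n / (N * q : ℕ)) = 0 := by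
  rw [sum_lift hN hq hp, geom_ee _ hq, if_neg hm, mul_zero]

/-! ### Constraints -/

/-- the base of the periods -/
def qq : ℕ := 101

lemma qq_pos : 0 < qq := by norm_num [qq]

lemma qq_pow_pos (j : ℕ) : 0 < qq ^ j := pow_pos qq_pos j

lemma odd_qq_pow (j : ℕ) : Odd ((qq : ℤ) ^ j) := by
  apply Odd.pow
  exact ⟨50, by norm_num [qq]⟩

/-- the constraints on the frequency windows -/
def Cst (L k : ℕ) (l : ℕ → ℝ) (ε : ℕ → ℂ) (φ : ℤ → ℝ) : Prop :=
  ∀ i < k, ∀ m : ℤ, 2 * |m| < (qq : ℤ) ^ (L - 1 - i) →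
    ∑ n ∈ range (qq ^ L), ee (-(l i * φ n)) * ee (m * n / (qq ^ L : ℕ)) =
      if m = 0 then -(((qq ^ L : ℕ) : ℂ) * ε i) else 0

/-- surjectivity of the linearized constraints -/
def Srj (L k : ℕ) (l : ℕ → ℝ) (φ : ℤ → ℝ) : Prop :=
  ∀ w : ℕ → ℤ → ℂ, ∃ ψ : ℤ → ℝ, Per (qq ^ L) ψ ∧
    ∀ i < k, ∀ m : ℤ, 2 * |m| < (qq : ℤ) ^ (L - 1 - i) →
      ∑ n ∈ range (qq ^ L), ee (-(l i * φ n)) * ψ n * ee (m * n / (qq ^ L : ℕ)) = w i m

/-- windows : if `m = ρ + q μ`, `2|m| < q^(j+1)`, `|ρ| ≤ (q-1)/2` then `2|μ| < q^j`. -/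
lemma window_div {j : ℕ} {m ρ μ : ℤ} (hm : 2 * |m| < (qq : ℤ) ^ (j + 1)) (hρ : |ρ| ≤ 50)
    (h : m = ρ + qq * μ) : 2 * |μ| < (qq : ℤ) ^ j := by
  by_contra hcon
  push Not at hcon
  obtain ⟨t, ht⟩ := odd_qq_pow j
  have h1 : (qq : ℤ) ^ j + 1 ≤ 2 * |μ| := by omega
  have h2 : (qq : ℤ) * |μ| ≤ |m| + |ρ| := by
    have : (qq : ℤ) * μ = m - ρ := by rw [h]; ring
    have h3 : |(qq : ℤ) * μ| ≤ |m| + |ρ| := by rw [this]; exact abs_sub _ _
    rw [abs_mul] at h3
    have h4 : |(qq : ℤ)| = qq := abs_of_nonneg (by positivity)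
    rw [h4] at h3
    exact h3
  rw [pow_succ] at hm
  generalize (qq : ℤ) ^ j = Q at *
  have h5 : (qq : ℤ) = 101 := rfl
  rw [h5] at hm h2
  linarith

lemma Per.comp {α β : Type*} {N : ℕ} {h : ℤ → α} (hp : Per N h) (F : α → β) :
    Per N (fun n => F (h n)) := fun n => by simp only [hp n]

lemma Cst.lift {L k : ℕ} {l : ℕ → ℝ} {ε : ℕ → ℂ} {φ : ℤ → ℝ} (hkL : k ≤ L)
    (hφ : Per (qq ^ L) φ) (h : Cst L k l ε φ) : Cst (L + 1) k l ε φ := by
  intro i hi m hm
  have e1 : L + 1 - 1 - i = (L - 1 - i) + 1 := by omega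
  rw [e1] at hm
  have hper : Per (qq ^ L) (fun n => ee (-(l i * φ n))) := hφ.comp (fun t => ee (-(l i * t)))
  have e2 : qq ^ (L + 1) = qq ^ L * qq := pow_succ _ _
  rw [e2]
  by_cases hd : (qq : ℤ) ∣ m
  · obtain ⟨μ, rfl⟩ := hd
    have hμ : 2 * |μ| < (qq : ℤ) ^ (L - 1 - i) :=
      window_div (ρ := 0) hm (by norm_num) (by ring)
    have := sum_lift_of_dvd (qq_pow_pos L) qq_pos hper μ
    rw [this, h i hi μ hμ]
    have hq : (qq : ℤ) ≠ 0 := by norm_num [qq]
    by_cases hμ0 : μ = 0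
    · rw [if_pos hμ0, if_pos (by rw [hμ0, mul_zero])]
      push_cast
      ring
    · rw [if_neg hμ0, if_neg (mul_ne_zero hq hμ0), mul_zero]
  · rw [sum_lift_of_not_dvd (qq_pow_pos L) qq_pos hper hd, if_neg]
    rintro rfl
    exact hd (dvd_zero _)

lemma Srj.complex {L k : ℕ} {l : ℕ → ℝ} {φ : ℤ → ℝ} (h : Srj L k l φ) (w : ℕ → ℤ → ℂ) :
    ∃ g : ℤ → ℂ, Per (qq ^ L) g ∧
    (∀ i < k, ∀ m : ℤ, 2 * |m| < (qq : ℤ) ^ (L - 1 - i) →
      ∑ n ∈ range (qq ^ L), ee (-(l i * φ n)) * g n * ee (m * n / (qq ^ L : ℕ)) = w i m) ∧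
    (∀ i < k, ∀ m : ℤ, 2 * |m| < (qq : ℤ) ^ (L - 1 - i) →
      ∑ n ∈ range (qq ^ L), ee (-(l i * φ n)) * (starRingEnd ℂ) (g n) *
        ee (m * n / (qq ^ L : ℕ)) = 0) := by
  obtain ⟨a, hap, ha⟩ := h (fun i m => w i m / 2)
  obtain ⟨b, hbp, hb⟩ := h (fun i m => -Complex.I * w i m / 2)
  refine ⟨fun n => (a n : ℂ) + Complex.I * b n, ?_, ?_, ?_⟩
  · intro n
    simp only [hap n, hbp n]
  · intro i hi m hm
    have h1 := ha i hi m hm
    have h2 := hb i hi m hm
    have : ∀ n ∈ range (qq ^ L), ee (-(l i * φ n)) * ((a n : ℂ) + Complex.I * b n) *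
        ee (m * n / (qq ^ L : ℕ)) = ee (-(l i * φ n)) * a n * ee (m * n / (qq ^ L : ℕ)) +
        Complex.I * (ee (-(l i * φ n)) * b n * ee (m * n / (qq ^ L : ℕ))) := by
      intro n _
      ring
    rw [sum_congr rfl this, sum_add_distrib, ← mul_sum, h1, h2]
    linear_combination (-w i m / 2) * Complex.I_mul_I
  · intro i hi m hm
    have h1 := ha i hi m hm
    have h2 := hb i hi m hm
    have : ∀ n ∈ range (qq ^ L), ee (-(l i * φ n)) * (starRingEnd ℂ) ((a n : ℂ) + Complex.I * b n) *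
        ee (m * n / (qq ^ L : ℕ)) = ee (-(l i * φ n)) * a n * ee (m * n / (qq ^ L : ℕ)) -
        Complex.I * (ee (-(l i * φ n)) * b n * ee (m * n / (qq ^ L : ℕ))) := by
      intro n _
      rw [map_add, map_mul, Complex.conj_I, Complex.conj_ofReal, Complex.conj_ofReal]
      ring
    rw [sum_congr rfl this, sum_sub_distrib, ← mul_sum, h1, h2]
    linear_combination (w i m / 2) * Complex.I_mul_I

lemma Srj.lift {L k : ℕ} {l : ℕ → ℝ} {φ : ℤ → ℝ} (hkL : k ≤ L)
    (hφ : Per (qq ^ L) φ) (h : Srj L k l φ) : Srj (L + 1) k l φ := by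
  intro w
  have hq0 : ((qq : ℕ) : ℂ) ≠ 0 := by
    have := qq_pos
    exact_mod_cast this.ne'
  choose g hgp hg1 hg2 using fun ρ : ℤ => h.complex (fun i μ => 2 / (qq : ℂ) * w i (ρ + qq * μ))
  have e2 : qq ^ (L + 1) = qq ^ L * qq := pow_succ _ _
  let G : ℤ → ℂ := fun n => ∑ ρ ∈ Icc (-50 : ℤ) 50, ee (-(ρ * n / (qq ^ L * qq : ℕ))) * g ρ n
  refine ⟨fun n => (G n).re, ?_, ?_⟩
  · intro n
    have : G (n + (qq ^ (L + 1) : ℕ)) = G n := by
      refine sum_congr rfl fun ρ _ => ?_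
      rw [e2]
      have h1 := (hgp ρ).mul qq n
      rw [h1]
      congr 1
      have hne : ((qq ^ L * qq : ℕ) : ℝ) ≠ 0 := by
        have := Nat.mul_pos (qq_pow_pos L) qq_pos
        exact_mod_cast this.ne'
      have h2 : -((ρ : ℝ) * ((n + (qq ^ L * qq : ℕ) : ℤ) : ℝ) / (qq ^ L * qq : ℕ)) =
          -(ρ * n / (qq ^ L * qq : ℕ)) + ((-ρ : ℤ) : ℝ) := by
        generalize qq ^ L * qq = N at hne ⊢
        push_cast
        field_simp
        ring
      rw [h2, ee_add, ee_int, mul_one]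
    simp only [this]
  · intro i hi m hm
    have e1 : L + 1 - 1 - i = (L - 1 - i) + 1 := by omega
    rw [e1] at hm
    rw [e2]
    -- expand
    have hexp : ∀ n ∈ range (qq ^ L * qq),
        ee (-(l i * φ n)) * (((G n).re : ℝ) : ℂ) * ee (m * n / (qq ^ L * qq : ℕ)) =
        (1 / 2) * ∑ ρ ∈ Icc (-50 : ℤ) 50, (ee (-(l i * φ n)) * g ρ n) *
            ee (((m - ρ : ℤ) : ℝ) * n / (qq ^ L * qq : ℕ)) +
        (1 / 2) * ∑ ρ ∈ Icc (-50 : ℤ) 50, (ee (-(l i * φ n)) * (starRingEnd ℂ) (g ρ n)) *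
            ee (((m + ρ : ℤ) : ℝ) * n / (qq ^ L * qq : ℕ)) := by
      intro n _
      have hre : (((G n).re : ℝ) : ℂ) = (G n + (starRingEnd ℂ) (G n)) / 2 := by
        rw [Complex.re_eq_add_conj]
      rw [hre]
      have hc : (starRingEnd ℂ) (G n) = ∑ ρ ∈ Icc (-50 : ℤ) 50,
          ee (ρ * n / (qq ^ L * qq : ℕ)) * (starRingEnd ℂ) (g ρ n) := by
        simp only [G]
        rw [map_sum]
        refine sum_congr rfl fun ρ _ => ?_
        rw [map_mul, conj_ee, neg_neg]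
        simp
      rw [hc]
      have hG : G n = ∑ ρ ∈ Icc (-50 : ℤ) 50, ee (-(ρ * n / (qq ^ L * qq : ℕ))) * g ρ n := by
        simp only [G]
        refine sum_congr rfl fun ρ _ => ?_
        simp
      rw [hG]
      have t1 : ∀ ρ ∈ Icc (-50 : ℤ) 50, (ee (-(l i * φ n)) * g ρ n) *
            ee (((m - ρ : ℤ) : ℝ) * n / (qq ^ L * qq : ℕ)) =
            (ee (-(ρ * n / (qq ^ L * qq : ℕ))) * g ρ n) *
              (ee (-(l i * φ n)) * ee (m * n / (qq ^ L * qq : ℕ))) := by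
        intro ρ _
        have : ((m - ρ : ℤ) : ℝ) * n / (qq ^ L * qq : ℕ) =
          -(ρ * n / (qq ^ L * qq : ℕ)) + m * n / (qq ^ L * qq : ℕ) := by
          push_cast; ring
        rw [this, ee_add]
        ring
      have t2 : ∀ ρ ∈ Icc (-50 : ℤ) 50, (ee (-(l i * φ n)) * (starRingEnd ℂ) (g ρ n)) *
            ee (((m + ρ : ℤ) : ℝ) * n / (qq ^ L * qq : ℕ)) =
            (ee (ρ * n / (qq ^ L * qq : ℕ)) * (starRingEnd ℂ) (g ρ n)) *
              (ee (-(l i * φ n)) * ee (m * n / (qq ^ L * qq : ℕ))) := by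
        intro ρ _
        have : ((m + ρ : ℤ) : ℝ) * n / (qq ^ L * qq : ℕ) =
          ρ * n / (qq ^ L * qq : ℕ) + m * n / (qq ^ L * qq : ℕ) := by
          push_cast; ring
        rw [this, ee_add]
        ring
      rw [sum_congr rfl t1, sum_congr rfl t2, ← sum_mul, ← sum_mul]
      ring
    rw [sum_congr rfl hexp, sum_add_distrib, ← mul_sum, ← mul_sum, sum_comm,
      sum_comm (s := range (qq ^ L * qq))]
    have hper1 : ∀ ρ, Per (qq ^ L) (fun n => ee (-(l i * φ n)) * g ρ n) := fun ρ n => by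
      simp only [hφ n, hgp ρ n]
    have hper2 : ∀ ρ, Per (qq ^ L) (fun n => ee (-(l i * φ n)) * (starRingEnd ℂ) (g ρ n)) :=
      fun ρ n => by simp only [hφ n, hgp ρ n]
    have hz2 : ∑ ρ ∈ Icc (-50 : ℤ) 50, ∑ n ∈ range (qq ^ L * qq),
        (ee (-(l i * φ n)) * (starRingEnd ℂ) (g ρ n)) *
            ee (((m + ρ : ℤ) : ℝ) * n / (qq ^ L * qq : ℕ)) = 0 := by
      refine sum_eq_zero fun ρ hρ => ?_
      by_cases hd : (qq : ℤ) ∣ m + ρ
      · obtain ⟨μ, hμ⟩ := hd
        rw [hμ]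
        rw [sum_lift_of_dvd (qq_pow_pos L) qq_pos (hper2 ρ) μ]
        have hw : 2 * |μ| < (qq : ℤ) ^ (L - 1 - i) := by
          apply window_div (ρ := -ρ) hm
          · rw [abs_neg, abs_le]
            exact Finset.mem_Icc.1 hρ
          · rw [← hμ]; ring
        rw [hg2 ρ i hi μ hw, mul_zero]
      · exact sum_lift_of_not_dvd (qq_pow_pos L) qq_pos (hper2 ρ) hd
    rw [hz2]
    -- the first sum
    obtain ⟨r, hr⟩ : ∃ r : ℤ, r = (m + 50) % 101 - 50 := ⟨_, rfl⟩
    have hbm1 : r ∈ Icc (-50 : ℤ) 50 := by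
      rw [Finset.mem_Icc]
      constructor <;> omega
    rw [Finset.sum_eq_single_of_mem r hbm1]
    · obtain ⟨μ, hμdef⟩ : ∃ μ : ℤ, μ = (m - r) / 101 := ⟨_, rfl⟩
      have hd : m - r = (qq : ℤ) * μ := by
        have : (qq : ℤ) = 101 := rfl
        rw [this]
        omega
      rw [hd, sum_lift_of_dvd (qq_pow_pos L) qq_pos (hper1 _) μ]
      have hw : 2 * |μ| < (qq : ℤ) ^ (L - 1 - i) := by
        apply window_div (ρ := r) hm
        · rw [abs_le]
          exact Finset.mem_Icc.1 hbm1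
        · rw [← hd]; ring
      rw [hg1 _ i hi μ hw]
      have : r + qq * μ = m := by rw [← hd]; ring
      rw [this]
      field_simp
      ring
    · intro ρ hρ hne
      apply sum_lift_of_not_dvd (qq_pow_pos L) qq_pos (hper1 ρ)
      intro hd
      apply hne
      have : (qq : ℤ) = 101 := rfl
      rw [this] at hd
      rw [Finset.mem_Icc] at hρ
      omega

end Pool.Agent.Lib.MP_4be4c6_an
end
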