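import Mathlib.NumberTheory.ZetaValues
import Mathlib.Topology.Instances.AddCircle.DenseSubgroup
import Pool.Agent.Lib.MP_4be4c6_an.Periods

section

/-!
# MP_4be4c6_an : the Fejér-type kernel
-/

namespace Pool.Agent.Lib.MP_4be4c6_an

open Finset Real

lemma hasSum_B2 {x : ℝ} (hx : x ∈ Set.Icc (0 : ℝ) 1) :
    HasSum (fun n : ℤ => ((1 / (n : ℝ) ^ 2 : ℝ) : ℂ) * ee (n * x))
      ((2 * π ^ 2 * (x ^ 2 - x + 1 / 6) : ℝ) : ℂ) := by
  have h := hasSum_one_div_pow_mul_fourier_mul_bernoulliFun (k := 2) le_rfl hx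
  have h1 : (fun n : ℤ => ((1 / (n : ℝ) ^ 2 : ℝ) : ℂ) * ee (n * x)) =
      fun n : ℤ => 1 / (n : ℂ) ^ 2 * fourier n (x : UnitAddCircle) := by
    funext n
    rw [fourier_coe_apply]
    unfold ee
    push_cast
    congr 2
    ring
  have h2 : ((2 * π ^ 2 * (x ^ 2 - x + 1 / 6) : ℝ) : ℂ) =
      -(2 * π * Complex.I) ^ 2 / Nat.factorial 2 * bernoulliFun 2 x := by
    rw [bernoulliFun_two]
    have : (Nat.factorial 2 : ℂ) = 2 := by norm_num [Nat.factorial]
    rw [this]
    push_cast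
    rw [mul_pow, mul_pow, Complex.I_sq]
    ring
  rw [h1, h2]
  exact h

/-- the kernel -/
noncomputable def kap (M : ℕ) (s : ℤ) : ℝ :=
  (if s = 0 then 1 / (M : ℝ) else 0) +
    M / (2 * π ^ 2) * (1 / (s : ℝ) ^ 2) * (1 - cos (2 * π * (s / M)))

lemma kap_nonneg (M : ℕ) (s : ℤ) : 0 ≤ kap M s := by
  unfold kap
  have h1 := cos_le_one (2 * π * (s / M))
  have h2 : (0 : ℝ) ≤ if s = 0 then 1 / (M : ℝ) else 0 := by split_ifs <;> positivity
  have h3 : 0 ≤ 1 - cos (2 * π * (s / M)) := by linarith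
  positivity

lemma kap_neg (M : ℕ) (s : ℤ) : kap M (-s) = kap M s := by
  unfold kap
  have h1 : cos (2 * π * (((-s : ℤ) : ℝ) / M)) = cos (2 * π * (s / M)) := by
    rw [← cos_neg]
    congr 1
    push_cast
    ring
  rw [h1]
  simp

lemma kap_mul_ee (M : ℕ) (s : ℤ) (θ : ℝ) : (kap M s : ℂ) * ee (s * θ) =
    (if s = 0 then ((1 / (M : ℝ) : ℝ) : ℂ) else 0) + (M / (2 * π ^ 2) : ℝ) *
    (((1 / (s : ℝ) ^ 2 : ℝ) : ℂ) * ee (s * θ) -
      (1 / 2) * (((1 / (s : ℝ) ^ 2 : ℝ) : ℂ) * ee (s * (θ + 1 / M))) -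
      (1 / 2) * (((1 / (s : ℝ) ^ 2 : ℝ) : ℂ) * ee (s * (θ - 1 / M)))) := by
  unfold kap
  have h1 : ((cos (2 * π * (s / M)) : ℝ) : ℂ) = (ee (s / M) + ee (-(s / M))) / 2 := by
    rw [ee_add_ee_neg]
    push_cast
    ring
  have h2 : ee (s * (θ + 1 / M)) = ee (s * θ) * ee (s / M) := by
    rw [← ee_add]; congr 1; ring
  have h3 : ee (s * (θ - 1 / M)) = ee (s * θ) * ee (-(s / M)) := by
    rw [← ee_add]; congr 1; ring
  rw [h2, h3, Complex.ofReal_add, Complex.ofReal_mul, Complex.ofReal_mul, Complex.ofReal_sub, h1]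
  by_cases hs : s = 0
  · subst hs
    simp [ee_zero]
  · rw [if_neg hs, if_neg hs]
    push_cast
    ring

lemma hasSum_kap_of {M : ℕ} {θ a b c : ℝ} (ha : a ∈ Set.Icc (0 : ℝ) 1) (hb : b ∈ Set.Icc (0 : ℝ) 1)
    (hc : c ∈ Set.Icc (0 : ℝ) 1) (hθa : ∃ n : ℤ, θ = a + n) (hθb : ∃ n : ℤ, θ + 1 / M = b + n)
    (hθc : ∃ n : ℤ, θ - 1 / M = c + n) :
    HasSum (fun s : ℤ => (kap M s : ℂ) * ee (s * θ))
      ((1 / (M : ℝ) + M * ((a ^ 2 - a + 1 / 6) - (b ^ 2 - b + 1 / 6) / 2 -
        (c ^ 2 - c + 1 / 6) / 2) : ℝ) : ℂ) := by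
  have hred : ∀ {x y : ℝ}, (∃ n : ℤ, x = y + n) → ∀ s : ℤ, ee (s * x) = ee (s * y) := by
    rintro x y ⟨n, rfl⟩ s
    rw [mul_add, ee_add]
    have : ee ((s : ℝ) * (n : ℝ)) = 1 := by
      rw [show ((s : ℝ) * (n : ℝ)) = ((s * n : ℤ) : ℝ) by push_cast; ring, ee_int]
    rw [this, mul_one]
  have h1 := hasSum_B2 ha
  have h2 := (hasSum_B2 hb).mul_left (1 / 2 : ℂ)
  have h3 := (hasSum_B2 hc).mul_left (1 / 2 : ℂ)
  have h4 := ((h1.sub h2).sub h3).mul_left ((M / (2 * π ^ 2) : ℝ) : ℂ)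
  have h5 : HasSum (fun s : ℤ => if s = 0 then ((1 / (M : ℝ) : ℝ) : ℂ) else 0)
      ((1 / (M : ℝ) : ℝ) : ℂ) := hasSum_ite_eq 0 _
  have h6 := h5.add h4
  have e1 : (fun s : ℤ => (kap M s : ℂ) * ee (s * θ)) = fun s : ℤ =>
      (if s = 0 then ((1 / (M : ℝ) : ℝ) : ℂ) else 0) + ((M / (2 * π ^ 2) : ℝ) : ℂ) *
    (((1 / (s : ℝ) ^ 2 : ℝ) : ℂ) * ee (s * a) -
      (1 / 2) * (((1 / (s : ℝ) ^ 2 : ℝ) : ℂ) * ee (s * b)) -
      (1 / 2) * (((1 / (s : ℝ) ^ 2 : ℝ) : ℂ) * ee (s * c))) := by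
    funext s
    rw [kap_mul_ee, hred hθa, hred hθb, hred hθc]
  rw [e1]
  convert h6 using 1
  push_cast
  have hpi : (π : ℂ) ≠ 0 := by exact_mod_cast pi_ne_zero
  field_simp

lemma hasSum_kap_zero {M : ℕ} (hM : 2 ≤ M) :
    HasSum (fun s : ℤ => (kap M s : ℂ)) 1 := by
  have hM' : (2 : ℝ) ≤ M := by exact_mod_cast hM
  have hM0 : (M : ℝ) ≠ 0 := by positivity
  have hinv : 1 / (M : ℝ) ≤ 1 / 2 := one_div_le_one_div_of_le (by norm_num) hM'
  have hinv0 : 0 ≤ 1 / (M : ℝ) := by positivity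
  have h := hasSum_kap_of (M := M) (θ := 0) (a := 0) (b := 1 / M) (c := 1 - 1 / M)
    ⟨le_rfl, zero_le_one⟩ ⟨hinv0, by linarith⟩ ⟨by linarith, by linarith⟩
    ⟨0, by simp⟩ ⟨0, by simp⟩ ⟨-1, by push_cast; ring⟩
  have e1 : (fun s : ℤ => (kap M s : ℂ) * ee (s * 0)) = fun s : ℤ => (kap M s : ℂ) := by
    funext s
    rw [mul_zero, ee_zero, mul_one]
  rw [e1] at h
  have hval : (1 / (M : ℝ) + M * (((0 : ℝ) ^ 2 - 0 + 1 / 6) -
      ((1 / (M : ℝ)) ^ 2 - (1 / (M : ℝ)) + 1 / 6) / 2 -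
        ((1 - 1 / (M : ℝ)) ^ 2 - (1 - 1 / (M : ℝ)) + 1 / 6) / 2)) = 1 := by
    field_simp
    ring
  rw [hval, Complex.ofReal_one] at h
  exact h

lemma summable_kap {M : ℕ} (hM : 2 ≤ M) : Summable (kap M) := by
  have := (hasSum_kap_zero hM).summable
  exact_mod_cast this

lemma tsum_kap {M : ℕ} (hM : 2 ≤ M) : ∑' s, kap M s = 1 := by
  have := (hasSum_kap_zero hM).tsum_eq
  exact_mod_cast this

lemma hasSum_kap {M : ℕ} (hM : 2 ≤ M) : HasSum (kap M) 1 := by
  have := (summable_kap hM).hasSum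
  rw [tsum_kap hM] at this
  exact this

lemma hasSum_kap_vanish {M : ℕ} (hM : 2 ≤ M) {θ : ℝ} (h1 : 1 / (M : ℝ) ≤ θ)
    (h2 : θ ≤ 1 - 1 / M) : HasSum (fun s : ℤ => (kap M s : ℂ) * ee (s * θ)) 0 := by
  have hM' : (2 : ℝ) ≤ M := by exact_mod_cast hM
  have hM0 : (M : ℝ) ≠ 0 := by positivity
  have hinv0 : 0 ≤ 1 / (M : ℝ) := by positivity
  have h := hasSum_kap_of (M := M) (θ := θ) (a := θ) (b := θ + 1 / M) (c := θ - 1 / M)
    ⟨by linarith, by linarith⟩ ⟨by linarith, by linarith⟩ ⟨by linarith, by linarith⟩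
    ⟨0, by simp⟩ ⟨0, by simp⟩ ⟨0, by simp⟩
  have hval : (1 / (M : ℝ) + M * ((θ ^ 2 - θ + 1 / 6) -
      ((θ + 1 / (M : ℝ)) ^ 2 - (θ + 1 / (M : ℝ)) + 1 / 6) / 2 -
        ((θ - 1 / (M : ℝ)) ^ 2 - (θ - 1 / (M : ℝ)) + 1 / 6) / 2)) = 0 := by
    field_simp
    ring
  rw [hval, Complex.ofReal_zero] at h
  exact h

lemma exists_hasSum_kap_small {M : ℕ} (hM : 2 ≤ M) {θ : ℝ} (h1 : 0 ≤ θ)
    (h2 : θ ≤ 1 / M) : HasSum (fun s : ℤ => (kap M s : ℂ) * ee (s * θ)) ((1 - M * θ : ℝ) : ℂ) := by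
  have hM' : (2 : ℝ) ≤ M := by exact_mod_cast hM
  have hM0 : (M : ℝ) ≠ 0 := by positivity
  have hinv0 : 0 ≤ 1 / (M : ℝ) := by positivity
  have hinv : 1 / (M : ℝ) ≤ 1 / 2 := one_div_le_one_div_of_le (by norm_num) hM'
  have h := hasSum_kap_of (M := M) (θ := θ) (a := θ) (b := θ + 1 / M) (c := θ - 1 / M + 1)
    ⟨by linarith, by linarith⟩ ⟨by linarith, by linarith⟩ ⟨by linarith, by linarith⟩
    ⟨0, by simp⟩ ⟨0, by simp⟩ ⟨-1, by push_cast; ring⟩
  convert h using 2
  field_simp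
  ring

/-- the Fourier series of the kernel is real and nonnegative -/
lemma kap_hat_nonneg {M : ℕ} (hM : 2 ≤ M) (θ : ℝ) :
    ∃ r : ℝ, 0 ≤ r ∧ HasSum (fun s : ℤ => (kap M s : ℂ) * ee (s * θ)) (r : ℂ) := by
  have hM' : (2 : ℝ) ≤ M := by exact_mod_cast hM
  have hM0 : (0 : ℝ) < M := by positivity
  -- reduction to `[0, 1/2]`
  have key : ∀ θ : ℝ, 0 ≤ θ → θ ≤ 1 / 2 →
      ∃ r : ℝ, 0 ≤ r ∧ HasSum (fun s : ℤ => (kap M s : ℂ) * ee (s * θ)) (r : ℂ) := by
    intro θ h0 h1
    rcases le_total θ (1 / M) with h | h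
    · refine ⟨1 - M * θ, ?_, exists_hasSum_kap_small hM h0 h⟩
      rw [le_div_iff₀ hM0] at h
      linarith
    · refine ⟨0, le_rfl, ?_⟩
      have hinv : 1 / (M : ℝ) ≤ 1 / 2 := one_div_le_one_div_of_le (by norm_num) hM'
      have := hasSum_kap_vanish hM h (by linarith)
      simpa using this
  have key2 : ∀ θ : ℝ, |θ| ≤ 1 / 2 →
      ∃ r : ℝ, 0 ≤ r ∧ HasSum (fun s : ℤ => (kap M s : ℂ) * ee (s * θ)) (r : ℂ) := by
    intro θ h
    rcases le_total 0 θ with h0 | h0
    · exact key θ h0 ((le_abs_self θ).trans h)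
    · obtain ⟨r, hr, hs⟩ := key (-θ) (by linarith) ((neg_le_abs θ).trans h)
      refine ⟨r, hr, ?_⟩
      have := (Equiv.neg ℤ).hasSum_iff.2 hs
      convert this using 2
      simp only [Function.comp, Equiv.neg_apply]
      rw [kap_neg]
      congr 2
      push_cast
      ring
  obtain ⟨r, hr, hs⟩ := key2 (θ - round θ) (abs_sub_round θ)
  refine ⟨r, hr, ?_⟩
  convert hs using 2 with s
  congr 1
  have : (s : ℝ) * (θ - round θ) = s * θ + ((-(s * round θ) : ℤ) : ℝ) := by push_cast; ring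
  rw [this, ee_add, ee_int, mul_one]

/-! ### Convolution against periodic sequences -/

lemma fourier_inversion {N : ℕ} (hN : 0 < N) {v : ℤ → ℂ} (hv : Per N v) (n : ℤ) :
    v n = (1 / (N : ℂ)) * ∑ m ∈ range N, (∑ r ∈ range N, v r * ee (m * r / N)) *
      ee (-(m * n / N)) := by
  have hN' : (N : ℂ) ≠ 0 := by exact_mod_cast hN.ne'
  have h1 : ∀ m ∈ range N, (∑ r ∈ range N, v r * ee (m * r / N)) * ee (-(m * n / N)) =
      ∑ r ∈ range N, v r * ee (((r - n : ℤ) : ℝ) * m / N) := by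
    intro m _
    rw [sum_mul]
    refine sum_congr rfl fun r _ => ?_
    rw [mul_assoc, ← ee_add]
    congr 2
    push_cast
    ring
  rw [sum_congr rfl h1, sum_comm]
  have h2 : ∀ r ∈ range N, ∑ m ∈ range N, v r * ee (((r - n : ℤ) : ℝ) * m / N) =
      v r * if (N : ℤ) ∣ ((r : ℤ) - n) then (N : ℂ) else 0 := by
    intro r _
    rw [← mul_sum, ← geom_ee ((r : ℤ) - n) hN]
  rw [sum_congr rfl h2]
  obtain ⟨r₀, hr₀⟩ : ∃ r₀ : ℕ, (r₀ : ℤ) = n % N := by
    refine ⟨(n % N).toNat, ?_⟩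
    exact Int.toNat_of_nonneg (Int.emod_nonneg n (by omega))
  have hlt : r₀ < N := by
    have := Int.emod_lt_of_pos n (b := N) (by omega)
    omega
  rw [Finset.sum_eq_single_of_mem r₀ (Finset.mem_range.2 hlt)]
  · have hd : (N : ℤ) ∣ ((r₀ : ℤ) - n) := by
      rw [hr₀]
      exact ⟨-(n / N), by have := Int.emod_add_mul_ediv n N; linarith⟩
    rw [if_pos hd]
    have hvr : v r₀ = v n := by
      have := hv.add_mul (n % N) (n / N)
      rw [Int.emod_add_mul_ediv] at this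
      rw [hr₀, ← this]
    rw [hvr]
    field_simp
  · intro r hr hne
    rw [if_neg, mul_zero]
    intro hd
    apply hne
    rw [Finset.mem_range] at hr
    have hd2 : (N : ℤ) ∣ ((r : ℤ) - r₀) := by
      have h3 : (N : ℤ) ∣ ((r₀ : ℤ) - n) := by
        rw [hr₀]
        exact ⟨-(n / N), by have := Int.emod_add_mul_ediv n N; linarith⟩
      have := dvd_sub hd h3
      simpa using this
    obtain ⟨t, ht⟩ := hd2
    have ht0 : t = 0 := by
      by_contra hne0
      rcases lt_or_gt_of_ne hne0 with h4 | h4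
      · have : (N : ℤ) * t ≤ -N := by nlinarith
        omega
      · have : (N : ℤ) ≤ N * t := by nlinarith
        omega
    rw [ht0, mul_zero] at ht
    omega

/-- convolution of the kernel against a periodic sequence with a spectral gap -/
lemma kap_conv {M N : ℕ} (hM : 2 ≤ M) (hN : 0 < N) {v : ℤ → ℂ} (hv : Per N v) {a : ℂ}
    (h0 : ∑ r ∈ range N, v r = N * a)
    (hgap : ∀ m : ℤ, m ≠ 0 → |m| * M < N → ∑ r ∈ range N, v r * ee (m * r / N) = 0) (n : ℤ) :
    HasSum (fun s : ℤ => (kap M s : ℂ) * v (n - s)) a := by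
  have hN' : (N : ℂ) ≠ 0 := by exact_mod_cast hN.ne'
  have hNr : (0 : ℝ) < N := by exact_mod_cast hN
  have hMr : (0 : ℝ) < M := by
    have : 0 < M := by omega
    exact_mod_cast this
  have h1 : ∀ s : ℤ, (kap M s : ℂ) * v (n - s) = ∑ m ∈ range N, (1 / (N : ℂ)) *
      ((∑ r ∈ range N, v r * ee (m * r / N)) * ee (-(m * n / N))) *
        ((kap M s : ℂ) * ee (s * (m / N))) := by
    intro s
    rw [fourier_inversion hN hv (n - s), mul_sum, mul_sum]
    refine sum_congr rfl fun m _ => ?_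
    have : ee (-((m : ℝ) * ((n - s : ℤ) : ℝ) / N)) = ee (-(m * n / N)) * ee (s * (m / N)) := by
      rw [← ee_add]
      congr 1
      push_cast
      ring
    rw [this]
    ring
  have h2 : HasSum (fun s : ℤ => (kap M s : ℂ) * v (n - s)) (∑ m ∈ range N, if m = 0 then a else 0) := by
    have h3 : (fun s : ℤ => (kap M s : ℂ) * v (n - s)) = fun s => ∑ m ∈ range N, (1 / (N : ℂ)) *
      ((∑ r ∈ range N, v r * ee (m * r / N)) * ee (-(m * n / N))) *
        ((kap M s : ℂ) * ee (s * (m / N))) := funext h1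
    rw [h3]
    apply hasSum_sum
    intro m hm
    rw [Finset.mem_range] at hm
    by_cases hm0 : m = 0
    · subst hm0
      rw [if_pos rfl]
      have h4 := (hasSum_kap_zero hM).mul_left a
      rw [mul_one] at h4
      have e4 : (fun s : ℤ => (1 / (N : ℂ)) *
          ((∑ r ∈ range N, v r * ee (((0 : ℕ) : ℝ) * r / N)) * ee (-(((0 : ℕ) : ℝ) * n / N))) *
          ((kap M s : ℂ) * ee (s * (((0 : ℕ) : ℝ) / N)))) = fun s : ℤ => a * (kap M s : ℂ) := by
        funext s
        simp only [Nat.cast_zero, zero_mul, zero_div, ee_zero, mul_one, neg_zero, mul_zero]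
        rw [h0]
        field_simp
      rw [e4]
      exact h4
    · rw [if_neg hm0]
      by_cases hlow : m * M < N
      · have h5 := hgap m (by exact_mod_cast hm0) (by
          rw [abs_of_nonneg (by positivity)]
          exact_mod_cast hlow)
        have h6 : ∑ r ∈ range N, v r * ee ((m : ℝ) * r / N) = 0 := by
          simpa using h5
        rw [h6]
        simp only [zero_mul, mul_zero]
        exact hasSum_zero
      · by_cases hhigh : (N - m) * M < N
        · have h5 := hgap ((m : ℤ) - N) (by omega) (by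
            have : |((m : ℤ) - N)| = ((N - m : ℕ) : ℤ) := by
              rw [abs_of_neg (by omega)]
              omega
            rw [this]
            exact_mod_cast hhigh)
          have h6 : ∑ r ∈ range N, v r * ee ((m : ℝ) * r / N) = 0 := by
            rw [← h5]
            refine sum_congr rfl fun r _ => ?_
            congr 1
            have : (((m : ℤ) - N : ℤ) : ℝ) * r / N = m * r / N + ((-r : ℤ) : ℝ) := by
              push_cast
              field_simp
              ring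
            rw [this, ee_add, ee_int, mul_one]
          rw [h6]
          simp only [zero_mul, mul_zero]
          exact hasSum_zero
        · have h7 : HasSum (fun s : ℤ => (kap M s : ℂ) * ee (s * ((m : ℝ) / N))) 0 := by
            apply hasSum_kap_vanish hM
            · rw [div_le_div_iff₀ hMr hNr]
              push Not at hlow
              have : (N : ℝ) ≤ m * M := by exact_mod_cast hlow
              linarith
            · push Not at hhigh
              have h8 : (N : ℝ) ≤ ((N - m : ℕ) : ℝ) * M := by exact_mod_cast hhigh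
              rw [Nat.cast_sub hm.le] at h8
              rw [div_le_iff₀ hNr, sub_mul, one_mul, one_div, le_sub_iff_add_le]
              have h9 : (M : ℝ)⁻¹ * N ≤ N - m := by
                rw [inv_mul_le_iff₀ hMr]
                linarith
              linarith
          have := h7.mul_left ((1 / (N : ℂ)) *
            ((∑ r ∈ range N, v r * ee (m * r / N)) * ee (-(m * n / N))))
          rw [mul_zero] at this
          exact this
  have h10 : (∑ m ∈ range N, if m = 0 then a else 0) = a := by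
    rw [Finset.sum_ite_eq' (range N) 0 (fun _ => a), if_pos (Finset.mem_range.2 hN)]
  rw [h10] at h2
  exact h2

end Pool.Agent.Lib.MP_4be4c6_an
end

section

/-!
# MP_4be4c6_an : the inductive step
-/

namespace Pool.Agent.Lib.MP_4be4c6_an

open Finset Module

lemma hasDerivAt_ee (t : ℝ) : HasDerivAt ee (2 * Real.pi * Complex.I * ee t) t := by
  unfold ee
  have h1 : HasDerivAt (fun t : ℝ => ((2 * Real.pi * t : ℝ) : ℂ) * Complex.I)
      (((2 * Real.pi : ℝ) : ℂ) * Complex.I) t := by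
    have h0 : HasDerivAt (fun t : ℝ => 2 * Real.pi * t) (2 * Real.pi) t := by
      simpa using (hasDerivAt_id t).const_mul (2 * Real.pi)
    exact (h0.ofReal_comp).mul_const Complex.I
  have h2 := h1.cexp
  convert h2 using 1
  push_cast
  ring

lemma contDiff_ee : ContDiff ℝ 1 ee := by
  unfold ee
  apply ContDiff.cexp
  apply ContDiff.mul _ contDiff_const
  exact Complex.ofRealCLM.contDiff.comp (contDiff_const.mul contDiff_id)

/-- the constraint map -/
noncomputable def GG {ι P : Type} [Fintype ι] (l : P → ℝ) (c : P → ι → ℂ) (d : P → ℂ)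
    (φ : ι → ℝ) : P → ℂ :=
  fun p => ∑ n, ee (-(l p * φ n)) * c p n - d p

lemma contDiff_GG {ι P : Type} [Fintype ι] [Fintype P] (l : P → ℝ) (c : P → ι → ℂ) (d : P → ℂ) :
    ContDiff ℝ 1 (GG l c d) := by
  rw [contDiff_pi]
  intro p
  unfold GG
  apply ContDiff.sub _ contDiff_const
  apply ContDiff.sum
  intro n _
  apply ContDiff.mul _ contDiff_const
  apply contDiff_ee.comp
  apply ContDiff.neg
  apply ContDiff.mul contDiff_const
  exact contDiff_apply ℝ ℝ n

lemma fderiv_GG_apply {ι P : Type} [Fintype ι] [Fintype P] (l : P → ℝ) (c : P → ι → ℂ)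
    (d : P → ℂ) (φ ψ : ι → ℝ) (p : P) :
    fderiv ℝ (GG l c d) φ ψ p =
      (-(2 * Real.pi * Complex.I * l p)) * ∑ n, ee (-(l p * φ n)) * ψ n * c p n := by
  have h0 : HasFDerivAt (GG l c d) (fderiv ℝ (GG l c d) φ) φ :=
    ((contDiff_GG l c d).differentiable one_ne_zero φ).hasFDerivAt
  have hline : HasDerivAt (fun t : ℝ => φ + t • ψ) ψ 0 := by
    have := ((hasDerivAt_id (0 : ℝ)).smul_const ψ).const_add φ
    simpa using this
  have h1 : HasDerivAt (fun t : ℝ => GG l c d (φ + t • ψ)) (fderiv ℝ (GG l c d) φ ψ) 0 := by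
    have h0' : HasFDerivAt (GG l c d) (fderiv ℝ (GG l c d) φ) (φ + (0 : ℝ) • ψ) := by
      simpa using h0
    exact h0'.comp_hasDerivAt 0 hline
  have h2 := (hasDerivAt_pi.1 h1) p
  have h3 : HasDerivAt (fun t : ℝ => GG l c d (φ + t • ψ) p)
      (∑ n, (2 * Real.pi * Complex.I * ee (-(l p * φ n)) * (-(l p * ψ n) : ℝ)) * c p n) 0 := by
    unfold GG
    have h4 : ∀ n ∈ Finset.univ, HasDerivAt (fun t : ℝ => ee (-(l p * (φ + t • ψ) n)) * c p n)
        ((2 * Real.pi * Complex.I * ee (-(l p * φ n)) * (-(l p * ψ n) : ℝ)) * c p n) 0 := by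
      intro n _
      apply HasDerivAt.mul_const
      have h5 : HasDerivAt (fun t : ℝ => -(l p * (φ + t • ψ) n)) (-(l p * ψ n)) 0 := by
        have := ((hasDerivAt_pi.1 hline) n).const_mul (l p)
        exact this.neg
      have h6 := HasDerivAt.scomp (0 : ℝ) (hasDerivAt_ee _) h5
      have h7 : ee (-(l p * (φ + (0 : ℝ) • ψ) n)) = ee (-(l p * φ n)) := by simp
      rw [h7] at h6
      have h9 : (-(l p * ψ n)) • (2 * Real.pi * Complex.I * ee (-(l p * φ n))) =
          2 * Real.pi * Complex.I * ee (-(l p * φ n)) * ((-(l p * ψ n) : ℝ) : ℂ) := by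
        rw [Complex.real_smul, mul_comm]
      rw [h9] at h6
      exact h6
    have := (HasDerivAt.fun_sum h4).sub_const (d p)
    exact this
  have h8 := h2.unique h3
  rw [h8, mul_sum]
  refine sum_congr rfl fun n _ => ?_
  push_cast
  ring

theorem abstract_step2 {ι P : Type} [Fintype ι] [DecidableEq ι] [Fintype P] (l : P → ℝ)
    (hl : ∀ p, l p ≠ 0) (c : P → ι → ℂ) (d : P → ℂ) (φ : ι → ℝ)
    (h0 : ∀ p, ∑ n, ee (-(l p * φ n)) * c p n = d p)
    (hT : ∀ w : P → ℂ, ∃ ψ : ι → ℝ, ∀ p, ∑ n, ee (-(l p * φ n)) * ψ n * c p n = w p)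
    (hcard : 24 * Fintype.card P + 20 ≤ Fintype.card ι) {η : ℝ} (hη : 0 < η) :
    ∃ l₀ : ℝ, ∀ x : ℝ, l₀ ≤ x → ∀ ε : ℂ, ‖ε‖ ≤ 1 / 8 → ∃ φ' : ι → ℝ, (∀ n, |φ' n - φ n| ≤ η) ∧
      (∀ p, ∑ n, ee (-(l p * φ' n)) * c p n = d p) ∧
      ∑ n, ee (-(x * φ' n)) = -((Fintype.card ι : ℂ) * ε) ∧
      (∀ w : P → ℂ, ∀ z : ℂ, ∃ ψ : ι → ℝ, (∀ p, ∑ n, ee (-(l p * φ' n)) * ψ n * c p n = w p) ∧
        ∑ n, ee (-(x * φ' n)) * ψ n = z) := by
  have hne : ∀ p, (-(2 * Real.pi * Complex.I * l p) : ℂ) ≠ 0 := by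
    intro p
    have h1 : (Real.pi : ℂ) ≠ 0 := by exact_mod_cast Real.pi_ne_zero
    have h2 : (l p : ℂ) ≠ 0 := by exact_mod_cast hl p
    have h3 := Complex.I_ne_zero
    simp [h1, h2, h3]
  have hG0 : GG l c d φ = 0 := by
    funext p
    unfold GG
    rw [h0 p, sub_self]
    rfl
  have hGT : Function.Surjective (fderiv ℝ (GG l c d) φ) := by
    intro w
    obtain ⟨ψ, hψ⟩ := hT (fun p => (-(2 * Real.pi * Complex.I * l p) : ℂ)⁻¹ * w p)
    refine ⟨ψ, ?_⟩
    funext p
    rw [fderiv_GG_apply, hψ p, mul_inv_cancel_left₀ (hne p)]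
  have hfr : finrank ℝ (P → ℂ) = Fintype.card P * 2 := by
    rw [Module.finrank_pi_fintype]
    simp [Complex.finrank_real_complex]
  obtain ⟨l₀, hl₀⟩ := abstract_step (GG l c d) (contDiff_GG l c d) φ hG0 hGT
    (by rw [hfr]; omega) hη
  refine ⟨l₀, fun x hx ε hε => ?_⟩
  obtain ⟨φ', h1, h2, h3, h4⟩ := hl₀ x hx ε hε
  refine ⟨φ', ?_, ?_, h3, ?_⟩
  · intro n
    have := norm_le_pi_norm (φ' - φ) n
    rw [Pi.sub_apply, Real.norm_eq_abs] at this
    exact this.trans h1
  · intro p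
    have := congrFun h2 p
    unfold GG at this
    exact sub_eq_zero.1 this
  · intro w z
    obtain ⟨ψ, hψ⟩ := h4 ((fun p => (-(2 * Real.pi * Complex.I * l p) : ℂ) * w p), z)
    have h5 := congrArg Prod.fst hψ
    have h6 := congrArg Prod.snd hψ
    simp only at h5 h6
    refine ⟨ψ, ?_, h6⟩
    intro p
    have h7 := congrFun h5 p
    rw [fderiv_GG_apply] at h7
    exact mul_left_cancel₀ (hne p) h7

/-! ### index set of the constraints -/

/-- the window, as a finset -/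
noncomputable def wnd (j : ℕ) : Finset ℤ := Icc (-(((qq : ℤ) ^ j) / 2)) (((qq : ℤ) ^ j) / 2)

lemma mem_wnd {j : ℕ} {m : ℤ} : m ∈ wnd j ↔ 2 * |m| < (qq : ℤ) ^ j := by
  unfold wnd
  rw [Finset.mem_Icc]
  obtain ⟨t, ht⟩ := odd_qq_pow j
  rw [← abs_le]
  omega

lemma card_wnd (j : ℕ) : (wnd j).card = qq ^ j := by
  unfold wnd
  rw [Int.card_Icc]
  obtain ⟨t, ht⟩ := odd_qq_pow j
  have hpos : (0 : ℤ) < (qq : ℤ) ^ j := pow_pos (by norm_num [qq]) j
  zify
  rw [Int.toNat_of_nonneg (by omega)]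
  omega

lemma sum_card_wnd (k : ℕ) : 100 * ∑ i ∈ range k, (wnd (k - i)).card + qq = qq ^ (k + 1) := by
  have h : ∀ k, 100 * ∑ i ∈ range k, qq ^ (k - i) + qq = qq ^ (k + 1) := by
    intro k
    induction k with
    | zero => simp
    | succ k ih =>
      rw [sum_range_succ']
      have : ∀ i ∈ range k, qq ^ (k + 1 - (i + 1)) = qq ^ (k - i) := by
        intro i _
        congr 1
        omega
      rw [sum_congr rfl this, pow_succ _ (k + 1), Nat.sub_zero]
      have h5 : qq = 101 := rfl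
      have h6 : qq ^ (k + 1) * qq = 101 * qq ^ (k + 1) := by
        rw [mul_comm]; rfl
      rw [h6]
      omega
  rw [← h k]
  congr 2
  exact sum_congr rfl fun i _ => card_wnd _

/-- extension of a function on `Fin N` to a periodic one -/
noncomputable def ext {N : ℕ} (hN : 0 < N) (f : Fin N → ℝ) (n : ℤ) : ℝ :=
  f ⟨(n % N).toNat, by
    have h1 := Int.emod_nonneg n (b := N) (by omega)
    have h2 := Int.emod_lt_of_pos n (b := N) (by omega)
    omega⟩

lemma ext_per {N : ℕ} (hN : 0 < N) (f : Fin N → ℝ) : Per N (ext hN f) := by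
  intro n
  unfold ext
  congr 2
  simp

lemma ext_coe {N : ℕ} (hN : 0 < N) (f : Fin N → ℝ) (n : Fin N) : ext hN f ((n : ℕ) : ℤ) = f n := by
  unfold ext
  congr 1
  apply Fin.ext
  simp only
  have : (((n : ℕ) : ℤ) % (N : ℤ)) = ((n : ℕ) : ℤ) := by
    rw [Int.emod_eq_of_lt] <;> omega
  rw [this]
  simp

lemma ext_restrict {N : ℕ} (hN : 0 < N) {φ : ℤ → ℝ} (hφ : Per N φ) (n : ℤ) :
    ext hN (fun i : Fin N => φ ((i : ℕ) : ℤ)) n = φ n := by
  unfold ext
  simp only
  have h1 := Int.emod_nonneg n (b := N) (by omega)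
  rw [Int.toNat_of_nonneg h1]
  have h2 := hφ.add_mul (n % N) (n / N)
  rw [← h2, Int.emod_add_mul_ediv]

/-- the index set of the constraints -/
noncomputable def PP (k : ℕ) : Finset (Σ _ : ℕ, ℤ) := (range k).sigma (fun i => wnd (k - i))

lemma mem_PP {k : ℕ} {p : Σ _ : ℕ, ℤ} : p ∈ PP k ↔ p.1 < k ∧ 2 * |p.2| < (qq : ℤ) ^ (k - p.1) := by
  unfold PP
  rw [Finset.mem_sigma, Finset.mem_range, mem_wnd]

lemma card_PP (k : ℕ) : 100 * (PP k).card + qq = qq ^ (k + 1) := by
  unfold PP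
  rw [Finset.card_sigma]
  exact sum_card_wnd k

theorem step {k : ℕ} {φ : ℤ → ℝ} {l : ℕ → ℝ} {ε : ℕ → ℂ} (hφ : Per (qq ^ k) φ)
    (hC : Cst k k l ε φ) (hS : Srj k k l φ) (hl : ∀ i < k, l i ≠ 0) {η : ℝ} (hη : 0 < η) :
    ∃ l₀ : ℝ, ∀ x : ℝ, l₀ ≤ x → ∀ e : ℂ, ‖e‖ ≤ 1 / 8 → ∃ φ' : ℤ → ℝ, Per (qq ^ (k + 1)) φ' ∧
      (∀ n, |φ' n - φ n| ≤ η) ∧
      Cst (k + 1) (k + 1) (Function.update l k x) (Function.update ε k e) φ' ∧
      Srj (k + 1) (k + 1) (Function.update l k x) φ' := by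
  have hC1 := hC.lift le_rfl hφ
  have hS1 := hS.lift le_rfl hφ
  obtain ⟨N, hNdef⟩ : ∃ N, N = qq ^ (k + 1) := ⟨_, rfl⟩
  have hN : 0 < N := by rw [hNdef]; exact qq_pow_pos _
  have hsub : ∀ i, i < k → k + 1 - 1 - i = k - i := fun i _ => by omega
  have hcardP := card_PP k
  have hφN : Per N φ := by
    rw [hNdef, pow_succ]
    exact hφ.mul qq
  have hqq : qq = 101 := rfl
  have key := abstract_step2 (ι := Fin N) (P := PP k) (fun p => l p.1.1)
    (fun p => hl _ (mem_PP.1 p.2).1) (fun p n => ee (p.1.2 * ((n : ℕ) : ℝ) / (N : ℕ)))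
    (fun p => if p.1.2 = 0 then -((N : ℂ) * ε p.1.1) else 0) (fun n => φ ((n : ℕ) : ℤ))
    (by
      intro p
      obtain ⟨h1, h2⟩ := mem_PP.1 p.2
      have h3 := hC1 p.1.1 h1 p.1.2 (by rw [hsub _ h1]; exact h2)
      rw [← hNdef, Finset.sum_range] at h3
      exact h3)
    (by
      intro w
      obtain ⟨ψ, -, hψ⟩ := hS1 (fun i m => if h : (⟨i, m⟩ : Σ _ : ℕ, ℤ) ∈ PP k then w ⟨_, h⟩ else 0)
      refine ⟨fun n => ψ ((n : ℕ) : ℤ), ?_⟩
      intro p
      obtain ⟨h1, h2⟩ := mem_PP.1 p.2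
      have h3 := hψ p.1.1 h1 p.1.2 (by rw [hsub _ h1]; exact h2)
      rw [← hNdef, Finset.sum_range, dif_pos p.2] at h3
      exact h3)
    (by rw [Fintype.card_coe, Fintype.card_fin, hNdef]; omega) hη
  obtain ⟨l₀, hl₀⟩ := key
  refine ⟨l₀, fun x hx e he => ?_⟩
  obtain ⟨φ', h1, h2, h3, h4⟩ := hl₀ x hx e he
  refine ⟨ext hN φ', ?_, ?_, ?_, ?_⟩
  · rw [← hNdef]; exact ext_per hN φ'
  · intro n
    rw [← ext_restrict hN hφN n]
    unfold ext
    exact h1 _
  · intro i hi m hm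
    rw [← hNdef, Finset.sum_range]
    simp only [ext_coe]
    rcases Nat.lt_succ_iff_lt_or_eq.1 hi with hi' | hi'
    · rw [hsub i hi'] at hm
      have h5 := h2 ⟨⟨i, m⟩, mem_PP.2 ⟨hi', hm⟩⟩
      rw [Function.update_of_ne hi'.ne, Function.update_of_ne hi'.ne]
      exact h5
    · subst hi'
      have hm0 : m = 0 := by
        have : i + 1 - 1 - i = 0 := by omega
        rw [this, pow_zero] at hm
        have := abs_nonneg m
        have h6 : |m| = 0 := by omega
        exact abs_eq_zero.1 h6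
      subst hm0
      rw [Function.update_self, Function.update_self, if_pos rfl]
      rw [Fintype.card_fin] at h3
      rw [← h3]
      refine sum_congr rfl fun n _ => ?_
      simp [ee_zero]
  · intro w
    obtain ⟨ψ, hψ1, hψ2⟩ := h4 (fun p => w p.1.1 p.1.2) (w k 0)
    refine ⟨ext hN ψ, ?_, ?_⟩
    · rw [← hNdef]; exact ext_per hN ψ
    · intro i hi m hm
      rw [← hNdef, Finset.sum_range]
      simp only [ext_coe]
      rcases Nat.lt_succ_iff_lt_or_eq.1 hi with hi' | hi'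
      · rw [hsub i hi'] at hm
        have h5 := hψ1 ⟨⟨i, m⟩, mem_PP.2 ⟨hi', hm⟩⟩
        rw [Function.update_of_ne hi'.ne]
        exact h5
      · subst hi'
        have hm0 : m = 0 := by
          have : i + 1 - 1 - i = 0 := by omega
          rw [this, pow_zero] at hm
          have := abs_nonneg m
          have h6 : |m| = 0 := by omega
          exact abs_eq_zero.1 h6
        subst hm0
        rw [Function.update_self, ← hψ2]
        refine sum_congr rfl fun n _ => ?_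
        simp [ee_zero]

end Pool.Agent.Lib.MP_4be4c6_an
end

section

/-!
# MP_4be4c6_an : the sequence of phases
-/

namespace Pool.Agent.Lib.MP_4be4c6_an

open Finset Filter Topology

/-- the value `(1 + e(-xβ))/2` -/
noncomputable def EE (β x : ℝ) : ℂ := (1 + ee (-(x * β))) / 2

lemma exists_good {β : ℝ} (hβ : Irrational β) (d : ℕ) (hd : 0 < d) (l₀ : ℝ) :
    ∃ x : ℕ, l₀ ≤ x ∧ 0 < x ∧ d ∣ x ∧ ‖EE β x‖ ≤ 1 / 8 := by
  obtain ⟨D, hDdef⟩ : ∃ D, D = d * (⌈l₀⌉₊ + 1) := ⟨_, rfl⟩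
  have hD : 0 < D := by rw [hDdef]; positivity
  have hDl : l₀ ≤ D := by
    have h1 : l₀ ≤ (⌈l₀⌉₊ : ℝ) := Nat.le_ceil _
    have h2 : ⌈l₀⌉₊ ≤ D := by
      rw [hDdef]
      calc ⌈l₀⌉₊ ≤ 1 * (⌈l₀⌉₊ + 1) := by omega
        _ ≤ d * (⌈l₀⌉₊ + 1) := Nat.mul_le_mul_right _ hd
    have h3 : (⌈l₀⌉₊ : ℝ) ≤ D := by exact_mod_cast h2
    linarith
  have hirr : Irrational ((D : ℝ) * β) := hβ.natCast_mul hD.ne'
  have hdense : Dense (AddSubgroup.closure {(D : ℝ) * β, (1 : ℝ)} : Set ℝ) := by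
    rw [dense_addSubgroupClosure_pair_iff, div_one]
    exact hirr
  have hopen : IsOpen {θ : ℝ | ‖1 + ee θ‖ < 1 / 4} := by
    apply isOpen_lt _ continuous_const
    exact (continuous_const.add ee_continuous).norm
  have hne : ({θ : ℝ | ‖1 + ee θ‖ < 1 / 4}).Nonempty := by
    refine ⟨1 / 2, ?_⟩
    rw [Set.mem_ofPred_eq, ee_half]
    norm_num
  obtain ⟨θ, hθ1, hθ2⟩ := hdense.exists_mem_open hopen hne
  rw [SetLike.mem_coe, AddSubgroup.mem_closure_pair] at hθ1
  obtain ⟨y, z, hyz⟩ := hθ1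
  rw [Set.mem_ofPred_eq] at hθ2
  have hee : ee θ = ee (y * (D * β)) := by
    rw [← hyz, ee_add]
    have h1 : ee (z • (1 : ℝ)) = 1 := by
      rw [zsmul_eq_mul, mul_one, ee_int]
    rw [h1, mul_one, zsmul_eq_mul]
  rw [hee] at hθ2
  have hy0 : y ≠ 0 := by
    rintro rfl
    rw [Int.cast_zero, zero_mul, ee_zero] at hθ2
    norm_num at hθ2
  have hyabs : 0 < y.natAbs := Int.natAbs_pos.2 hy0
  have hnorm : ‖1 + ee (-(((D * y.natAbs : ℕ) : ℝ) * β))‖ < 1 / 4 := by
    rcases le_total 0 y with h | h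
    · have h1 : ((y.natAbs : ℕ) : ℝ) = (y : ℝ) := by
        rw [Nat.cast_natAbs, abs_of_nonneg h]
      have h2 : ee (-(((D * y.natAbs : ℕ) : ℝ) * β)) = (starRingEnd ℂ) (ee (y * (D * β))) := by
        rw [conj_ee, Nat.cast_mul, h1]
        congr 1
        ring
      rw [h2]
      have h3 : (1 : ℂ) + (starRingEnd ℂ) (ee (y * (D * β))) =
          (starRingEnd ℂ) (1 + ee (y * (D * β))) := by
        rw [map_add, map_one]
      rw [h3, Complex.norm_conj]
      exact hθ2
    · have h1 : ((y.natAbs : ℕ) : ℝ) = -(y : ℝ) := by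
        rw [Nat.cast_natAbs, abs_of_nonpos h]
        push_cast
        rfl
      have h2 : ee (-(((D * y.natAbs : ℕ) : ℝ) * β)) = ee (y * (D * β)) := by
        rw [Nat.cast_mul, h1]
        congr 1
        ring
      rw [h2]
      exact hθ2
  refine ⟨D * y.natAbs, ?_, Nat.mul_pos hD hyabs, ?_, ?_⟩
  · have : (D : ℝ) ≤ ((D * y.natAbs : ℕ) : ℝ) := by
      exact_mod_cast Nat.le_mul_of_pos_right D hyabs
    linarith
  · rw [hDdef]
    exact Dvd.dvd.mul_right (dvd_mul_right _ _) _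
  · unfold EE
    rw [norm_div]
    have : ‖(2 : ℂ)‖ = 2 := by norm_num
    rw [this]
    linarith

/-- the state at stage `k` -/
def StP (β : ℝ) (k : ℕ) (s : (ℤ → ℝ) × (ℕ → ℕ)) : Prop :=
  Per (qq ^ k) s.1 ∧ Cst k k (fun i => (s.2 i : ℝ)) (fun i => EE β (s.2 i)) s.1 ∧
    Srj k k (fun i => (s.2 i : ℝ)) s.1 ∧ ∀ i < k, 0 < s.2 i ∧ (i + 1) ∣ s.2 i

lemma state_zero (β : ℝ) : StP β 0 (fun _ => 1 / 4, fun _ => 1) := by
  refine ⟨fun n => rfl, ?_, ?_, ?_⟩
  · intro i hi
    omega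
  · intro w
    exact ⟨fun _ => 0, fun _ => rfl, fun i hi => by omega⟩
  · intro i hi
    omega

lemma state_step {β : ℝ} (hβ : Irrational β) {η : ℝ} (hη : 0 < η) (k : ℕ)
    (s : (ℤ → ℝ) × (ℕ → ℕ)) (h : StP β k s) :
    ∃ s', StP β (k + 1) s' ∧ (∀ n, |s'.1 n - s.1 n| ≤ η) ∧ ∀ i < k, s'.2 i = s.2 i := by
  obtain ⟨h1, h2, h3, h4⟩ := h
  obtain ⟨l₀, hl₀⟩ := step h1 h2 h3 (fun i hi => by
    have := (h4 i hi).1
    exact_mod_cast this.ne') hη
  obtain ⟨x, hx1, hx2, hx3, hx4⟩ := exists_good hβ (k + 1) (Nat.succ_pos k) l₀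
  obtain ⟨φ', g1, g2, g3, g4⟩ := hl₀ x hx1 _ hx4
  have e1 : (fun i => ((Function.update s.2 k x i : ℕ) : ℝ)) =
      Function.update (fun i => (s.2 i : ℝ)) k x := by
    funext i
    by_cases hi : i = k
    · subst hi; simp
    · simp [hi]
  have e2 : (fun i => EE β ((Function.update s.2 k x i : ℕ) : ℝ)) =
      Function.update (fun i => EE β (s.2 i)) k (EE β x) := by
    funext i
    by_cases hi : i = k
    · subst hi; simp
    · simp [hi]
  refine ⟨(φ', Function.update s.2 k x), ⟨g1, ?_, ?_, ?_⟩, g2, ?_⟩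
  · simp only
    rw [e1, e2]
    exact g3
  · simp only
    rw [e1]
    exact g4
  · intro i hi
    simp only
    by_cases hik : i = k
    · subst hik
      rw [Function.update_self]
      exact ⟨hx2, hx3⟩
    · rw [Function.update_of_ne hik]
      exact h4 i (by omega)
  · intro i hi
    simp only
    rw [Function.update_of_ne hi.ne]

theorem exists_seq_states {β : ℝ} (hβ : Irrational β) :
    ∃ s : ℕ → (ℤ → ℝ) × (ℕ → ℕ), s 0 = (fun _ => 1 / 4, fun _ => 1) ∧ (∀ k, StP β k (s k)) ∧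
      (∀ k n, |(s (k + 1)).1 n - (s k).1 n| ≤ (1 / 100 : ℝ) / 2 / 2 ^ k) ∧
      (∀ k, ∀ i < k, (s (k + 1)).2 i = (s k).2 i) := by
  have hst : ∀ k : ℕ, ∀ s : (ℤ → ℝ) × (ℕ → ℕ), ∃ s', StP β k s → StP β (k + 1) s' ∧
      (∀ n, |s'.1 n - s.1 n| ≤ (1 / 100 : ℝ) / 2 / 2 ^ k) ∧ ∀ i < k, s'.2 i = s.2 i := by
    intro k s
    by_cases h : StP β k s
    · obtain ⟨s', hs'⟩ := state_step hβ (η := (1 / 100 : ℝ) / 2 / 2 ^ k) (by positivity) k s h
      exact ⟨s', fun _ => hs'⟩
    · exact ⟨s, fun h' => absurd h' h⟩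
  choose f hf using hst
  let s : ℕ → (ℤ → ℝ) × (ℕ → ℕ) := fun k => Nat.rec (fun _ => 1 / 4, fun _ => 1) (fun k s => f k s) k
  have hs : ∀ k, s (k + 1) = f k (s k) := fun k => rfl
  have hall : ∀ k, StP β k (s k) := by
    intro k
    induction k with
    | zero => exact state_zero β
    | succ k ih =>
      rw [hs]
      exact (hf k (s k) ih).1
  refine ⟨s, rfl, hall, ?_, ?_⟩
  · intro k n
    rw [hs]
    exact (hf k (s k) (hall k)).2.1 n
  · intro k i hi
    rw [hs]
    exact (hf k (s k) (hall k)).2.2 i hi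

/-- **The main lemma.** -/
theorem main_lemma {β : ℝ} (hβ : Irrational β) :
    ∃ (φ : ℤ → ℝ) (l : ℕ → ℕ) (M : ℕ → ℕ), (∀ n, |φ n - 1 / 4| ≤ 1 / 100) ∧
      (∀ k, 0 < l k ∧ (k + 1) ∣ l k) ∧ (∀ k, 2 ≤ M k) ∧
      ∀ k n, HasSum (fun s : ℤ => (kap (M k) s : ℂ) * ee (-(l k * φ (n - s)))) (-EE β (l k)) := by
  obtain ⟨s, hs0, hs1, hs2, hs3⟩ := exists_seq_states hβ
  have hcau : ∀ n : ℤ, ∃ a, Tendsto (fun k => (s k).1 n) atTop (𝓝 a) := by
    intro n
    apply cauchySeq_tendsto_of_complete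
    apply cauchySeq_of_le_geometric_two (C := 1 / 100)
    intro k
    rw [dist_comm, Real.dist_eq]
    exact hs2 k n
  choose φ hφ using hcau
  let l : ℕ → ℕ := fun i => (s (i + 1)).2 i
  have hl : ∀ i j, i < j → (s j).2 i = l i := by
    intro i j hij
    induction j with
    | zero => omega
    | succ j ih =>
      rcases Nat.lt_succ_iff_lt_or_eq.1 hij with h | h
      · rw [hs3 j i h, ih h]
      · subst h; rfl
  refine ⟨φ, l, fun i => 2 * qq ^ (i + 1), ?_, ?_, ?_, ?_⟩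
  · intro n
    have h1 := dist_le_of_le_geometric_two_of_tendsto₀ (C := 1 / 100) (f := fun k => (s k).1 n)
      (fun k => by
        rw [dist_comm, Real.dist_eq]
        exact hs2 k n) (hφ n)
    rw [hs0, dist_comm, Real.dist_eq] at h1
    exact h1
  · intro k
    exact (hs1 (k + 1)).2.2.2 k (Nat.lt_succ_self k)
  · intro k
    have := qq_pow_pos (k + 1)
    simp only
    omega
  · intro i n
    simp only
    have hM : 2 ≤ 2 * qq ^ (i + 1) := by
      have := qq_pow_pos (i + 1)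
      omega
    -- for the approximants
    have happ : ∀ L, i < L → HasSum (fun t : ℤ => (kap (2 * qq ^ (i + 1)) t : ℂ) *
        ee (-(l i * (s L).1 (n - t)))) (-EE β (l i)) := by
      intro L hiL
      obtain ⟨h1, h2, -, -⟩ := hs1 L
      have hv : Per (qq ^ L) (fun n => ee (-(l i * (s L).1 n))) :=
        h1.comp (fun t => ee (-(l i * t)))
      apply kap_conv hM (qq_pow_pos L) hv (a := -EE β (l i))
      · have h3 := h2 i hiL 0 (by
          rw [abs_zero, mul_zero]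
          exact pow_pos (by norm_num [qq]) _)
        rw [if_pos rfl] at h3
        simp only [hl i L hiL] at h3
        rw [mul_neg, ← h3]
        refine sum_congr rfl fun r _ => ?_
        simp [ee_zero]
      · intro m hm0 hm
        have hm' : 2 * |m| < (qq : ℤ) ^ (L - 1 - i) := by
          have e3 : qq ^ L = qq ^ (L - 1 - i) * qq ^ (i + 1) := by
            rw [← pow_add]
            congr 1
            omega
          rw [e3] at hm
          push_cast at hm
          have hpos : (0 : ℤ) < (qq : ℤ) ^ (i + 1) := pow_pos (by norm_num [qq]) _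
          have : (2 * |m|) * (qq : ℤ) ^ (i + 1) < (qq : ℤ) ^ (L - 1 - i) * (qq : ℤ) ^ (i + 1) := by
            linarith
          exact lt_of_mul_lt_mul_right this hpos.le
        have h3 := h2 i hiL m hm'
        rw [if_neg hm0] at h3
        simp only [hl i L hiL] at h3
        exact h3
    -- the limit
    have hbd : Summable fun t : ℤ => kap (2 * qq ^ (i + 1)) t := summable_kap hM
    have hnorm : ∀ (ψ : ℤ → ℝ) (t : ℤ), ‖(kap (2 * qq ^ (i + 1)) t : ℂ) * ee (-(l i * ψ (n - t)))‖ ≤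
        kap (2 * qq ^ (i + 1)) t := by
      intro ψ t
      rw [norm_mul, norm_ee, mul_one, Complex.norm_real, Real.norm_eq_abs,
        abs_of_nonneg (kap_nonneg _ _)]
    have hsum : Summable fun t : ℤ => (kap (2 * qq ^ (i + 1)) t : ℂ) * ee (-(l i * φ (n - t))) :=
      Summable.of_norm_bounded hbd (hnorm φ)
    have hlim : Tendsto (fun L => ∑' t : ℤ, (kap (2 * qq ^ (i + 1)) t : ℂ) *
        ee (-(l i * (s L).1 (n - t)))) atTop
        (𝓝 (∑' t : ℤ, (kap (2 * qq ^ (i + 1)) t : ℂ) * ee (-(l i * φ (n - t))))) := by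
      apply tendsto_tsum_of_dominated_convergence hbd
      · intro t
        apply Tendsto.const_mul
        apply (ee_continuous.tendsto _).comp
        apply Tendsto.neg
        exact (hφ (n - t)).const_mul _
      · exact Eventually.of_forall fun L t => hnorm _ t
    have hconst : ∀ᶠ L in atTop, (∑' t : ℤ, (kap (2 * qq ^ (i + 1)) t : ℂ) *
        ee (-(l i * (s L).1 (n - t)))) = -EE β (l i) := by
      filter_upwards [eventually_gt_atTop i] with L hL
      exact (happ L hL).tsum_eq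
    have hval := tendsto_nhds_unique hlim ((tendsto_congr' hconst).2 tendsto_const_nhds)
    rw [← hval]
    exact hsum.hasSum

end Pool.Agent.Lib.MP_4be4c6_an
end

section

/-!
# MP_4be4c6_an : the tiling identities
-/

namespace Pool.Agent.Lib.MP_4be4c6_an

open Finset

/-! ### nonnegative sums -/

lemma hasSum_prod_of_nonneg {α β : Type*} {f : α × β → ℝ} (hf : ∀ p, 0 ≤ f p) {g : α → ℝ} {c : ℝ}
    (h : ∀ a, HasSum (fun b => f (a, b)) (g a)) (hg : HasSum g c) : HasSum f c := by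
  have hs : Summable f := by
    rw [summable_prod_of_nonneg (fun p => hf p)]
    refine ⟨fun a => (h a).summable, ?_⟩
    have : (fun a => ∑' b, f (a, b)) = g := funext fun a => (h a).tsum_eq
    rw [this]
    exact hg.summable
  have h2 := hs.hasSum.prod_fiberwise h
  rw [hg.unique h2]
  exact hs.hasSum

lemma hasSum_swap {α β : Type*} {f : α → β → ℝ} (hf : ∀ a b, 0 ≤ f a b) {g : α → ℝ} {c : ℝ}
    (h : ∀ a, HasSum (fun b => f a b) (g a)) (hg : HasSum g c) :
    HasSum (fun b => ∑' a, f a b) c := by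
  have h1 : HasSum (fun p : α × β => f p.1 p.2) c :=
    hasSum_prod_of_nonneg (fun p => hf p.1 p.2) h hg
  have h2 : HasSum (fun p : β × α => f p.2 p.1) c := by
    have := (Equiv.prodComm β α).hasSum_iff.2 h1
    exact this
  exact h2.prod_fiberwise fun b => (h2.summable.prod_factor b).hasSum

/-! ### the tent -/

/-- the tent function -/
noncomputable def wt (x : ℝ) : ℝ := max 0 (1 - |x|)

lemma wt_nonneg (x : ℝ) : 0 ≤ wt x := le_max_left _ _

lemma wt_le_one (x : ℝ) : wt x ≤ 1 := max_le zero_le_one (by linarith [abs_nonneg x])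

lemma wt_continuous : Continuous wt := by
  unfold wt
  fun_prop

lemma wt_eq_zero {x : ℝ} (h : 1 ≤ |x|) : wt x = 0 := by
  unfold wt
  exact max_eq_left (by linarith)

lemma wt_of_le {x : ℝ} (h : |x| ≤ 1) : wt x = 1 - |x| := by
  unfold wt
  exact max_eq_right (by linarith)

lemma hasSum_wt (z : ℝ) : HasSum (fun n : ℤ => wt (z - n)) 1 := by
  have h1 : ∀ n ∉ ({⌊z⌋, ⌊z⌋ + 1} : Finset ℤ), wt (z - n) = 0 := by
    intro n hn
    rw [Finset.mem_insert, Finset.mem_singleton, not_or] at hn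
    apply wt_eq_zero
    rw [le_abs]
    have h2 := Int.floor_le z
    have h3 := Int.lt_floor_add_one z
    rcases lt_or_gt_of_ne hn.1 with h | h
    · left
      have : (n : ℝ) ≤ ⌊z⌋ - 1 := by exact_mod_cast Int.le_sub_one_of_lt h
      linarith
    · right
      have h4 : ⌊z⌋ + 2 ≤ n := by omega
      have : ((⌊z⌋ : ℝ) + 2) ≤ n := by exact_mod_cast h4
      linarith
  have h2 : HasSum (fun n : ℤ => wt (z - n)) (∑ n ∈ ({⌊z⌋, ⌊z⌋ + 1} : Finset ℤ), wt (z - n)) :=
    hasSum_sum_of_ne_finset_zero h1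
  have h3 : ∑ n ∈ ({⌊z⌋, ⌊z⌋ + 1} : Finset ℤ), wt (z - n) = 1 := by
    rw [Finset.sum_pair (by omega)]
    have h2 := Int.floor_le z
    have h3 := Int.lt_floor_add_one z
    have e1 : |z - ⌊z⌋| = z - ⌊z⌋ := abs_of_nonneg (by linarith)
    have e2 : |z - ((⌊z⌋ + 1 : ℤ) : ℝ)| = ⌊z⌋ + 1 - z := by
      push_cast
      rw [abs_of_neg (by linarith)]
      ring
    rw [wt_of_le (by rw [e1]; linarith), wt_of_le (by rw [e2]; linarith), e1, e2]
    ring
  rw [h3] at h2
  exact h2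

/-! ### the two families of functions -/

/-- `a(x) = (1 + cos 2π l x) w(x)` -/
noncomputable def ak (l : ℕ) (x : ℝ) : ℝ := (1 + Real.cos (2 * Real.pi * (l * x))) * wt x

/-- `b(y) = ∑ κ(s) w(y - s)` -/
noncomputable def bk (M : ℕ) (y : ℝ) : ℝ := ∑' s : ℤ, kap M s * wt (y - s)

lemma ak_nonneg (l : ℕ) (x : ℝ) : 0 ≤ ak l x := by
  unfold ak
  have := Real.neg_one_le_cos (2 * Real.pi * (l * x))
  exact mul_nonneg (by linarith) (wt_nonneg x)

lemma ak_le (l : ℕ) (x : ℝ) : ak l x ≤ 2 := by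
  unfold ak
  have h1 := Real.cos_le_one (2 * Real.pi * (l * x))
  have h3 := Real.neg_one_le_cos (2 * Real.pi * (l * x))
  have h2 := wt_le_one x
  have h4 := wt_nonneg x
  nlinarith

lemma ak_continuous (l : ℕ) : Continuous (ak l) := by
  unfold ak
  have := wt_continuous
  fun_prop

lemma summable_bk {M : ℕ} (hM : 2 ≤ M) (y : ℝ) : Summable fun s : ℤ => kap M s * wt (y - s) := by
  apply Summable.of_nonneg_of_le (fun s => mul_nonneg (kap_nonneg _ _) (wt_nonneg _)) _
    (summable_kap hM)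
  intro s
  exact mul_le_of_le_one_right (kap_nonneg _ _) (wt_le_one _)

lemma bk_nonneg (M : ℕ) (y : ℝ) : 0 ≤ bk M y :=
  tsum_nonneg fun s => mul_nonneg (kap_nonneg _ _) (wt_nonneg _)

lemma bk_le {M : ℕ} (hM : 2 ≤ M) (y : ℝ) : bk M y ≤ 1 := by
  unfold bk
  rw [← tsum_kap hM]
  apply Summable.tsum_le_tsum _ (summable_bk hM y) (summable_kap hM)
  intro s
  exact mul_le_of_le_one_right (kap_nonneg _ _) (wt_le_one _)

lemma bk_continuous {M : ℕ} (hM : 2 ≤ M) : Continuous (bk M) := by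
  unfold bk
  apply continuous_tsum (u := kap M)
  · intro _
    exact continuous_const.mul (wt_continuous.comp (continuous_id.sub continuous_const))
  · exact summable_kap hM
  · intro s y
    rw [Real.norm_eq_abs, abs_of_nonneg (mul_nonneg (kap_nonneg _ _) (wt_nonneg _))]
    exact mul_le_of_le_one_right (kap_nonneg _ _) (wt_le_one _)

/-- sums against `b` -/
lemma hasSum_mul_bk {M : ℕ} (hM : 2 ≤ M) {g : ℤ → ℝ} (hg : ∀ n, 0 ≤ g n) {C : ℝ}
    (h : ∀ p : ℤ, HasSum (fun s : ℤ => kap M s * g (p - s)) C) (z : ℝ) :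
    HasSum (fun n : ℤ => g n * bk M (z - n)) C := by
  have h1 : HasSum (fun q : ℤ × ℤ => kap M q.2 * g (q.1 - q.2) * wt (z - q.1)) C := by
    refine hasSum_prod_of_nonneg (g := fun p : ℤ => C * wt (z - p)) ?_ ?_ ?_
    · intro q
      exact mul_nonneg (mul_nonneg (kap_nonneg _ _) (hg _)) (wt_nonneg _)
    · intro p
      exact (h p).mul_right _
    · have := (hasSum_wt z).mul_left C
      rw [mul_one] at this
      exact this
  let e : ℤ × ℤ ≃ ℤ × ℤ :=
    { toFun := fun q => (q.1 + q.2, q.2)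
      invFun := fun q => (q.1 - q.2, q.2)
      left_inv := fun q => by simp
      right_inv := fun q => by simp }
  have h2 := e.hasSum_iff.2 h1
  have h3 : HasSum (fun q : ℤ × ℤ => g q.1 * (kap M q.2 * wt (z - q.1 - q.2))) C := by
    have e1 : (fun q : ℤ × ℤ => g q.1 * (kap M q.2 * wt (z - q.1 - q.2))) =
        (fun q : ℤ × ℤ => kap M q.2 * g (q.1 - q.2) * wt (z - q.1)) ∘ e := by
      funext q
      simp only [Function.comp, e, Equiv.coe_fn_mk]
      have e2 : z - (q.1 : ℝ) - q.2 = z - ((q.1 + q.2 : ℤ) : ℝ) := by push_cast; ring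
      rw [add_sub_cancel_right, e2]
      ring
    rw [e1]
    exact h2
  apply h3.prod_fiberwise
  intro n
  exact ((summable_bk hM (z - n)).hasSum).mul_left _

lemma hasSum_bk_shift {M : ℕ} (hM : 2 ≤ M) (z : ℝ) : HasSum (fun n : ℤ => bk M (z - n)) 1 := by
  have h := hasSum_mul_bk hM (g := fun _ => 1) (fun _ => zero_le_one) (C := 1) (fun p => by
    simpa using hasSum_kap hM) z
  simpa using h

lemma cos_eq_re (t : ℝ) : Real.cos (2 * Real.pi * t) = (ee t).re := (ee_re t).symm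

lemma hasSum_ak_shift (l : ℕ) (z : ℝ) :
    HasSum (fun n : ℤ => ak l (z - n)) (1 + Real.cos (2 * Real.pi * (l * z))) := by
  have h := (hasSum_wt z).mul_left (1 + Real.cos (2 * Real.pi * (l * z)))
  rw [mul_one] at h
  have e1 : (fun n : ℤ => ak l (z - n)) =
      fun n : ℤ => (1 + Real.cos (2 * Real.pi * (l * z))) * wt (z - n) := by
    funext n
    unfold ak
    rw [cos_eq_re, cos_eq_re]
    have : (l : ℝ) * (z - n) = l * z + ((-(l * n) : ℤ) : ℝ) := by push_cast; ring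
    rw [this, ee_add, ee_int, mul_one]
  rw [e1]
  exact h

lemma rows_ab {φ : ℤ → ℝ} {l M : ℕ} (hM : 2 ≤ M) {E : ℂ}
    (h : ∀ n, HasSum (fun s : ℤ => (kap M s : ℂ) * ee (-(l * φ (n - s)))) (-E)) (x z : ℝ) :
    HasSum (fun p : ℤ × ℤ => ak l (x - p.2 - φ p.1) * bk M (z - p.1))
      (1 - (ee (l * x) * E).re) := by
  have hg : ∀ n : ℤ, 1 + Real.cos (2 * Real.pi * (l * (x - φ n))) =
      1 + (ee (l * x) * ee (-(l * φ n))).re := by
    intro n
    rw [cos_eq_re, ← ee_add]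
    congr 3
    ring
  refine hasSum_prod_of_nonneg
    (g := fun n => (1 + Real.cos (2 * Real.pi * (l * (x - φ n)))) * bk M (z - n)) ?_ ?_ ?_
  · intro p
    exact mul_nonneg (ak_nonneg _ _) (bk_nonneg _ _)
  · intro n
    have := (hasSum_ak_shift l (x - φ n)).mul_right (bk M (z - n))
    have e1 : (fun m : ℤ => ak l (x - (m : ℝ) - φ n) * bk M (z - n)) =
        fun m : ℤ => ak l (x - φ n - m) * bk M (z - n) := by
      funext m
      congr 2
      ring
    simp only
    rw [e1]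
    exact this
  · refine hasSum_mul_bk hM (g := fun n => 1 + Real.cos (2 * Real.pi * (l * (x - φ n)))) ?_ ?_ z
    · intro n
      have := Real.neg_one_le_cos (2 * Real.pi * (l * (x - φ n)))
      linarith
    · intro p
      have h1 := (h p).mul_left (ee (l * x))
      have h2 := Complex.reCLM.hasSum h1
      have h3 := (hasSum_kap hM).add h2
      have e1 : (fun s : ℤ => kap M s * (1 + Real.cos (2 * Real.pi * (l * (x - φ (p - s)))))) =
          fun s : ℤ => kap M s + Complex.reCLM (ee (l * x) * ((kap M s : ℂ) *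
            ee (-(l * φ (p - s))))) := by
        funext s
        rw [hg, Complex.reCLM_apply]
        have : ee (l * x) * ((kap M s : ℂ) * ee (-(l * φ (p - s)))) =
            ((kap M s : ℝ) : ℂ) * (ee (l * x) * ee (-(l * φ (p - s)))) := by ring
        rw [this, Complex.re_ofReal_mul]
        ring
      rw [e1]
      have e2 : 1 - (ee (l * x) * E).re = 1 + Complex.reCLM (ee (l * x) * -E) := by
        rw [Complex.reCLM_apply, mul_neg, Complex.neg_re]
        ring
      rw [e2]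
      exact h3

lemma rows_ba (φ : ℤ → ℝ) {l M : ℕ} (hM : 2 ≤ M) (x z : ℝ) :
    HasSum (fun p : ℤ × ℤ => bk M (x - p.2 - φ p.1) * ak l (z - p.1))
      (1 + Real.cos (2 * Real.pi * (l * z))) := by
  refine hasSum_prod_of_nonneg (g := fun n : ℤ => ak l (z - n)) ?_ ?_ ?_
  · intro p
    exact mul_nonneg (bk_nonneg _ _) (ak_nonneg _ _)
  · intro n
    have := (hasSum_bk_shift hM (x - φ n)).mul_right (ak l (z - n))
    rw [one_mul] at this
    have e1 : (fun m : ℤ => bk M (x - (m : ℝ) - φ n) * ak l (z - n)) =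
        fun m : ℤ => bk M (x - φ n - m) * ak l (z - n) := by
      funext m
      congr 2
      ring
    simp only
    rw [e1]
    exact this
  · exact hasSum_ak_shift l z

lemma rows_ww (φ : ℤ → ℝ) (x z : ℝ) :
    HasSum (fun p : ℤ × ℤ => wt (x - p.2 - φ p.1) * wt (z - p.1)) 1 := by
  refine hasSum_prod_of_nonneg (g := fun n : ℤ => wt (z - n)) ?_ ?_ ?_
  · intro p
    exact mul_nonneg (wt_nonneg _) (wt_nonneg _)
  · intro n
    have := (hasSum_wt (x - φ n)).mul_right (wt (z - n))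
    rw [one_mul] at this
    have e1 : (fun m : ℤ => wt (x - (m : ℝ) - φ n) * wt (z - n)) =
        fun m : ℤ => wt (x - φ n - m) * wt (z - n) := by
      funext m
      congr 2
      ring
    simp only
    rw [e1]
    exact this
  · exact hasSum_wt z

/-- the symmetric piece -/
noncomputable def TT (l M : ℕ) (x y : ℝ) : ℝ := ak l x * bk M y + bk M x * ak l y

lemma TT_symm (l M : ℕ) (x y : ℝ) : TT l M x y = TT l M y x := by
  unfold TT
  ring

lemma TT_nonneg (l M : ℕ) (x y : ℝ) : 0 ≤ TT l M x y :=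
  add_nonneg (mul_nonneg (ak_nonneg _ _) (bk_nonneg _ _))
    (mul_nonneg (bk_nonneg _ _) (ak_nonneg _ _))

lemma TT_le {l M : ℕ} (hM : 2 ≤ M) (x y : ℝ) : TT l M x y ≤ 4 := by
  unfold TT
  have h1 := ak_nonneg l x
  have h2 := ak_nonneg l y
  have h3 := ak_le l x
  have h4 := ak_le l y
  have h5 := bk_nonneg M x
  have h6 := bk_nonneg M y
  have h7 := bk_le hM x
  have h8 := bk_le hM y
  nlinarith

/-- real value of `j : Bool` -/
def bv (β : ℝ) (j : Bool) : ℝ := if j then β else 0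

/-- the translation set, indexed -/
noncomputable def pt (φ : ℤ → ℝ) (β : ℝ) (i : Bool × (Bool × (ℤ × ℤ))) : ℝ × ℝ :=
  if i.1 then (i.2.2.2 + φ i.2.2.1, i.2.2.1 + bv β i.2.1)
  else (i.2.2.1 + bv β i.2.1, i.2.2.2 + φ i.2.2.1)

/-- summing a symmetric function over the translation set -/
lemma hasSum_pt {T : ℝ → ℝ → ℝ} (hT : ∀ x y, 0 ≤ T x y) (hsymm : ∀ x y, T x y = T y x)
    {φ : ℤ → ℝ} {β : ℝ} {R : Bool → ℝ → ℝ → ℝ} {c : ℝ}
    (h : ∀ j x y, HasSum (fun p : ℤ × ℤ => T (x - p.2 - φ p.1) (y - bv β j - p.1)) (R j x y))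
    (hc : ∀ x y, R true x y + R false x y + (R true y x + R false y x) = c) (x y : ℝ) :
    HasSum (fun i => T (x - (pt φ β i).1) (y - (pt φ β i).2)) c := by
  have hrow : ∀ x y, HasSum (fun q : Bool × (ℤ × ℤ) =>
      T (x - q.2.2 - φ q.2.1) (y - bv β q.1 - q.2.1)) (R true x y + R false x y) := by
    intro x y
    refine hasSum_prod_of_nonneg (g := fun j => R j x y) (fun q => hT _ _) ?_ ?_
    · intro j
      exact h j x y
    · have := hasSum_fintype (fun j => R j x y)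
      rw [Fintype.sum_bool] at this
      exact this
  refine hasSum_prod_of_nonneg
    (g := fun cc : Bool => if cc then R true x y + R false x y else R true y x + R false y x)
    (fun q => hT _ _) ?_ ?_
  · intro cc
    cases cc
    · have h1 := hrow y x
      have e1 : (fun b : Bool × (ℤ × ℤ) => T (x - (pt φ β (false, b)).1) (y - (pt φ β (false, b)).2)) =
          fun q : Bool × (ℤ × ℤ) => T (y - q.2.2 - φ q.2.1) (x - bv β q.1 - q.2.1) := by
        funext q
        unfold pt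
        simp only [Bool.false_eq_true, if_false]
        rw [hsymm]
        congr 1 <;> ring
      simp only [Bool.false_eq_true, if_false]
      rw [e1]
      exact h1
    · have h1 := hrow x y
      have e1 : (fun b : Bool × (ℤ × ℤ) => T (x - (pt φ β (true, b)).1) (y - (pt φ β (true, b)).2)) =
          fun q : Bool × (ℤ × ℤ) => T (x - q.2.2 - φ q.2.1) (y - bv β q.1 - q.2.1) := by
        funext q
        unfold pt
        simp only [if_true]
        congr 1 <;> ring
      simp only [if_true]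
      rw [e1]
      exact h1
  · have := hasSum_fintype
      (fun cc : Bool => if cc then R true x y + R false x y else R true y x + R false y x)
    rw [Fintype.sum_bool] at this
    simp only [Bool.false_eq_true, if_false, if_true] at this
    rw [hc x y] at this
    exact this

lemma tile_ww (φ : ℤ → ℝ) (β : ℝ) (x y : ℝ) :
    HasSum (fun i => wt (x - (pt φ β i).1) * wt (y - (pt φ β i).2)) 4 := by
  refine hasSum_pt (T := fun x y => wt x * wt y) (R := fun _ _ _ => 1) ?_ ?_ ?_ ?_ x y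
  · intro x y
    exact mul_nonneg (wt_nonneg _) (wt_nonneg _)
  · intro x y
    exact mul_comm _ _
  · intro j x y
    exact rows_ww φ x (y - bv β j)
  · intro x y
    norm_num

lemma tile_TT {φ : ℤ → ℝ} {β : ℝ} {l M : ℕ} (hM : 2 ≤ M)
    (h : ∀ n, HasSum (fun s : ℤ => (kap M s : ℂ) * ee (-(l * φ (n - s)))) (-EE β l)) (x y : ℝ) :
    HasSum (fun i => TT l M (x - (pt φ β i).1) (y - (pt φ β i).2)) 8 := by
  refine hasSum_pt (T := TT l M) (R := fun j x y => (1 - (ee (l * x) * EE β l).re) +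
    (1 + Real.cos (2 * Real.pi * (l * (y - bv β j))))) (TT_nonneg l M) (TT_symm l M) ?_ ?_ x y
  · intro j x y
    exact (rows_ab hM h x (y - bv β j)).add (rows_ba φ hM x (y - bv β j))
  · intro x y
    have key : ∀ y : ℝ, Real.cos (2 * Real.pi * (l * (y - bv β true))) +
        Real.cos (2 * Real.pi * (l * (y - bv β false))) = 2 * (ee (l * y) * EE β l).re := by
      intro y
      rw [cos_eq_re, cos_eq_re]
      have e1 : (l : ℝ) * (y - bv β true) = l * y + -(l * β) := by simp [bv]; ring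
      have e2 : (l : ℝ) * (y - bv β false) = l * y := by simp [bv]
      rw [e1, e2, ee_add, ← Complex.add_re]
      have e3 : ee (l * y) * ee (-(l * β)) + ee (l * y) = ((2 : ℝ) : ℂ) * (ee (l * y) * EE β l) := by
        unfold EE
        push_cast
        ring
      rw [e3, Complex.re_ofReal_mul]
    have h1 := key x
    have h2 := key y
    linarith

/-- the function -/
noncomputable def FF (l M : ℕ → ℕ) (x y : ℝ) : ℝ :=
  wt x * wt y + ∑' k, (1 / 2 : ℝ) ^ k * TT (l k) (M k) x y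

lemma summable_FF {l M : ℕ → ℕ} (hM : ∀ k, 2 ≤ M k) (x y : ℝ) :
    Summable fun k => (1 / 2 : ℝ) ^ k * TT (l k) (M k) x y := by
  apply Summable.of_nonneg_of_le (fun k => mul_nonneg (by positivity) (TT_nonneg _ _ _ _))
    (fun k => mul_le_mul_of_nonneg_left (TT_le (hM k) x y) (by positivity))
  exact (summable_geometric_of_lt_one (by norm_num) (by norm_num)).mul_right 4

lemma FF_nonneg (l M : ℕ → ℕ) (x y : ℝ) : 0 ≤ FF l M x y := by
  unfold FF
  apply add_nonneg (mul_nonneg (wt_nonneg _) (wt_nonneg _))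
  exact tsum_nonneg fun k => mul_nonneg (by positivity) (TT_nonneg _ _ _ _)

lemma FF_symm (l M : ℕ → ℕ) (x y : ℝ) : FF l M x y = FF l M y x := by
  unfold FF
  rw [mul_comm (wt x)]
  congr 1
  exact tsum_congr fun k => by rw [TT_symm]

theorem tile_FF {φ : ℤ → ℝ} {β : ℝ} {l M : ℕ → ℕ} (hM : ∀ k, 2 ≤ M k)
    (h : ∀ k n, HasSum (fun s : ℤ => (kap (M k) s : ℂ) * ee (-(l k * φ (n - s)))) (-EE β (l k)))
    (x y : ℝ) :
    HasSum (fun i => FF l M (x - (pt φ β i).1) (y - (pt φ β i).2)) 20 := by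
  have h1 := tile_ww φ β x y
  have h2 : HasSum (fun i => ∑' k, (1 / 2 : ℝ) ^ k *
      TT (l k) (M k) (x - (pt φ β i).1) (y - (pt φ β i).2)) 16 := by
    refine hasSum_swap (f := fun k i => (1 / 2 : ℝ) ^ k *
      TT (l k) (M k) (x - (pt φ β i).1) (y - (pt φ β i).2)) (g := fun k => (1 / 2 : ℝ) ^ k * 8)
      ?_ ?_ ?_
    · intro k i
      exact mul_nonneg (by positivity) (TT_nonneg _ _ _ _)
    · intro k
      exact (tile_TT (hM k) (h k) x y).mul_left _
    · have := hasSum_geometric_two.mul_right (8 : ℝ)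
      norm_num at this
      norm_num
      exact this
  have h3 := h1.add h2
  norm_num at h3
  exact h3

end Pool.Agent.Lib.MP_4be4c6_an
end
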