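import Mathlib
import Pool.Agent.Lib.MP_4be4c6_an.Tile
import Pool.Agent.Lib.MP_4be4c6_an.Defs

section

/-!
# MP_4be4c6_an : a lattice tiling forces the Fourier transform to vanish on the dual lattice
-/

namespace Pool.Agent.Lib.MP_4be4c6_an

open MeasureTheory Module Submodule
open scoped Pointwise

section
variable {ι V : Type*} [Finite ι] [NormedAddCommGroup V] [NormedSpace ℝ V] [MeasurableSpace V]
  [BorelSpace V] (μ : Measure V) [μ.IsAddHaarMeasure] (b : Basis ι ℝ V)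

include b in
lemma integral_char_domain {χ : V → ℂ}
    (hadd : ∀ x y, χ (x + y) = χ x * χ y)
    (hL : ∀ l ∈ span ℤ (Set.range b), χ l = 1) {v : V} (hv : χ v ≠ 1) :
    ∫ x in ZSpan.fundamentalDomain b, χ x ∂μ = 0 := by
  have : FiniteDimensional ℝ V := b.finiteDimensional_of_finite
  have : VAddInvariantMeasure (span ℤ (Set.range b)) V μ :=
    inferInstanceAs <| VAddInvariantMeasure (span ℤ (Set.range b)).toAddSubgroup V μ
  have h := ZSpan.isAddFundamentalDomain b μ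
  have h' : IsAddFundamentalDomain (span ℤ (Set.range b)) (v +ᵥ ZSpan.fundamentalDomain b) μ :=
    h.vadd_of_comm v
  have h1 := h.setIntegral_eq h' (f := χ) (fun g x => by
    have : g +ᵥ x = (g : V) + x := rfl
    rw [this, hadd, hL _ g.2, one_mul])
  have h2 : ∫ x in (v +ᵥ ZSpan.fundamentalDomain b), χ x ∂μ =
      ∫ x in ZSpan.fundamentalDomain b, χ (v + x) ∂μ := by
    have := (measurePreserving_add_left μ v).setIntegral_image_emb
      (measurableEmbedding_addLeft v) χ (ZSpan.fundamentalDomain b)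
    exact this
  have h3 : ∫ x in ZSpan.fundamentalDomain b, χ (v + x) ∂μ =
      χ v * ∫ x in ZSpan.fundamentalDomain b, χ x ∂μ := by
    rw [← integral_const_mul]
    congr 1
    funext x
    exact hadd v x
  rw [h2, h3] at h1
  have h4 : (χ v - 1) * ∫ x in ZSpan.fundamentalDomain b, χ x ∂μ = 0 := by
    rw [sub_mul, one_mul, ← h1, sub_self]
  rcases mul_eq_zero.1 h4 with h5 | h5
  · exact absurd (sub_eq_zero.1 h5) hv
  · exact h5

include b in
theorem integral_char_eq_zero_of_tile {f χ : V → ℂ} (hf : Integrable f μ) (hχc : Continuous χ)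
    (hadd : ∀ x y, χ (x + y) = χ x * χ y) (hn : ∀ x, ‖χ x‖ = 1)
    (hL : ∀ l ∈ span ℤ (Set.range b), χ l = 1) {v : V} (hv : χ v ≠ 1) {c : ℂ}
    (htile : ∀ᵐ x ∂μ, HasSum (fun l : span ℤ (Set.range b) => f (x - l)) c) :
    ∫ x, f x * χ x ∂μ = 0 := by
  have : FiniteDimensional ℝ V := b.finiteDimensional_of_finite
  have : VAddInvariantMeasure (span ℤ (Set.range b)) V μ :=
    inferInstanceAs <| VAddInvariantMeasure (span ℤ (Set.range b)).toAddSubgroup V μ
  have h := ZSpan.isAddFundamentalDomain b μ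
  have hint : Integrable (fun x => f x * χ x) μ := by
    apply hf.mul_bdd (c := 1) hχc.aestronglyMeasurable
    exact Filter.Eventually.of_forall fun x => (hn x).le
  have hneg : ∀ l ∈ span ℤ (Set.range b), χ (-l) = 1 := fun l hl => hL _ (neg_mem hl)
  rw [h.integral_eq_tsum' _ hint]
  have e1 : ∀ g : span ℤ (Set.range b), ∀ x : V, f (-g +ᵥ x) * χ (-g +ᵥ x) =
      f (x - g) * χ x := by
    intro g x
    have h1 : -g +ᵥ x = -(g : V) + x := rfl
    rw [h1, hadd, hneg _ g.2, one_mul, neg_add_eq_sub]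
  simp only [e1]
  rw [← integral_tsum]
  · have e2 : ∫ x in ZSpan.fundamentalDomain b, ∑' g : span ℤ (Set.range b), f (x - g) * χ x ∂μ =
        ∫ x in ZSpan.fundamentalDomain b, c * χ x ∂μ := by
      apply integral_congr_ae
      filter_upwards [ae_restrict_of_ae htile] with x hx
      exact (hx.mul_right (χ x)).tsum_eq
    rw [e2, integral_const_mul, integral_char_domain μ b hadd hL hv, mul_zero]
  · intro g
    apply AEStronglyMeasurable.restrict
    apply AEStronglyMeasurable.mul _ hχc.aestronglyMeasurable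
    have := hf.1.comp_measurePreserving (measurePreserving_sub_right μ (g : V))
    exact this
  · have e3 := h.lintegral_eq_tsum' (fun x => ‖f x * χ x‖ₑ)
    have e4 : ∀ g : span ℤ (Set.range b), ∀ x : V, ‖f (x - g) * χ x‖ₑ =
        ‖f (-g +ᵥ x) * χ (-g +ᵥ x)‖ₑ := fun g x => by rw [e1]
    simp only [e4]
    rw [← e3]
    exact hint.2.ne

end

end Pool.Agent.Lib.MP_4be4c6_an
end

section

/-!
# MP_4be4c6_an : Fourier transforms of the pieces
-/

namespace Pool.Agent.Lib.MP_4be4c6_an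

open MeasureTheory Set

/-- one-dimensional Fourier integral of a real function -/
noncomputable def hat (u : ℝ → ℝ) (ξ : ℝ) : ℂ := ∫ x, (u x : ℂ) * ee (-(ξ * x))

/-- a complex number which is a nonnegative real -/
def NN (z : ℂ) : Prop := ∃ r : ℝ, 0 ≤ r ∧ z = r

lemma NN.add {z w : ℂ} (hz : NN z) (hw : NN w) : NN (z + w) := by
  obtain ⟨r, hr, rfl⟩ := hz
  obtain ⟨s, hs, rfl⟩ := hw
  exact ⟨r + s, by positivity, by push_cast; rfl⟩

lemma NN.mul {z w : ℂ} (hz : NN z) (hw : NN w) : NN (z * w) := by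
  obtain ⟨r, hr, rfl⟩ := hz
  obtain ⟨s, hs, rfl⟩ := hw
  exact ⟨r * s, by positivity, by push_cast; rfl⟩

lemma NN.re_nonneg {z : ℂ} (hz : NN z) : 0 ≤ z.re := by
  obtain ⟨r, hr, rfl⟩ := hz
  simpa using hr

lemma NN.mul_re {z w : ℂ} (hz : NN z) (hw : NN w) : (z * w).re = z.re * w.re := by
  obtain ⟨r, hr, rfl⟩ := hz
  obtain ⟨s, hs, rfl⟩ := hw
  simp

lemma NN.ofReal {r : ℝ} (hr : 0 ≤ r) : NN (r : ℂ) := ⟨r, hr, rfl⟩

lemma wt_support : Function.support wt ⊆ Ioc (-1 : ℝ) 1 := by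
  intro x hx
  rw [Function.mem_support] at hx
  by_contra hcon
  apply hx
  apply wt_eq_zero
  rw [mem_Ioc, not_and_or, not_lt, not_le] at hcon
  rw [le_abs]
  rcases hcon with h | h
  · right; linarith
  · left; linarith

lemma wt_hasCompactSupport : HasCompactSupport wt := by
  apply HasCompactSupport.intro (K := Icc (-1 : ℝ) 1) isCompact_Icc
  intro x hx
  by_contra hcon
  exact hx (Ioc_subset_Icc_self (wt_support hcon))

lemma wt_integrable : Integrable wt := wt_continuous.integrable_of_hasCompactSupport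
  wt_hasCompactSupport

lemma integrable_mul_ee {u : ℝ → ℝ} (hu : Integrable u) (ξ : ℝ) :
    Integrable fun x => (u x : ℂ) * ee (-(ξ * x)) := by
  apply (hu.ofReal (𝕜 := ℂ)).mul_bdd (c := 1)
  · exact (ee_continuous.comp (by fun_prop : Continuous fun x : ℝ => -(ξ * x))).aestronglyMeasurable
  · exact Filter.Eventually.of_forall fun x => (norm_ee _).le

lemma wt_integral_pos : 0 < ∫ x, wt x := by
  apply wt_continuous.integral_pos_of_hasCompactSupport_nonneg_nonzero wt_hasCompactSupport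
    wt_nonneg (x := 0)
  unfold wt
  simp

lemma hat_zero (u : ℝ → ℝ) : hat u 0 = ((∫ x, u x : ℝ) : ℂ) := by
  unfold hat
  simp only [zero_mul, neg_zero, ee_zero, mul_one]
  exact integral_ofReal

lemma hat_wt {ξ : ℝ} (hξ : ξ ≠ 0) :
    hat wt ξ = (((1 - Real.cos (2 * Real.pi * ξ)) / (2 * Real.pi ^ 2 * ξ ^ 2) : ℝ) : ℂ) := by
  obtain ⟨c, hc⟩ : ∃ c : ℂ, c = -(2 * Real.pi * ξ) * Complex.I := ⟨_, rfl⟩
  have hpi := Real.pi_ne_zero
  have hc0 : c ≠ 0 := by
    rw [hc]
    apply mul_ne_zero _ Complex.I_ne_zero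
    have : (2 * Real.pi * ξ : ℝ) ≠ 0 := by positivity
    apply neg_ne_zero.2
    exact_mod_cast this
  have hee : ∀ x : ℝ, ee (-(ξ * x)) = Complex.exp (c * x) := by
    intro x
    unfold ee
    congr 1
    rw [hc]
    push_cast
    ring
  have h1 : hat wt ξ = ∫ x in (-1 : ℝ)..1, (wt x : ℂ) * Complex.exp (c * x) := by
    unfold hat
    rw [intervalIntegral.integral_eq_integral_of_support_subset]
    · simp only [hee]
    · intro x hx
      apply wt_support
      intro h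
      apply hx
      simp only [h, Complex.ofReal_zero, zero_mul]
  have hcont : Continuous fun x : ℝ => (wt x : ℂ) * Complex.exp (c * x) := by
    have := wt_continuous
    fun_prop
  have h2 : ∫ x in (-1 : ℝ)..0, (wt x : ℂ) * Complex.exp (c * x) =
      1 / c - 1 / c ^ 2 + Complex.exp (-c) / c ^ 2 := by
    have e1 : ∫ x in (-1 : ℝ)..0, (wt x : ℂ) * Complex.exp (c * x) =
        ∫ x in (-1 : ℝ)..0, (1 + (x : ℂ)) * Complex.exp (c * x) := by
      apply intervalIntegral.integral_congr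
      intro x hx
      rw [uIcc_of_le (by norm_num)] at hx
      have : wt x = 1 + x := by
        rw [wt_of_le (abs_le.2 ⟨hx.1, hx.2.trans zero_le_one⟩), abs_of_nonpos hx.2]
        ring
      simp only [this]
      push_cast
      rfl
    rw [e1]
    have hd : ∀ x ∈ uIcc (-1 : ℝ) 0, HasDerivAt (fun x : ℝ => (1 + (x : ℂ)) * Complex.exp (c * x) / c -
        Complex.exp (c * x) / c ^ 2) ((1 + (x : ℂ)) * Complex.exp (c * x)) x := by
      intro x _
      have d0 : HasDerivAt (fun x : ℝ => (x : ℂ)) 1 x := Complex.ofRealCLM.hasDerivAt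
      have d1 : HasDerivAt (fun x : ℝ => Complex.exp (c * x)) (Complex.exp (c * x) * (c * 1)) x :=
        (d0.const_mul c).cexp
      have d2 := (((d0.const_add 1).mul d1).div_const c).sub (d1.div_const (c ^ 2))
      have e3 : (1 * Complex.exp (c * x) + (1 + (x : ℂ)) * (Complex.exp (c * x) * (c * 1))) / c -
          Complex.exp (c * x) * (c * 1) / c ^ 2 = (1 + (x : ℂ)) * Complex.exp (c * x) := by
        field_simp
        ring
      rw [e3] at d2
      exact d2
    rw [intervalIntegral.integral_eq_sub_of_hasDerivAt hd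
      (by apply Continuous.intervalIntegrable; fun_prop)]
    simp only [Complex.ofReal_zero, mul_zero, Complex.exp_zero, Complex.ofReal_neg,
      Complex.ofReal_one, mul_neg, mul_one, add_zero]
    ring
  have h3 : ∫ x in (0 : ℝ)..1, (wt x : ℂ) * Complex.exp (c * x) =
      Complex.exp c / c ^ 2 - 1 / c - 1 / c ^ 2 := by
    have e1 : ∫ x in (0 : ℝ)..1, (wt x : ℂ) * Complex.exp (c * x) =
        ∫ x in (0 : ℝ)..1, (1 - (x : ℂ)) * Complex.exp (c * x) := by
      apply intervalIntegral.integral_congr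
      intro x hx
      rw [uIcc_of_le (by norm_num)] at hx
      have : wt x = 1 - x := by
        rw [wt_of_le (abs_le.2 ⟨by linarith [hx.1], hx.2⟩), abs_of_nonneg hx.1]
      simp only [this]
      push_cast
      rfl
    rw [e1]
    have hd : ∀ x ∈ uIcc (0 : ℝ) 1, HasDerivAt (fun x : ℝ => (1 - (x : ℂ)) * Complex.exp (c * x) / c +
        Complex.exp (c * x) / c ^ 2) ((1 - (x : ℂ)) * Complex.exp (c * x)) x := by
      intro x _
      have d0 : HasDerivAt (fun x : ℝ => (x : ℂ)) 1 x := Complex.ofRealCLM.hasDerivAt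
      have d1 : HasDerivAt (fun x : ℝ => Complex.exp (c * x)) (Complex.exp (c * x) * (c * 1)) x :=
        (d0.const_mul c).cexp
      have d2 := (((d0.const_sub 1).mul d1).div_const c).add (d1.div_const (c ^ 2))
      have e3 : (-1 * Complex.exp (c * x) + (1 - (x : ℂ)) * (Complex.exp (c * x) * (c * 1))) / c +
          Complex.exp (c * x) * (c * 1) / c ^ 2 = (1 - (x : ℂ)) * Complex.exp (c * x) := by
        field_simp
        ring
      rw [e3] at d2
      exact d2
    rw [intervalIntegral.integral_eq_sub_of_hasDerivAt hd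
      (by apply Continuous.intervalIntegrable; fun_prop)]
    simp only [Complex.ofReal_zero, mul_zero, Complex.exp_zero,
      Complex.ofReal_one, mul_one, sub_self, sub_zero, zero_mul, zero_div, zero_add]
    ring
  rw [h1, ← intervalIntegral.integral_add_adjacent_intervals (b := 0)
    (hcont.intervalIntegrable _ _) (hcont.intervalIntegrable _ _), h2, h3]
  have h4 : Complex.exp c + Complex.exp (-c) = 2 * Real.cos (2 * Real.pi * ξ) := by
    rw [hc, Complex.ofReal_cos, Complex.cos]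
    push_cast
    have e7 : -(-(2 * (Real.pi : ℂ) * ξ) * Complex.I) = 2 * Real.pi * ξ * Complex.I := by ring
    rw [e7]
    ring
  have h5 : c ^ 2 = -(4 * Real.pi ^ 2 * ξ ^ 2) := by
    rw [hc, mul_pow, Complex.I_sq]
    ring
  have h6 : 1 / c - 1 / c ^ 2 + Complex.exp (-c) / c ^ 2 +
      (Complex.exp c / c ^ 2 - 1 / c - 1 / c ^ 2) =
      ((Complex.exp c + Complex.exp (-c)) - 2) / c ^ 2 := by ring
  rw [h6, h4, h5]
  push_cast
  have hpi' : (Real.pi : ℂ) ≠ 0 := by exact_mod_cast hpi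
  have hξ' : (ξ : ℂ) ≠ 0 := by exact_mod_cast hξ
  field_simp
  ring

lemma NN_hat_wt (ξ : ℝ) : NN (hat wt ξ) := by
  by_cases hξ : ξ = 0
  · subst hξ
    rw [hat_zero]
    exact NN.ofReal wt_integral_pos.le
  · rw [hat_wt hξ]
    apply NN.ofReal
    have := Real.cos_le_one (2 * Real.pi * ξ)
    apply div_nonneg (by linarith) (by positivity)

lemma hat_wt_pos {ξ : ℝ} (h : ξ = 0 ∨ ∀ n : ℤ, ξ ≠ n) : 0 < (hat wt ξ).re := by
  by_cases hξ : ξ = 0
  · subst hξ
    rw [hat_zero, Complex.ofReal_re]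
    exact wt_integral_pos
  · have hn : ∀ n : ℤ, ξ ≠ n := h.resolve_left hξ
    rw [hat_wt hξ, Complex.ofReal_re]
    apply div_pos _ (by have := Real.pi_pos; positivity)
    have h1 := Real.cos_le_one (2 * Real.pi * ξ)
    have h2 : Real.cos (2 * Real.pi * ξ) ≠ 1 := by
      intro h3
      rw [Real.cos_eq_one_iff] at h3
      obtain ⟨n, hn'⟩ := h3
      apply hn n
      have hpi : (2 * Real.pi) ≠ 0 := by positivity
      apply mul_left_cancel₀ hpi
      rw [← hn']
      ring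
    have h4 := lt_of_le_of_ne h1 h2
    linarith

/-! ### the functions `a` -/

lemma ak_integrable (l : ℕ) : Integrable (ak l) := by
  apply (ak_continuous l).integrable_of_hasCompactSupport
  exact wt_hasCompactSupport.mul_left

lemma hat_ak (l : ℕ) (ξ : ℝ) :
    hat (ak l) ξ = hat wt ξ + (1 / 2) * hat wt (ξ - l) + (1 / 2) * hat wt (ξ + l) := by
  have h1 : ∀ x : ℝ, (ak l x : ℂ) * ee (-(ξ * x)) = (wt x : ℂ) * ee (-(ξ * x)) +
      (1 / 2) * ((wt x : ℂ) * ee (-((ξ - l) * x))) + (1 / 2) * ((wt x : ℂ) * ee (-((ξ + l) * x))) := by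
    intro x
    unfold ak
    have e1 : ((Real.cos (2 * Real.pi * (l * x)) : ℝ) : ℂ) = (ee (l * x) + ee (-(l * x))) / 2 := by
      rw [ee_add_ee_neg]
      push_cast
      ring
    have e2 : ee (-((ξ - l) * x)) = ee (-(ξ * x)) * ee (l * x) := by
      rw [← ee_add]; congr 1; ring
    have e3 : ee (-((ξ + l) * x)) = ee (-(ξ * x)) * ee (-(l * x)) := by
      rw [← ee_add]; congr 1; ring
    rw [e2, e3, Complex.ofReal_mul, Complex.ofReal_add, e1]
    push_cast
    ring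
  unfold hat
  simp only [h1]
  rw [integral_add, integral_add, integral_const_mul, integral_const_mul]
  · exact integrable_mul_ee wt_integrable ξ
  · exact (integrable_mul_ee wt_integrable (ξ - l)).const_mul _
  · exact (integrable_mul_ee wt_integrable ξ).add
      ((integrable_mul_ee wt_integrable (ξ - l)).const_mul _)
  · exact (integrable_mul_ee wt_integrable (ξ + l)).const_mul _

lemma NN_half : NN (1 / 2 : ℂ) := ⟨1 / 2, by norm_num, by push_cast; rfl⟩

lemma NN_hat_ak (l : ℕ) (ξ : ℝ) : NN (hat (ak l) ξ) := by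
  rw [hat_ak]
  exact ((NN_hat_wt ξ).add (NN_half.mul (NN_hat_wt _))).add (NN_half.mul (NN_hat_wt _))

lemma hat_ak_self_pos (l : ℕ) : 0 < (hat (ak l) l).re := by
  rw [hat_ak, Complex.add_re, Complex.add_re]
  have h1 := (NN_hat_wt l).re_nonneg
  have h2 := (NN_half.mul (NN_hat_wt ((l : ℝ) + l))).re_nonneg
  have h3 : 0 < ((1 / 2 : ℂ) * hat wt ((l : ℝ) - l)).re := by
    rw [NN_half.mul_re (NN_hat_wt _), sub_self]
    have := hat_wt_pos (ξ := 0) (Or.inl rfl)
    have h4 : (1 / 2 : ℂ).re = 1 / 2 := by norm_num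
    rw [h4]
    positivity
  linarith

/-! ### integrals of series -/

lemma integrable_tsum_of_nonneg {α : Type*} [MeasurableSpace α] {μ : Measure α} {ι : Type*}
    [Countable ι] {F : ι → α → ℝ} (hF0 : ∀ i x, 0 ≤ F i x) (hint : ∀ i, Integrable (F i) μ)
    (hsum : ∀ x, Summable fun i => F i x) (hs : Summable fun i => ∫ x, F i x ∂μ)
    (hm : AEStronglyMeasurable (fun x => ∑' i, F i x) μ) :
    Integrable (fun x => ∑' i, F i x) μ := by
  refine ⟨hm, ?_⟩
  rw [hasFiniteIntegral_iff_ofReal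
    (Filter.Eventually.of_forall fun x => tsum_nonneg fun i => hF0 i x)]
  have h1 : ∀ x, ENNReal.ofReal (∑' i, F i x) = ∑' i, ENNReal.ofReal (F i x) := fun x =>
    ENNReal.ofReal_tsum_of_nonneg (fun i => hF0 i x) (hsum x)
  simp only [h1]
  rw [lintegral_tsum (fun i => (hint i).1.aemeasurable.ennreal_ofReal)]
  have h2 : ∀ i, ∫⁻ x, ENNReal.ofReal (F i x) ∂μ = ENNReal.ofReal (∫ x, F i x ∂μ) := fun i =>
    (ofReal_integral_eq_lintegral_ofReal (hint i)
      (Filter.Eventually.of_forall fun x => hF0 i x)).symm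
  simp only [h2]
  rw [← ENNReal.ofReal_tsum_of_nonneg (fun i => integral_nonneg (hF0 i)) hs]
  exact ENNReal.ofReal_lt_top

/-! ### the functions `b` -/

lemma integrable_bk_term (M : ℕ) (s : ℤ) : Integrable fun y : ℝ => kap M s * wt (y - s) :=
  (wt_integrable.comp_sub_right (s : ℝ)).const_mul _

lemma integral_bk_term (M : ℕ) (s : ℤ) :
    ∫ y : ℝ, kap M s * wt (y - s) = kap M s * ∫ y, wt y := by
  rw [integral_const_mul, integral_sub_right_eq_self wt (s : ℝ)]

lemma bk_integrable {M : ℕ} (hM : 2 ≤ M) : Integrable (bk M) := by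
  unfold bk
  apply integrable_tsum_of_nonneg
  · intro s y
    exact mul_nonneg (kap_nonneg _ _) (wt_nonneg _)
  · exact integrable_bk_term M
  · exact summable_bk hM
  · simp only [integral_bk_term]
    exact (summable_kap hM).mul_right _
  · exact (bk_continuous hM).aestronglyMeasurable

lemma hat_bk {M : ℕ} (hM : 2 ≤ M) (ξ : ℝ) :
    HasSum (fun s : ℤ => (kap M s : ℂ) * ee (s * -ξ) * hat wt ξ) (hat (bk M) ξ) := by
  have h1 : ∀ s : ℤ, ∫ y : ℝ, ((kap M s * wt (y - s) : ℝ) : ℂ) * ee (-(ξ * y)) =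
      (kap M s : ℂ) * ee (s * -ξ) * hat wt ξ := by
    intro s
    have e1 : ∀ y : ℝ, ((kap M s * wt (y - s) : ℝ) : ℂ) * ee (-(ξ * y)) =
        (kap M s : ℂ) * ee (s * -ξ) * ((wt (y - s) : ℂ) * ee (-(ξ * (y - s)))) := by
      intro y
      have : ee (-(ξ * y)) = ee (s * -ξ) * ee (-(ξ * (y - s))) := by
        rw [← ee_add]; congr 1; ring
      rw [this]
      push_cast
      ring
    simp only [e1]
    rw [integral_const_mul, integral_sub_right_eq_self (fun y : ℝ => (wt y : ℂ) * ee (-(ξ * y)))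
      (s : ℝ)]
    rfl
  have h2 : HasSum (fun s : ℤ => ∫ y : ℝ, ((kap M s * wt (y - s) : ℝ) : ℂ) * ee (-(ξ * y)))
      (∫ y : ℝ, ∑' s : ℤ, ((kap M s * wt (y - s) : ℝ) : ℂ) * ee (-(ξ * y))) := by
    apply hasSum_integral_of_summable_integral_norm
    · intro s
      exact integrable_mul_ee (integrable_bk_term M s) ξ
    · have e2 : ∀ (s : ℤ) (y : ℝ), ‖((kap M s * wt (y - s) : ℝ) : ℂ) * ee (-(ξ * y))‖ =
          kap M s * wt (y - s) := by
        intro s y
        rw [norm_mul, norm_ee, mul_one, Complex.norm_real, Real.norm_eq_abs,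
          abs_of_nonneg (mul_nonneg (kap_nonneg _ _) (wt_nonneg _))]
      simp only [e2, integral_bk_term]
      exact (summable_kap hM).mul_right _
  simp only [h1] at h2
  have h3 : (∫ y : ℝ, ∑' s : ℤ, ((kap M s * wt (y - s) : ℝ) : ℂ) * ee (-(ξ * y))) =
      hat (bk M) ξ := by
    unfold hat
    congr 1
    funext y
    rw [tsum_mul_right]
    congr 1
    unfold bk
    rw [Complex.ofReal_tsum]
  rw [h3] at h2
  exact h2

lemma NN_hat_bk {M : ℕ} (hM : 2 ≤ M) (ξ : ℝ) : NN (hat (bk M) ξ) := by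
  obtain ⟨r, hr, hs⟩ := kap_hat_nonneg hM (-ξ)
  have h1 := hs.mul_right (hat wt ξ)
  rw [(hat_bk hM ξ).unique h1]
  exact (NN.ofReal hr).mul (NN_hat_wt ξ)

lemma hat_bk_zero_pos {M : ℕ} (hM : 2 ≤ M) : 0 < (hat (bk M) 0).re := by
  have h1 := hat_bk hM 0
  have h2 := (hasSum_kap_zero hM).mul_right (hat wt 0)
  have h3 : (fun s : ℤ => (kap M s : ℂ) * ee (s * -0) * hat wt 0) =
      fun s : ℤ => (kap M s : ℂ) * hat wt 0 := by
    funext s
    rw [neg_zero, mul_zero, ee_zero, mul_one]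
  rw [h3] at h1
  rw [h1.unique h2, one_mul]
  exact hat_wt_pos (Or.inl rfl)

/-! ### two-dimensional transforms -/

/-- two-dimensional Fourier integral of a real function -/
noncomputable def hat2 (G : ℝ → ℝ → ℝ) (a b : ℝ) : ℂ :=
  ∫ p : ℝ × ℝ, (G p.1 p.2 : ℂ) * ee (-(a * p.1 + b * p.2))

lemma hat2_mul (u v : ℝ → ℝ) (a b : ℝ) :
    hat2 (fun x y => u x * v y) a b = hat u a * hat v b := by
  unfold hat2 hat
  have h1 : ∀ p : ℝ × ℝ, ((u p.1 * v p.2 : ℝ) : ℂ) * ee (-(a * p.1 + b * p.2)) =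
      ((u p.1 : ℂ) * ee (-(a * p.1))) * ((v p.2 : ℂ) * ee (-(b * p.2))) := by
    intro p
    have : ee (-(a * p.1 + b * p.2)) = ee (-(a * p.1)) * ee (-(b * p.2)) := by
      rw [← ee_add]; congr 1; ring
    rw [this]
    push_cast
    ring
  simp only [h1]
  exact integral_prod_mul (fun x : ℝ => (u x : ℂ) * ee (-(a * x)))
    (fun y : ℝ => (v y : ℂ) * ee (-(b * y)))

lemma integrable_mul_ee2 {G : ℝ → ℝ → ℝ} (hG : Integrable fun p : ℝ × ℝ => G p.1 p.2) (a b : ℝ) :
    Integrable fun p : ℝ × ℝ => (G p.1 p.2 : ℂ) * ee (-(a * p.1 + b * p.2)) := by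
  apply (hG.ofReal (𝕜 := ℂ)).mul_bdd (c := 1)
  · exact (ee_continuous.comp (by fun_prop : Continuous fun p : ℝ × ℝ =>
      -(a * p.1 + b * p.2))).aestronglyMeasurable
  · exact Filter.Eventually.of_forall fun x => (norm_ee _).le

lemma integrable_TT (l : ℕ) {M : ℕ} (hM : 2 ≤ M) :
    Integrable fun p : ℝ × ℝ => TT l M p.1 p.2 := by
  unfold TT
  exact ((ak_integrable l).mul_prod (bk_integrable hM)).add
    ((bk_integrable hM).mul_prod (ak_integrable l))

lemma integral_bk {M : ℕ} (hM : 2 ≤ M) : ∫ y, bk M y = ∫ y, wt y := by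
  have h1 := hat_bk hM 0
  have h2 := (hasSum_kap_zero hM).mul_right (hat wt 0)
  have h3 : (fun s : ℤ => (kap M s : ℂ) * ee (s * -0) * hat wt 0) =
      fun s : ℤ => (kap M s : ℂ) * hat wt 0 := by
    funext s
    rw [neg_zero, mul_zero, ee_zero, mul_one]
  rw [h3] at h1
  have h4 := h1.unique h2
  rw [one_mul, hat_zero, hat_zero] at h4
  exact_mod_cast h4

lemma integral_ak_le (l : ℕ) : ∫ x, ak l x ≤ 2 * ∫ x, wt x := by
  rw [← integral_const_mul]
  apply integral_mono (ak_integrable l) (wt_integrable.const_mul 2)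
  intro x
  unfold ak
  have h1 := Real.cos_le_one (2 * Real.pi * (l * x))
  exact mul_le_mul_of_nonneg_right (by linarith) (wt_nonneg x)

lemma integral_TT (l : ℕ) {M : ℕ} (hM : 2 ≤ M) :
    ∫ p : ℝ × ℝ, TT l M p.1 p.2 = 2 * ((∫ x, ak l x) * ∫ y, bk M y) := by
  unfold TT
  have i1 : Integrable (fun p : ℝ × ℝ => ak l p.1 * bk M p.2) volume :=
    (ak_integrable l).mul_prod (bk_integrable hM)
  have i2 : Integrable (fun p : ℝ × ℝ => bk M p.1 * ak l p.2) volume :=
    (bk_integrable hM).mul_prod (ak_integrable l)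
  rw [integral_add i1 i2]
  have h1 : ∫ p : ℝ × ℝ, ak l p.1 * bk M p.2 = (∫ x, ak l x) * ∫ y, bk M y :=
    integral_prod_mul (ak l) (bk M)
  have h2 : ∫ p : ℝ × ℝ, bk M p.1 * ak l p.2 = (∫ x, bk M x) * ∫ y, ak l y :=
    integral_prod_mul (bk M) (ak l)
  rw [h1, h2]
  ring

lemma integral_TT_le (l : ℕ) {M : ℕ} (hM : 2 ≤ M) :
    ∫ p : ℝ × ℝ, TT l M p.1 p.2 ≤ 4 * (∫ x, wt x) ^ 2 := by
  rw [integral_TT l hM, integral_bk hM]
  have h1 := integral_ak_le l
  have h2 := wt_integral_pos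
  generalize (∫ x, ak l x) = A at *
  generalize (∫ x, wt x) = W at *
  have h3 : A * W ≤ (2 * W) * W := mul_le_mul_of_nonneg_right h1 h2.le
  have h4 : 4 * W ^ 2 = 2 * ((2 * W) * W) := by ring
  rw [h4]
  linarith

lemma summable_integral_TT (l : ℕ → ℕ) {M : ℕ → ℕ} (hM : ∀ k, 2 ≤ M k) :
    Summable fun k => ∫ p : ℝ × ℝ, (1 / 2 : ℝ) ^ k * TT (l k) (M k) p.1 p.2 := by
  simp only [integral_const_mul]
  refine Summable.of_nonneg_of_le (f := fun k => (1 / 2 : ℝ) ^ k * (4 * (∫ x, wt x) ^ 2)) ?_ ?_ ?_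
  · intro k
    have h1 : 0 ≤ ∫ p : ℝ × ℝ, TT (l k) (M k) p.1 p.2 := integral_nonneg fun p => TT_nonneg _ _ _ _
    positivity
  · intro k
    have h1 := integral_TT_le (l k) (hM k)
    have h2 : (0 : ℝ) ≤ (1 / 2 : ℝ) ^ k := by positivity
    exact mul_le_mul_of_nonneg_left h1 h2
  · exact (summable_geometric_of_lt_one (by norm_num) (by norm_num)).mul_right _

lemma TT_continuous (l : ℕ) {M : ℕ} (hM : 2 ≤ M) :
    Continuous fun p : ℝ × ℝ => TT l M p.1 p.2 := by
  unfold TT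
  have h1 := ak_continuous l
  have h2 := bk_continuous hM
  fun_prop

lemma tsum_TT_continuous (l : ℕ → ℕ) {M : ℕ → ℕ} (hM : ∀ k, 2 ≤ M k) :
    Continuous fun p : ℝ × ℝ => ∑' k, (1 / 2 : ℝ) ^ k * TT (l k) (M k) p.1 p.2 := by
  apply continuous_tsum (u := fun k => (1 / 2 : ℝ) ^ k * 4)
  · intro k
    exact continuous_const.mul (TT_continuous (l k) (hM k))
  · exact (summable_geometric_of_lt_one (by norm_num) (by norm_num)).mul_right _
  · intro k p
    rw [Real.norm_eq_abs, abs_of_nonneg (mul_nonneg (by positivity) (TT_nonneg _ _ _ _))]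
    exact mul_le_mul_of_nonneg_left (TT_le (hM k) _ _) (by positivity)

lemma FF_continuous (l : ℕ → ℕ) {M : ℕ → ℕ} (hM : ∀ k, 2 ≤ M k) :
    Continuous fun p : ℝ × ℝ => FF l M p.1 p.2 := by
  unfold FF
  have := wt_continuous
  exact Continuous.add (by fun_prop) (tsum_TT_continuous l hM)

lemma integrable_tsum_TT (l : ℕ → ℕ) {M : ℕ → ℕ} (hM : ∀ k, 2 ≤ M k) :
    Integrable fun p : ℝ × ℝ => ∑' k, (1 / 2 : ℝ) ^ k * TT (l k) (M k) p.1 p.2 := by
  apply integrable_tsum_of_nonneg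
  · intro k p
    exact mul_nonneg (by positivity) (TT_nonneg _ _ _ _)
  · intro k
    exact (integrable_TT (l k) (hM k)).const_mul _
  · intro p
    exact summable_FF hM p.1 p.2
  · exact summable_integral_TT l hM
  · exact (tsum_TT_continuous l hM).aestronglyMeasurable

lemma FF_integrable (l : ℕ → ℕ) {M : ℕ → ℕ} (hM : ∀ k, 2 ≤ M k) :
    Integrable fun p : ℝ × ℝ => FF l M p.1 p.2 := by
  unfold FF
  exact (wt_integrable.mul_prod wt_integrable).add (integrable_tsum_TT l hM)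

lemma hat2_TT (l : ℕ) {M : ℕ} (hM : 2 ≤ M) (a b : ℝ) :
    hat2 (TT l M) a b = hat (ak l) a * hat (bk M) b + hat (bk M) a * hat (ak l) b := by
  rw [← hat2_mul, ← hat2_mul]
  unfold hat2 TT
  rw [← integral_add]
  · congr 1
    funext p
    push_cast
    ring
  · exact integrable_mul_ee2 (G := fun x y => ak l x * bk M y)
      ((ak_integrable l).mul_prod (bk_integrable hM)) a b
  · exact integrable_mul_ee2 (G := fun x y => bk M x * ak l y)
      ((bk_integrable hM).mul_prod (ak_integrable l)) a b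

lemma hat2_FF (l : ℕ → ℕ) {M : ℕ → ℕ} (hM : ∀ k, 2 ≤ M k) (a b : ℝ) :
    HasSum (fun k => (((1 / 2 : ℝ) ^ k : ℝ) : ℂ) * hat2 (TT (l k) (M k)) a b)
      (hat2 (FF l M) a b - hat wt a * hat wt b) := by
  have h1 : hat2 (FF l M) a b - hat wt a * hat wt b =
      hat2 (fun x y => ∑' k, (1 / 2 : ℝ) ^ k * TT (l k) (M k) x y) a b := by
    rw [← hat2_mul, sub_eq_iff_eq_add]
    unfold hat2 FF
    rw [← integral_add]
    · congr 1
      funext p
      rw [Complex.ofReal_add]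
      ring
    · exact integrable_mul_ee2 (G := fun x y => ∑' k, (1 / 2 : ℝ) ^ k * TT (l k) (M k) x y)
        (integrable_tsum_TT l hM) a b
    · exact integrable_mul_ee2 (G := fun x y => wt x * wt y)
        (wt_integrable.mul_prod wt_integrable) a b
  rw [h1]
  have h2 : HasSum (fun k => ∫ p : ℝ × ℝ, (((1 / 2 : ℝ) ^ k * TT (l k) (M k) p.1 p.2 : ℝ) : ℂ) *
      ee (-(a * p.1 + b * p.2)))
      (∫ p : ℝ × ℝ, ∑' k, (((1 / 2 : ℝ) ^ k * TT (l k) (M k) p.1 p.2 : ℝ) : ℂ) *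
        ee (-(a * p.1 + b * p.2))) := by
    apply hasSum_integral_of_summable_integral_norm
    · intro k
      exact integrable_mul_ee2 (G := fun x y => (1 / 2 : ℝ) ^ k * TT (l k) (M k) x y)
        ((integrable_TT (l k) (hM k)).const_mul _) a b
    · have e2 : ∀ (k : ℕ) (p : ℝ × ℝ), ‖(((1 / 2 : ℝ) ^ k * TT (l k) (M k) p.1 p.2 : ℝ) : ℂ) *
          ee (-(a * p.1 + b * p.2))‖ = (1 / 2 : ℝ) ^ k * TT (l k) (M k) p.1 p.2 := by
        intro k p
        rw [norm_mul, norm_ee, mul_one, Complex.norm_real, Real.norm_eq_abs,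
          abs_of_nonneg (mul_nonneg (by positivity) (TT_nonneg _ _ _ _))]
      simp only [e2]
      exact summable_integral_TT l hM
  have h3 : (fun k => ∫ p : ℝ × ℝ, (((1 / 2 : ℝ) ^ k * TT (l k) (M k) p.1 p.2 : ℝ) : ℂ) *
      ee (-(a * p.1 + b * p.2))) = fun k => (((1 / 2 : ℝ) ^ k : ℝ) : ℂ) *
      hat2 (TT (l k) (M k)) a b := by
    funext k
    unfold hat2
    rw [← integral_const_mul]
    congr 1
    funext p
    rw [Complex.ofReal_mul]
    ring
  have h4 : (∫ p : ℝ × ℝ, ∑' k, (((1 / 2 : ℝ) ^ k * TT (l k) (M k) p.1 p.2 : ℝ) : ℂ) *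
        ee (-(a * p.1 + b * p.2))) =
      hat2 (fun x y => ∑' k, (1 / 2 : ℝ) ^ k * TT (l k) (M k) x y) a b := by
    unfold hat2
    congr 1
    funext p
    rw [tsum_mul_right, Complex.ofReal_tsum]
  rw [h3, h4] at h2
  exact h2

lemma hat2_FF_re_ge (l : ℕ → ℕ) {M : ℕ → ℕ} (hM : ∀ k, 2 ≤ M k) (a b : ℝ) :
    (hat wt a).re * (hat wt b).re ≤ (hat2 (FF l M) a b).re ∧
    ∀ k, (1 / 2 : ℝ) ^ k * ((hat (ak (l k)) a).re * (hat (bk (M k)) b).re) ≤
      (hat2 (FF l M) a b).re := by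
  have h1 := Complex.reCLM.hasSum (hat2_FF l hM a b)
  have hterm : ∀ k, Complex.reCLM ((((1 / 2 : ℝ) ^ k : ℝ) : ℂ) * hat2 (TT (l k) (M k)) a b) =
      (1 / 2 : ℝ) ^ k * ((hat (ak (l k)) a).re * (hat (bk (M k)) b).re +
        (hat (bk (M k)) a).re * (hat (ak (l k)) b).re) := by
    intro k
    rw [Complex.reCLM_apply, Complex.re_ofReal_mul, hat2_TT _ (hM k), Complex.add_re,
      (NN_hat_ak _ _).mul_re (NN_hat_bk (hM k) _), (NN_hat_bk (hM k) _).mul_re (NN_hat_ak _ _)]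
  have hnn : ∀ k, 0 ≤ Complex.reCLM ((((1 / 2 : ℝ) ^ k : ℝ) : ℂ) * hat2 (TT (l k) (M k)) a b) := by
    intro k
    rw [hterm]
    have e1 := (NN_hat_ak (l k) a).re_nonneg
    have e2 := (NN_hat_ak (l k) b).re_nonneg
    have e3 := (NN_hat_bk (hM k) a).re_nonneg
    have e4 := (NN_hat_bk (hM k) b).re_nonneg
    positivity
  have hval : Complex.reCLM (hat2 (FF l M) a b - hat wt a * hat wt b) =
      (hat2 (FF l M) a b).re - (hat wt a).re * (hat wt b).re := by
    rw [Complex.reCLM_apply, Complex.sub_re, (NN_hat_wt _).mul_re (NN_hat_wt _)]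
  rw [hval] at h1
  have hw : 0 ≤ (hat wt a).re * (hat wt b).re :=
    mul_nonneg (NN_hat_wt a).re_nonneg (NN_hat_wt b).re_nonneg
  refine ⟨?_, ?_⟩
  · have := h1.nonneg hnn
    linarith
  · intro k
    have h2 := le_hasSum h1 k (fun j _ => hnn j)
    rw [hterm] at h2
    have e2 := (NN_hat_ak (l k) b).re_nonneg
    have e3 := (NN_hat_bk (hM k) a).re_nonneg
    have e5 : 0 ≤ (1 / 2 : ℝ) ^ k * ((hat (bk (M k)) a).re * (hat (ak (l k)) b).re) := by positivity
    linarith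

theorem hat2_FF_ne_zero_of (l : ℕ → ℕ) {M : ℕ → ℕ} (hM : ∀ k, 2 ≤ M k) {a b : ℝ}
    (ha : a = 0 ∨ ∀ n : ℤ, a ≠ n) (hb : b = 0 ∨ ∀ n : ℤ, b ≠ n) : hat2 (FF l M) a b ≠ 0 := by
  intro h
  have h1 := (hat2_FF_re_ge l hM a b).1
  have h2 := hat_wt_pos ha
  have h3 := hat_wt_pos hb
  rw [h, Complex.zero_re] at h1
  have := mul_pos h2 h3
  linarith

theorem hat2_FF_ne_zero_special (l : ℕ → ℕ) {M : ℕ → ℕ} (hM : ∀ k, 2 ≤ M k) (k : ℕ) :
    hat2 (FF l M) (l k) 0 ≠ 0 := by
  intro h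
  have h1 := (hat2_FF_re_ge l hM (l k) 0).2 k
  have h2 := hat_ak_self_pos (l k)
  have h3 := hat_bk_zero_pos (hM k)
  rw [h, Complex.zero_re] at h1
  have : 0 < (1 / 2 : ℝ) ^ k * ((hat (ak (l k)) (l k)).re * (hat (bk (M k)) 0).re) := by positivity
  linarith

lemma hat2_symm {G : ℝ → ℝ → ℝ} (hG : ∀ x y, G x y = G y x) (a b : ℝ) :
    hat2 G a b = hat2 G b a := by
  unfold hat2
  have := (Measure.measurePreserving_swap (μ := (volume : Measure ℝ)) (ν := (volume : Measure ℝ))).integral_comp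
    MeasurableEquiv.prodComm.measurableEmbedding
    (fun p : ℝ × ℝ => (G p.1 p.2 : ℂ) * ee (-(b * p.1 + a * p.2)))
  rw [← Measure.volume_eq_prod] at this
  rw [← this]
  congr 1
  funext p
  simp only [Prod.fst_swap, Prod.snd_swap]
  rw [hG p.2 p.1, add_comm (b * p.2)]

end Pool.Agent.Lib.MP_4be4c6_an
end

section

/-!
# MP_4be4c6_an : the translation set, and the absence of lattice tilings
-/

namespace Pool.Agent.Lib.MP_4be4c6_an

open MeasureTheory Set Module

/-! ### the translation set -/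

section points

variable {φ : ℤ → ℝ} {β : ℝ}

lemma pt_injective (hβ : Irrational β) (hβ1 : 141 / 100 < β) (hβ2 : β < 142 / 100)
    (hφ : ∀ n, |φ n - 1 / 4| ≤ 1 / 100) : Function.Injective (pt φ β) := by
  have hsame : ∀ (j j' : Bool) (n n' : ℤ), (n : ℝ) + bv β j = n' + bv β j' → j = j' ∧ n = n' := by
    intro j j' n n' h
    cases j <;> cases j'
    · refine ⟨rfl, ?_⟩
      have : (n : ℝ) = n' := by linarith
      exact_mod_cast this
    · exfalso
      apply hβ
      refine ⟨((n - n' : ℤ) : ℚ), ?_⟩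
      simp only [bv, if_true, Bool.false_eq_true, if_false] at h
      push_cast
      linarith
    · exfalso
      apply hβ
      refine ⟨((n' - n : ℤ) : ℚ), ?_⟩
      simp only [bv, if_true, Bool.false_eq_true, if_false] at h
      push_cast
      linarith
    · refine ⟨rfl, ?_⟩
      have : (n : ℝ) = n' := by linarith
      exact_mod_cast this
  have hdiff : ∀ (j : Bool) (m n n' : ℤ), (m : ℝ) + φ n ≠ n' + bv β j := by
    intro j m n n' h
    have h1 := abs_le.1 (hφ n)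
    cases j
    · simp only [bv, Bool.false_eq_true, if_false] at h
      have h2 : ((n' - m : ℤ) : ℝ) = φ n := by push_cast; linarith
      have h3 : (0 : ℝ) < ((n' - m : ℤ) : ℝ) := by rw [h2]; linarith
      have h4 : ((n' - m : ℤ) : ℝ) < 1 := by rw [h2]; linarith
      have h5 : 0 < n' - m := by exact_mod_cast h3
      have h6 : n' - m < 1 := by exact_mod_cast h4
      omega
    · simp only [bv, if_true] at h
      have h2 : ((m - n' : ℤ) : ℝ) = β - φ n := by push_cast; linarith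
      have h3 : (1 : ℝ) < ((m - n' : ℤ) : ℝ) := by rw [h2]; linarith
      have h4 : ((m - n' : ℤ) : ℝ) < 2 := by rw [h2]; linarith
      have h5 : 1 < m - n' := by exact_mod_cast h3
      have h6 : m - n' < 2 := by exact_mod_cast h4
      omega
  rintro ⟨c, j, n, m⟩ ⟨c', j', n', m'⟩ h
  cases c <;> cases c'
  · simp only [pt, Bool.false_eq_true, if_false, Prod.mk.injEq] at h
    obtain ⟨h1, h2⟩ := h
    obtain ⟨rfl, rfl⟩ := hsame _ _ _ _ h1
    have : (m : ℝ) = m' := by linarith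
    have : m = m' := by exact_mod_cast this
    rw [this]
  · simp only [pt, Bool.false_eq_true, if_false, if_true, Prod.mk.injEq] at h
    exact absurd h.1.symm (hdiff _ _ _ _)
  · simp only [pt, Bool.false_eq_true, if_false, if_true, Prod.mk.injEq] at h
    exact absurd h.1 (hdiff _ _ _ _)
  · simp only [pt, if_true, Prod.mk.injEq] at h
    obtain ⟨h1, h2⟩ := h
    obtain ⟨rfl, rfl⟩ := hsame _ _ _ _ h2
    have : (m : ℝ) = m' := by linarith
    have : m = m' := by exact_mod_cast this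
    rw [this]

/-- the translation set, in the plane -/
noncomputable def ptE (φ : ℤ → ℝ) (β : ℝ) (i : Bool × (Bool × (ℤ × ℤ))) :
    EuclideanSpace ℝ (Fin 2) :=
  WithLp.toLp 2 ![(pt φ β i).1, (pt φ β i).2]

lemma ptE_zero (i : Bool × (Bool × (ℤ × ℤ))) : ptE φ β i 0 = (pt φ β i).1 := rfl

lemma ptE_one (i : Bool × (Bool × (ℤ × ℤ))) : ptE φ β i 1 = (pt φ β i).2 := rfl

lemma ptE_injective (hβ : Irrational β) (hβ1 : 141 / 100 < β) (hβ2 : β < 142 / 100)
    (hφ : ∀ n, |φ n - 1 / 4| ≤ 1 / 100) : Function.Injective (ptE φ β) := by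
  intro i i' h
  apply pt_injective hβ hβ1 hβ2 hφ
  apply Prod.ext
  · rw [← ptE_zero, ← ptE_zero, h]
  · rw [← ptE_one, ← ptE_one, h]

lemma coord_ball {x y : EuclideanSpace ℝ (Fin 2)} (h : y ∈ Metric.ball x 1) (i : Fin 2) :
    |y i - x i| < 1 := by
  rw [Metric.mem_ball, dist_eq_norm] at h
  have := PiLp.norm_apply_le (y - x) i
  rw [PiLp.sub_apply, Real.norm_eq_abs] at this
  exact lt_of_le_of_lt this h

lemma boundedDensity (hβ1 : 141 / 100 < β) (hβ2 : β < 142 / 100)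
    (hφ : ∀ n, |φ n - 1 / 4| ≤ 1 / 100) : BoundedDensity (Set.range (ptE φ β)) := by
  refine ⟨784, fun x => ?_⟩
  let J : Finset ℤ := Finset.Icc (⌊x 0⌋ - 3) (⌊x 0⌋ + 3) ∪ Finset.Icc (⌊x 1⌋ - 3) (⌊x 1⌋ + 3)
  let S : Finset (Bool × (Bool × (ℤ × ℤ))) := Finset.univ ×ˢ (Finset.univ ×ˢ (J ×ˢ J))
  have hJ : J.card ≤ 14 := by
    refine (Finset.card_union_le _ _).trans ?_
    rw [Int.card_Icc, Int.card_Icc]
    have e1 : ⌊x 0⌋ + 3 + 1 - (⌊x 0⌋ - 3) = 7 := by ring
    have e2 : ⌊x 1⌋ + 3 + 1 - (⌊x 1⌋ - 3) = 7 := by ring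
    rw [e1, e2]
    decide
  have hS : S.card ≤ 784 := by
    simp only [S, Finset.card_product, Finset.card_univ, Fintype.card_bool]
    nlinarith
  have hloc : ∀ (t : ℝ) (a : ℝ) (n : ℤ), |(n : ℝ) + t - a| < 1 → 0 ≤ t → t ≤ 3 / 2 →
      n ∈ Finset.Icc (⌊a⌋ - 3) (⌊a⌋ + 3) := by
    intro t a n h h1 h2
    rw [abs_lt] at h
    have h3 := Int.floor_le a
    have h4 := Int.lt_floor_add_one a
    rw [Finset.mem_Icc]
    constructor
    · have : ((⌊a⌋ - 3 : ℤ) : ℝ) < n := by push_cast; linarith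
      exact (by exact_mod_cast this : ⌊a⌋ - 3 < n).le
    · have : (n : ℝ) < ((⌊a⌋ + 3 : ℤ) : ℝ) := by push_cast; linarith
      exact (by exact_mod_cast this : n < ⌊a⌋ + 3).le
  have hsub : Set.range (ptE φ β) ∩ Metric.ball x 1 ⊆ ptE φ β '' (S : Set _) := by
    rintro y ⟨⟨i, rfl⟩, hy⟩
    refine ⟨i, ?_, rfl⟩
    have h0 := coord_ball hy 0
    have h1 := coord_ball hy 1
    rw [ptE_zero] at h0
    rw [ptE_one] at h1
    obtain ⟨c, j, n, m⟩ := i
    have hbv0 : 0 ≤ bv β j := by unfold bv; split_ifs <;> linarith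
    have hbv1 : bv β j ≤ 3 / 2 := by unfold bv; split_ifs <;> linarith
    have hφn := abs_le.1 (hφ n)
    simp only [S, Finset.coe_product, Finset.coe_univ, Set.mem_prod, Set.mem_univ, true_and,
      Finset.mem_coe, J, Finset.mem_union]
    cases c
    · simp only [pt, Bool.false_eq_true, if_false] at h0 h1
      exact ⟨Or.inl (hloc _ _ _ h0 hbv0 hbv1), Or.inr (hloc _ _ _ h1 (by linarith) (by linarith))⟩
    · simp only [pt, if_true] at h0 h1
      exact ⟨Or.inr (hloc _ _ _ h1 hbv0 hbv1), Or.inl (hloc _ _ _ h0 (by linarith) (by linarith))⟩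
  calc (Set.range (ptE φ β) ∩ Metric.ball x 1).encard ≤ (ptE φ β '' (S : Set _)).encard :=
        Set.encard_le_encard hsub
    _ ≤ (S : Set (Bool × (Bool × (ℤ × ℤ)))).encard := Set.encard_image_le _ _
    _ = S.card := Set.encard_coe_eq_coe_finsetCard S
    _ ≤ (784 : ℕ) := by exact_mod_cast hS

end points

/-! ### the function on the plane -/

/-- the function on the plane -/
noncomputable def fE (l M : ℕ → ℕ) (v : EuclideanSpace ℝ (Fin 2)) : ℝ := FF l M (v 0) (v 1)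

/-- the plane as a product -/
noncomputable def eV : EuclideanSpace ℝ (Fin 2) ≃ᵐ ℝ × ℝ :=
  (MeasurableEquiv.toLp 2 (Fin 2 → ℝ)).symm.trans MeasurableEquiv.finTwoArrow

lemma eV_apply (v : EuclideanSpace ℝ (Fin 2)) : eV v = (v 0, v 1) := rfl

lemma eV_preserving : MeasurePreserving eV :=
  (PiLp.volume_preserving_ofLp (Fin 2)).trans (volume_preserving_finTwoArrow ℝ)

lemma fE_continuous (l : ℕ → ℕ) {M : ℕ → ℕ} (hM : ∀ k, 2 ≤ M k) : Continuous (fE l M) := by
  unfold fE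
  have h1 := FF_continuous l hM
  have h2 : Continuous fun v : EuclideanSpace ℝ (Fin 2) => (v 0, v 1) := by fun_prop
  exact h1.comp h2

lemma fE_integrable (l : ℕ → ℕ) {M : ℕ → ℕ} (hM : ∀ k, 2 ≤ M k) : Integrable (fE l M) := by
  have := (eV_preserving.integrable_comp_emb eV.measurableEmbedding).2 (FF_integrable l hM)
  exact this

lemma integral_fE (l M : ℕ → ℕ) (a b : ℝ) :
    ∫ v : EuclideanSpace ℝ (Fin 2), (fE l M v : ℂ) * ee (-(a * v 0 + b * v 1)) =
      hat2 (FF l M) a b := by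
  have := eV_preserving.integral_comp eV.measurableEmbedding
    (fun p : ℝ × ℝ => (FF l M p.1 p.2 : ℂ) * ee (-(a * p.1 + b * p.2)))
  exact this

lemma tiles_fE {φ : ℤ → ℝ} {β : ℝ} {l M : ℕ → ℕ} (hM : ∀ k, 2 ≤ M k)
    (h : ∀ k n, HasSum (fun s : ℤ => (kap (M k) s : ℂ) * ee (-(l k * φ (n - s)))) (-EE β (l k)))
    (hinj : Function.Injective (ptE φ β)) :
    TilesAt (fun x => (fE l M x : ℂ)) (Set.range (ptE φ β)) 20 := by
  apply Filter.Eventually.of_forall
  intro x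
  have h1 := tile_FF hM h (x 0) (x 1)
  have h2 : HasSum (fun i => ((FF l M (x 0 - (pt φ β i).1) (x 1 - (pt φ β i).2) : ℝ) : ℂ))
      ((20 : ℝ) : ℂ) := Complex.ofRealCLM.hasSum h1
  rw [← (Equiv.ofInjective _ hinj).hasSum_iff]
  have h3 : ((20 : ℝ) : ℂ) = 20 := by norm_num
  rw [h3] at h2
  exact h2

/-! ### no lattice -/

/-- the map `n ↦ A n` as a linear equivalence -/
noncomputable def linE {A : Matrix (Fin 2) (Fin 2) ℝ} (hA : A.det ≠ 0) :
    (Fin 2 → ℝ) ≃ₗ[ℝ] EuclideanSpace ℝ (Fin 2) :=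
  (Matrix.toLinearEquiv' A (A.invertibleOfIsUnitDet (isUnit_iff_ne_zero.2 hA))).trans
    (WithLp.linearEquiv 2 ℝ (Fin 2 → ℝ)).symm

lemma linE_apply {A : Matrix (Fin 2) (Fin 2) ℝ} (hA : A.det ≠ 0) (v : Fin 2 → ℝ) :
    linE hA v = WithLp.toLp 2 (A.mulVec v) := by
  rfl

/-- the columns of `A` as a basis -/
noncomputable def colB {A : Matrix (Fin 2) (Fin 2) ℝ} (hA : A.det ≠ 0) :
    Basis (Fin 2) ℝ (EuclideanSpace ℝ (Fin 2)) :=
  (Pi.basisFun ℝ (Fin 2)).map (linE hA)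

lemma latticeOf_eq {A : Matrix (Fin 2) (Fin 2) ℝ} (hA : A.det ≠ 0) :
    latticeOf A = (Submodule.span ℤ (Set.range (colB hA)) : Set (EuclideanSpace ℝ (Fin 2))) := by
  ext x
  rw [SetLike.mem_coe, Submodule.mem_span_range_iff_exists_fun]
  unfold latticeOf
  rw [Set.mem_range]
  have key : ∀ n : Fin 2 → ℤ, ∑ i, n i • colB hA i =
      WithLp.toLp 2 (A.mulVec fun i => (n i : ℝ)) := by
    intro n
    rw [← linE_apply hA]
    have h1 : (fun i => (n i : ℝ)) = ∑ i, (n i : ℝ) • (Pi.basisFun ℝ (Fin 2)) i := by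
      funext j
      simp [Finset.sum_apply, Pi.single_apply]
    rw [h1, map_sum]
    refine Finset.sum_congr rfl fun i _ => ?_
    rw [map_smul]
    unfold colB
    rw [Basis.map_apply]
    exact (Int.cast_smul_eq_zsmul ℝ (n i) _).symm
  constructor
  · rintro ⟨n, rfl⟩
    exact ⟨n, key n⟩
  · rintro ⟨n, rfl⟩
    exact ⟨n, (key n).symm⟩

/-- membership in the dual lattice -/
def Mem (A : Matrix (Fin 2) (Fin 2) ℝ) (a b : ℝ) : Prop :=
  (∃ n : ℤ, a * A 0 0 + b * A 1 0 = n) ∧ ∃ n : ℤ, a * A 0 1 + b * A 1 1 = n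

lemma Mem.add {A : Matrix (Fin 2) (Fin 2) ℝ} {a b a' b' : ℝ} (h : Mem A a b) (h' : Mem A a' b') :
    Mem A (a + a') (b + b') := by
  obtain ⟨⟨n, hn⟩, m, hm⟩ := h
  obtain ⟨⟨n', hn'⟩, m', hm'⟩ := h'
  refine ⟨⟨n + n', ?_⟩, m + m', ?_⟩
  · push_cast; rw [← hn, ← hn']; ring
  · push_cast; rw [← hm, ← hm']; ring

lemma Mem.int_mul {A : Matrix (Fin 2) (Fin 2) ℝ} {a b : ℝ} (h : Mem A a b) (c : ℤ) :
    Mem A (c * a) (c * b) := by
  obtain ⟨⟨n, hn⟩, m, hm⟩ := h
  refine ⟨⟨c * n, ?_⟩, c * m, ?_⟩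
  · push_cast; rw [← hn]; ring
  · push_cast; rw [← hm]; ring

lemma hat2_eq_zero_of_tiles {A : Matrix (Fin 2) (Fin 2) ℝ} (hA : A.det ≠ 0) (l : ℕ → ℕ)
    {M : ℕ → ℕ} (hM : ∀ k, 2 ≤ M k) {w : ℂ}
    (ht : TilesAt (fun x => (fE l M x : ℂ)) (latticeOf A) w) {a b : ℝ} (hm : Mem A a b)
    (hab : ¬(a = 0 ∧ b = 0)) : hat2 (FF l M) a b = 0 := by
  rw [← integral_fE]
  have hpos : 0 < a ^ 2 + b ^ 2 := by
    by_contra hcon
    apply hab
    constructor <;> nlinarith [sq_nonneg a, sq_nonneg b]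
  refine integral_char_eq_zero_of_tile volume (colB hA) (c := w)
    (v := WithLp.toLp 2 ![a / (2 * (a ^ 2 + b ^ 2)), b / (2 * (a ^ 2 + b ^ 2))])
    ?_ ?_ ?_ ?_ ?_ ?_ ?_
  · exact (fE_integrable l hM).ofReal
  · apply ee_continuous.comp
    fun_prop
  · intro x y
    rw [← ee_add]
    congr 1
    simp only [PiLp.add_apply]
    ring
  · intro x
    exact norm_ee _
  · intro v hv
    have hv' : v ∈ latticeOf A := by rw [latticeOf_eq hA]; exact hv
    obtain ⟨n, rfl⟩ := hv'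
    obtain ⟨⟨p, hp⟩, q, hq⟩ := hm
    have : -(a * (WithLp.toLp 2 (A.mulVec fun i => (n i : ℝ)) : EuclideanSpace ℝ (Fin 2)) 0 +
        b * (WithLp.toLp 2 (A.mulVec fun i => (n i : ℝ)) : EuclideanSpace ℝ (Fin 2)) 1) =
        ((-(p * n 0 + q * n 1) : ℤ) : ℝ) := by
      simp only [Matrix.mulVec, dotProduct, Fin.sum_univ_two]
      push_cast
      rw [← hp, ← hq]
      ring
    simp only
    rw [this, ee_int]
  · simp only [Matrix.cons_val_zero, Matrix.cons_val_one]
    have : -(a * (a / (2 * (a ^ 2 + b ^ 2))) + b * (b / (2 * (a ^ 2 + b ^ 2)))) =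
        1 / 2 + ((-1 : ℤ) : ℝ) := by
      push_cast
      field_simp
      ring
    rw [this, ee_add, ee_int, ee_half]
    norm_num
  · unfold TilesAt at ht
    rw [latticeOf_eq hA] at ht
    exact ht

theorem no_lattice {A : Matrix (Fin 2) (Fin 2) ℝ} (hA : A.det ≠ 0) {l : ℕ → ℕ}
    {M : ℕ → ℕ} (hM : ∀ k, 2 ≤ M k) (hl : ∀ k, 0 < l k ∧ (k + 1) ∣ l k) {w : ℂ}
    (ht : TilesAt (fun x => (fE l M x : ℂ)) (latticeOf A) w) : False := by
  have hvan := fun {a b : ℝ} (hm : Mem A a b) (hab : ¬(a = 0 ∧ b = 0)) =>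
    hat2_eq_zero_of_tiles hA l hM ht hm hab
  have halt : ∀ a b : ℝ, Mem A a b → ¬(a = 0 ∧ b = 0) →
      (a ≠ 0 ∧ ∃ n : ℤ, a = n) ∨ (b ≠ 0 ∧ ∃ n : ℤ, b = n) := by
    intro a b hm hab
    by_contra hcon
    rw [not_or, not_and_or, not_and_or, not_not, not_not, not_exists, not_exists] at hcon
    exact hat2_FF_ne_zero_of l hM hcon.1 hcon.2 (hvan hm hab)
  have halt' : ∀ a b : ℝ, Mem A a b → (∃ n : ℤ, a = n) ∨ (∃ n : ℤ, b = n) := by
    intro a b hm
    by_cases hab : a = 0 ∧ b = 0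
    · left; exact ⟨0, by rw [hab.1]; simp⟩
    · rcases halt a b hm hab with h | h
      · exact Or.inl h.2
      · exact Or.inr h.2
  have hno1 : ∀ k, ¬ Mem A (l k) 0 := by
    intro k hm
    apply hat2_FF_ne_zero_special l hM k
    apply hvan hm
    rintro ⟨h1, -⟩
    have : l k = 0 := by exact_mod_cast h1
    have := (hl k).1
    omega
  have hno2 : ∀ k, ¬ Mem A 0 (l k) := by
    intro k hm
    apply hat2_FF_ne_zero_special l hM k
    rw [hat2_symm (FF_symm l M)]
    apply hvan hm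
    rintro ⟨-, h1⟩
    have : l k = 0 := by exact_mod_cast h1
    have := (hl k).1
    omega
  have hdiv : ∀ t : ℤ, t ≠ 0 → ∃ k : ℕ, ∃ c : ℤ, (l k : ℤ) = c * t := by
    intro t ht0
    have h1 : 0 < t.natAbs := Int.natAbs_pos.2 ht0
    refine ⟨t.natAbs - 1, ?_⟩
    obtain ⟨-, h2⟩ := hl (t.natAbs - 1)
    rw [Nat.sub_add_cancel h1] at h2
    have h3 : t ∣ (l (t.natAbs - 1) : ℤ) := by
      rw [← Int.natAbs_dvd]
      exact_mod_cast h2
    obtain ⟨c, hc⟩ := h3
    exact ⟨c, by rw [hc]; ring⟩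
  -- generators of the dual lattice
  have hD := A.det_fin_two
  obtain ⟨D, hDdef⟩ : ∃ D, D = A.det := ⟨_, rfl⟩
  have hD0 : D ≠ 0 := by rw [hDdef]; exact hA
  rw [← hDdef] at hD
  have hm1 : Mem A (A 1 1 / D) (-A 0 1 / D) := by
    refine ⟨⟨1, ?_⟩, 0, ?_⟩
    · push_cast
      field_simp
      rw [hD]; ring
    · push_cast
      field_simp
      ring
  have hm2 : Mem A (-A 1 0 / D) (A 0 0 / D) := by
    refine ⟨⟨0, ?_⟩, 1, ?_⟩
    · push_cast
      field_simp
      ring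
    · push_cast
      field_simp
      rw [hD]; ring
  obtain ⟨a1, ha1⟩ : ∃ a1, a1 = A 1 1 / D := ⟨_, rfl⟩
  obtain ⟨b1, hb1⟩ : ∃ b1, b1 = -A 0 1 / D := ⟨_, rfl⟩
  obtain ⟨a2, ha2⟩ : ∃ a2, a2 = -A 1 0 / D := ⟨_, rfl⟩
  obtain ⟨b2, hb2⟩ : ∃ b2, b2 = A 0 0 / D := ⟨_, rfl⟩
  rw [← ha1, ← hb1] at hm1
  rw [← ha2, ← hb2] at hm2
  have hdet : a1 * b2 - a2 * b1 ≠ 0 := by
    have : a1 * b2 - a2 * b1 = 1 / D := by
      rw [ha1, hb2, ha2, hb1]
      field_simp
      rw [hD]; ring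
    rw [this]
    exact one_div_ne_zero hD0
  have hm3 := hm1.add hm2
  -- first coordinates integral
  have hcaseA : (∃ n : ℤ, a1 = n) → (∃ n : ℤ, a2 = n) → False := by
    rintro ⟨p, hp⟩ ⟨r, hr⟩
    have hm4 := (hm1.int_mul r).add (hm2.int_mul (-p))
    have e1 : (r : ℝ) * a1 + ((-p : ℤ) : ℝ) * a2 = 0 := by
      push_cast; rw [← hp, ← hr]; ring
    have e2 : (r : ℝ) * b1 + ((-p : ℤ) : ℝ) * b2 = -(a1 * b2 - a2 * b1) := by
      push_cast; rw [← hp, ← hr]; ring
    rw [e1, e2] at hm4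
    rcases halt _ _ hm4 (fun h => neg_ne_zero.2 hdet h.2) with h | h
    · exact h.1 rfl
    · obtain ⟨h5, t, ht'⟩ := h
      rw [ht'] at hm4 h5
      have ht0 : t ≠ 0 := by
        rintro rfl
        exact h5 (by simp)
      obtain ⟨k, c, hc⟩ := hdiv t ht0
      apply hno2 k
      have hm5 := hm4.int_mul c
      rw [mul_zero] at hm5
      have e3 : (l k : ℝ) = c * t := by exact_mod_cast hc
      rw [e3]
      exact hm5
  have hcaseB : (∃ n : ℤ, b1 = n) → (∃ n : ℤ, b2 = n) → False := by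
    rintro ⟨p, hp⟩ ⟨r, hr⟩
    have hm4 := (hm1.int_mul r).add (hm2.int_mul (-p))
    have e1 : (r : ℝ) * b1 + ((-p : ℤ) : ℝ) * b2 = 0 := by
      push_cast; rw [← hp, ← hr]; ring
    have e2 : (r : ℝ) * a1 + ((-p : ℤ) : ℝ) * a2 = a1 * b2 - a2 * b1 := by
      push_cast; rw [← hp, ← hr]; ring
    rw [e1, e2] at hm4
    rcases halt _ _ hm4 (fun h => hdet h.1) with h | h
    · obtain ⟨h5, t, ht'⟩ := h
      rw [ht'] at hm4 h5
      have ht0 : t ≠ 0 := by
        rintro rfl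
        exact h5 (by simp)
      obtain ⟨k, c, hc⟩ := hdiv t ht0
      apply hno1 k
      have hm5 := hm4.int_mul c
      rw [mul_zero] at hm5
      have e3 : (l k : ℝ) = c * t := by exact_mod_cast hc
      rw [e3]
      exact hm5
    · exact h.1 rfl
  have hsub : ∀ x y : ℝ, (∃ n : ℤ, x = n) → (∃ n : ℤ, x + y = n) → ∃ n : ℤ, y = n := by
    rintro x y ⟨n, hn⟩ ⟨m, hm⟩
    exact ⟨m - n, by push_cast; linarith⟩
  rcases halt' _ _ hm1 with h1 | h1 <;> rcases halt' _ _ hm2 with h2 | h2 <;>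
    rcases halt' _ _ hm3 with h3 | h3
  · exact hcaseA h1 h2
  · exact hcaseA h1 h2
  · exact hcaseA h1 (hsub _ _ h1 h3)
  · rw [add_comm] at h3
    exact hcaseB (hsub _ _ h2 h3) h2
  · rw [add_comm] at h3
    exact hcaseA (hsub _ _ h2 h3) h2
  · exact hcaseB h1 (hsub _ _ h1 h3)
  · exact hcaseB h1 h2
  · exact hcaseB h1 h2

end Pool.Agent.Lib.MP_4be4c6_an
end
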